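import Pool.Agent.Lib.H17T.Defs

set_option autoImplicit false

/-!
# H17V: definitions of the statement

The space-time metric `-F du dv + r² σ`, its slices and the data induced on them are those of `H17T/Defs.lean`. Here they are given
only for radii `> R₀`, and the asymptotic conditions involve first derivatives of the space-time metric only.
-/

open MeasureTheory Filter Topology Set
open scoped ContDiff

namespace H17V

open H17T
open Pool.Agent.Lib.PenroseSph (E3 Tens S2 sm pd gradNorm meanCurv trLevel admFlux admMom DefFun)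

/-- The events with radius greater than `R₀` which are at the same time and radius as some event of the slice `T = f(x)`. -/
def Near (R₀ : ℝ) (f : E3 → ℝ) : Set E4 := {p | R₀ < ‖pos p‖ ∧ ∃ y : E3, ‖y‖ = ‖pos p‖ ∧ f y = p 0}

/-- The part `|x| > R₀` of the slice `T = f(x)` is smooth and spacelike, in a space-time of our class, smooth and with the
dominant energy condition at all events `Near R₀ f`. -/
structure Slice (R₀ : ℝ) (F : E4 → ℝ) (k : ℝ → ℝ) (r : ℝ × ℝ → ℝ) (f : E3 → ℝ) : Prop where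
  nonneg : 0 ≤ R₀
  F_smooth : ∀ p ∈ Near R₀ f, ContDiffAt ℝ ∞ F p
  F_pos : ∀ p ∈ Near R₀ f, 0 < F p
  k_smooth : ∀ t : ℝ, R₀ < t → ContDiffAt ℝ ∞ k t
  k_pos : ∀ t : ℝ, R₀ < t → 0 < k t
  r_smooth : ∀ p ∈ Near R₀ f, ContDiffAt ℝ ∞ r (p 0, ‖pos p‖)
  r_pos : ∀ p ∈ Near R₀ f, 0 < r (p 0, ‖pos p‖)
  f_smooth : ∀ x : E3, R₀ < ‖x‖ → ContDiffAt ℝ ∞ f x
  spacelike : ∀ x : E3, R₀ < ‖x‖ → ∀ ξ : Fin 3 → ℝ, ξ ≠ 0 →
    0 < ∑ i, ∑ j, slice (stMetric F k r) f x i j * ξ i * ξ j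
  dec : ∀ p ∈ Near R₀ f, DEC (stMetric F k r) p

/-- `φ - 1 = O(1/|x|)` and `∂φ = O(1/|x|²)` at the events `Near R₀ f`. -/
def Decay (R₀ : ℝ) (f : E3 → ℝ) (φ : E4 → ℝ) : Prop :=
  ∃ C R : ℝ, 0 < R ∧ ∀ p ∈ Near R₀ f, R ≤ ‖pos p‖ → |φ p - 1| ≤ C / ‖pos p‖ ∧ ∀ a, |H31R.pd a φ p| ≤ C / ‖pos p‖ ^ 2

/-- The space-time and the slice are asymptotically flat. -/
structure AsympFlat (R₀ : ℝ) (F : E4 → ℝ) (k : ℝ → ℝ) (r : ℝ × ℝ → ℝ) (f : E3 → ℝ) : Prop where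
  f_decay : ∃ C R : ℝ, 0 < R ∧ ∀ x : E3, R ≤ ‖x‖ → (∀ i, |pd i f x| ≤ C / ‖x‖) ∧ ∀ i j, |pd i (pd j f) x| ≤ C / ‖x‖ ^ 2
  F_decay : Decay R₀ f F
  k_decay : Decay R₀ f fun p => k ‖pos p‖
  r_decay : Decay R₀ f fun p => r (p 0, ‖pos p‖) / ‖pos p‖

end H17V
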