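import Pool.Agent.Lib.H17V.T0
import Pool.Agent.Lib.H17T.CMain
import Pool.Agent.Lib.H17T.T1

set_option autoImplicit false

/-!
# H17V, chunk A1 (S/M): the radial translation `σ` and the translated data

`σ y = ((‖y‖ + R₀)/‖y‖) • y` maps `{y ≠ 0}` onto `{‖x‖ > R₀}`; the inverse is `σi x = ((‖x‖ - R₀)/‖x‖) • x`. Everything is elementary: `‖σ y‖ = ‖y‖ + R₀`.
`shift_fderiv`: chain rule with the translation `q ↦ (q.1, q.2 + R₀)` (`fderiv_comp_add_right` with `(0, R₀)`). `XX_shift`: substitution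
`intervalIntegral.integral_comp_add_right`. `shF_ev`: for `q.2 > 0` one has `σ (q.2 • n) = (q.2 + R₀) • n`.
-/

open MeasureTheory Filter Topology Set
open scoped ContDiff

namespace H17V

open H17T
open Pool.Agent.Lib.PenroseSph (E3 Tens S2 sm pd )

/-- The radial translation. -/
noncomputable def sg (R₀ : ℝ) (y : E3) : E3 := ((‖y‖ + R₀) / ‖y‖) • y

/-- Its inverse. -/
noncomputable def sgi (R₀ : ℝ) (x : E3) : E3 := ((‖x‖ - R₀) / ‖x‖) • x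

/-- The translated data. -/
noncomputable def shF (R₀ : ℝ) (F : E4 → ℝ) (p : E4) : ℝ := F (pt (p 0) (sg R₀ (pos p)))
noncomputable def shk (R₀ : ℝ) (k : ℝ → ℝ) (t : ℝ) : ℝ := k (t + R₀)
noncomputable def shr (R₀ : ℝ) (r : ℝ × ℝ → ℝ) (q : ℝ × ℝ) : ℝ := r (q.1, q.2 + R₀)
noncomputable def shf (R₀ : ℝ) (f : E3 → ℝ) (y : E3) : ℝ := f (sg R₀ y)

theorem sg_norm {R₀ : ℝ} (h0 : 0 ≤ R₀) {y : E3} (hy : y ≠ 0) : ‖sg R₀ y‖ = ‖y‖ + R₀ ∧ R₀ < ‖sg R₀ y‖ := by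
  have hn : 0 < ‖y‖ := norm_pos_iff.mpr hy
  have h1 : ‖sg R₀ y‖ = ‖y‖ + R₀ := by
    unfold sg
    rw [norm_smul, Real.norm_of_nonneg (by positivity), div_mul_cancel₀ _ hn.ne']
  exact ⟨h1, by linarith⟩

theorem sgi_norm {R₀ : ℝ} (h0 : 0 ≤ R₀) {x : E3} (hx : R₀ < ‖x‖) :
    sgi R₀ x ≠ 0 ∧ ‖sgi R₀ x‖ = ‖x‖ - R₀ ∧ sg R₀ (sgi R₀ x) = x := by
  have hn : 0 < ‖x‖ := lt_of_le_of_lt h0 hx
  have hd : 0 < ‖x‖ - R₀ := by linarith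
  have h1 : ‖sgi R₀ x‖ = ‖x‖ - R₀ := by
    unfold sgi
    rw [norm_smul, Real.norm_of_nonneg (div_nonneg hd.le hn.le), div_mul_cancel₀ _ hn.ne']
  refine ⟨norm_pos_iff.mp (by rw [h1]; exact hd), h1, ?_⟩
  unfold sg
  rw [h1]
  unfold sgi
  rw [smul_smul]
  have h2 : (‖x‖ - R₀ + R₀) / (‖x‖ - R₀) * ((‖x‖ - R₀) / ‖x‖) = 1 := by
    field_simp
    ring
  rw [h2, one_smul]

theorem sgi_sg {R₀ : ℝ} (h0 : 0 ≤ R₀) {y : E3} (hy : y ≠ 0) : sgi R₀ (sg R₀ y) = y := by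
  obtain ⟨h1, h2⟩ := sg_norm h0 hy
  have hn : 0 < ‖y‖ := norm_pos_iff.mpr hy
  have hd : 0 < ‖y‖ + R₀ := by linarith
  unfold sgi
  rw [h1]
  unfold sg
  rw [smul_smul]
  have h3 : (‖y‖ + R₀ - R₀) / (‖y‖ + R₀) * ((‖y‖ + R₀) / ‖y‖) = 1 := by
    field_simp
    ring
  rw [h3, one_smul]

theorem sg_ray (R₀ : ℝ) (n : S2) {s : ℝ} (hs : 0 < s) : sg R₀ (s • (n : E3)) = (s + R₀) • (n : E3) := by
  have hn : ‖(n : E3)‖ = 1 := by simp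
  have h1 : ‖s • (n : E3)‖ = s := by
    rw [norm_smul, hn, mul_one, Real.norm_of_nonneg hs.le]
  unfold sg
  rw [h1, smul_smul, div_mul_cancel₀ _ hs.ne']

theorem sg_smooth (R₀ : ℝ) {y : E3} (hy : y ≠ 0) : ContDiffAt ℝ ∞ (sg R₀) y := by
  have hn : ‖y‖ ≠ 0 := norm_ne_zero_iff.mpr hy
  have h1 : ContDiffAt ℝ ∞ (fun y : E3 => ‖y‖) y := contDiffAt_norm ℝ hy
  exact ((h1.add contDiffAt_const).div h1 hn).smul contDiffAt_id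

theorem sgi_cont (R₀ : ℝ) {x : E3} (hx : x ≠ 0) : ContinuousAt (sgi R₀) x := by
  have hn : ‖x‖ ≠ 0 := norm_ne_zero_iff.mpr hx
  have h1 : ContinuousAt (fun y : E3 => ‖y‖) x := continuous_norm.continuousAt
  exact ((h1.sub continuousAt_const).div h1 hn).smul continuousAt_id

/-- Derivative of `σ` at `ρ n` in the direction `a n + b v`, `v` orthogonal to `n`. -/
theorem sg_deriv (R₀ : ℝ) (n : S2) {ρ : ℝ} (hρ : 0 < ρ) {v : E3} (hv : inner ℝ (n : E3) v = 0) (a b : ℝ) :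
    fderiv ℝ (sg R₀) (ρ • (n : E3)) (a • (n : E3) + (ρ * b) • v) = a • (n : E3) + ((ρ + R₀) * b) • v := by
  have hn1 : ‖(n : E3)‖ = 1 := by simp
  have hnn : inner ℝ (n : E3) (n : E3) = 1 := by
    rw [real_inner_self_eq_norm_sq, hn1]
    norm_num
  have hy : ρ • (n : E3) ≠ 0 := by
    rw [← norm_pos_iff, norm_smul, hn1, mul_one, Real.norm_of_nonneg hρ.le]
    exact hρ
  have hny : ‖ρ • (n : E3)‖ = ρ := by
    rw [norm_smul, hn1, mul_one, Real.norm_of_nonneg hρ.le]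
  have h1 := Pool.Agent.Lib.PenroseSph.hasFDerivAt_norm' hy
  have hg : HasDerivAt (fun t : ℝ => (t + R₀) / t) (-R₀ / ρ ^ 2) ‖ρ • (n : E3)‖ := by
    rw [hny]
    have h := ((hasDerivAt_id ρ).add_const R₀).div (hasDerivAt_id ρ) hρ.ne'
    have e : -R₀ / ρ ^ 2 = (1 * id ρ - (id ρ + R₀) * 1) / id ρ ^ 2 := by
      simp
    rw [e]
    exact h
  have h2 := hg.comp_hasFDerivAt (ρ • (n : E3)) h1
  have h3 : HasFDerivAt (sg R₀) _ (ρ • (n : E3)) := h2.smul (hasFDerivAt_id (ρ • (n : E3)))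
  rw [h3.fderiv]
  have e1 : inner ℝ (ρ • (n : E3)) (a • (n : E3) + (ρ * b) • v) = ρ * a := by
    rw [inner_smul_left, inner_add_right, inner_smul_right, inner_smul_right, hnn, hv]
    simp
  simp only [ContinuousLinearMap.add_apply, ContinuousLinearMap.smul_apply, ContinuousLinearMap.smulRight_apply,
    ContinuousLinearMap.id_apply, Function.comp, innerSL_apply_apply, e1, hny]
  have e2 : (ρ + R₀) / ρ * a + (-R₀ / ρ ^ 2 * (ρ⁻¹ * (ρ * a))) * ρ = a := by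
    field_simp
    ring
  have e3 : (ρ + R₀) / ρ * (ρ * b) = (ρ + R₀) * b := by
    field_simp
  have e4 : ((ρ + R₀) / ρ) • (a • (n : E3) + (ρ * b) • v) + ((-R₀ / ρ ^ 2) • ρ⁻¹ • (ρ * a)) • ρ • (n : E3)
      = ((ρ + R₀) / ρ * a + (-R₀ / ρ ^ 2 * (ρ⁻¹ * (ρ * a))) * ρ) • (n : E3) + ((ρ + R₀) / ρ * (ρ * b)) • v := by
    simp only [smul_eq_mul]
    module
  rw [e4, e2, e3]

theorem qq_sg {R₀ : ℝ} (h0 : 0 ≤ R₀) (f : E3 → ℝ) {y : E3} (hy : y ≠ 0) :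
    qq f (sg R₀ y) = ((qq (shf R₀ f) y).1, (qq (shf R₀ f) y).2 + R₀) := by
  obtain ⟨h1, h2⟩ := sg_norm h0 hy
  unfold qq
  rw [h1]
  rfl

theorem sh_mem {R₀ : ℝ} (h0 : 0 ≤ R₀) {f : E3 → ℝ} {q : ℝ × ℝ} (hq : q ∈ H17T.QQ (shf R₀ f)) :
    (q.1, q.2 + R₀) ∈ QQ R₀ f ∧ 0 < q.2 := by
  obtain ⟨y, hy, rfl⟩ := hq
  obtain ⟨h1, h2⟩ := sg_norm h0 hy
  exact ⟨⟨sg R₀ y, h2, qq_sg h0 f hy⟩, norm_pos_iff.mpr hy⟩

theorem shift_fderiv (R₀ : ℝ) (φ : ℝ × ℝ → ℝ) (q v : ℝ × ℝ) :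
    fderiv ℝ (fun q : ℝ × ℝ => φ (q.1, q.2 + R₀)) q v = fderiv ℝ φ (q.1, q.2 + R₀) v := by
  have h1 : (fun q : ℝ × ℝ => φ (q.1, q.2 + R₀)) = fun q : ℝ × ℝ => φ (q + (0, R₀)) := by
    funext p
    congr 1
    ext
    · simp
    · simp
  rw [h1, fderiv_comp_add_right]
  congr 2
  ext
  · simp
  · simp

theorem Da_shift (R₀ : ℝ) (k : ℝ → ℝ) (φ : ℝ × ℝ → ℝ) (q : ℝ × ℝ) :
    Da (shk R₀ k) (fun q : ℝ × ℝ => φ (q.1, q.2 + R₀)) q = Da k φ (q.1, q.2 + R₀) ∧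
      Db (shk R₀ k) (fun q : ℝ × ℝ => φ (q.1, q.2 + R₀)) q = Db k φ (q.1, q.2 + R₀) := by
  unfold Da Db shk
  rw [shift_fderiv, shift_fderiv]
  exact ⟨rfl, rfl⟩

theorem shF_ev (R₀ : ℝ) (F : E4 → ℝ) {q : ℝ × ℝ} (hq : 0 < q.2) (n : S2) :
    shF R₀ F (ev q n) = F (ev (q.1, q.2 + R₀) n) := by
  unfold shF ev
  rw [pos_pt, pt_zero, sg_ray R₀ n hq]

theorem XX_shift (R₀ : ℝ) (k : ℝ → ℝ) (ρ : ℝ) : H17T.XX (shk R₀ k) ρ = XX R₀ k (ρ + R₀) := by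
  unfold H17T.XX XX shk
  rw [intervalIntegral.integral_comp_add_right, add_comm 1 R₀]

theorem NN_shift {R₀ : ℝ} (h0 : 0 ≤ R₀) (ε : ℝ) (k : ℝ → ℝ) (f : E3 → ℝ) {y : E3} (hy : y ≠ 0) :
    H17T.NN ε (shk R₀ k) (shf R₀ f) y = NN R₀ ε k f (sg R₀ y) := by
  unfold H17T.NN NN
  rw [XX_shift, (sg_norm h0 hy).1]
  rfl

end H17V
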