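import Pool.Agent.Lib.H17V.A1

set_option autoImplicit false

/-!
# H17V, chunk A2 (M): the translated data satisfy the reduced inequalities of H17T

Near a point `q` with `q.2 > 0` the functions `q ↦ shF R₀ F (ev q n)` and `q ↦ F (ev (q.1, q.2 + R₀) n)` agree (`shF_ev`, an open condition), so
their derivatives agree (`Filter.EventuallyEq.fderiv_eq`) and `Da_shift` applies; `shr R₀ r = fun q => r (q.1, q.2 + R₀)`, hence
`Da (shk R₀ k) (shr R₀ r) = fun q => Da k r (q.1, q.2 + R₀)` as functions (`funext`), and once more for the second derivatives. `mF (shF R₀ F) q = mF F (q.1, q.2 + R₀)` by `shF_ev`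
under the integral. `F_smooth`: `p ↦ pt (p 0) (sg R₀ (pos p))` is smooth at `ev q n` (`pt_smooth`, `pos_smooth`, `sg_smooth`, `pos (ev q n) = q.2 • n ≠ 0`).
`slope`: `fderiv (shf R₀ f) y y = fderiv f (sg R₀ y) (fderiv (sg R₀) y y)` and `fderiv (sg R₀) y y = ‖y‖ n = (‖y‖/‖sg R₀ y‖) • sg R₀ y` (`sg_deriv` with `a = ρ`, `b = 0`).
-/

open MeasureTheory Filter Topology Set
open scoped ContDiff

namespace H17V

open H17T
open Pool.Agent.Lib.PenroseSph (E3 Tens S2 sm pd )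

theorem sh_mF {R₀ : ℝ} (F : E4 → ℝ) {q : ℝ × ℝ} (hq : 0 < q.2) : mF (shF R₀ F) q = mF F (q.1, q.2 + R₀) := by
  unfold mF
  congr 2
  funext n
  rw [shF_ev R₀ F hq n]

theorem a2_Da (R₀ : ℝ) (k : ℝ → ℝ) (φ : ℝ × ℝ → ℝ) :
    (Da (shk R₀ k) (fun q : ℝ × ℝ => φ (q.1, q.2 + R₀)) = fun q => Da k φ (q.1, q.2 + R₀)) ∧
      Db (shk R₀ k) (fun q : ℝ × ℝ => φ (q.1, q.2 + R₀)) = fun q => Db k φ (q.1, q.2 + R₀) :=
  ⟨funext fun q => (Da_shift R₀ k φ q).1, funext fun q => (Da_shift R₀ k φ q).2⟩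

theorem a2_F (R₀ : ℝ) (F : E4 → ℝ) {q : ℝ × ℝ} (hq : 0 < q.2) (n : S2) :
    (fun q : ℝ × ℝ => shF R₀ F (ev q n)) =ᶠ[𝓝 q] fun q : ℝ × ℝ => (fun p : ℝ × ℝ => F (ev p n)) (q.1, q.2 + R₀) := by
  have h1 : ∀ᶠ p : ℝ × ℝ in 𝓝 q, 0 < p.2 := continuous_snd.continuousAt.eventually (lt_mem_nhds hq)
  filter_upwards [h1] with p hp
  exact shF_ev R₀ F hp n

theorem a2_DaF (R₀ : ℝ) (k : ℝ → ℝ) (F : E4 → ℝ) {q : ℝ × ℝ} (hq : 0 < q.2) (n : S2) :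
    Da (shk R₀ k) (fun q : ℝ × ℝ => shF R₀ F (ev q n)) q = Da k (fun p : ℝ × ℝ => F (ev p n)) (q.1, q.2 + R₀) ∧
      Db (shk R₀ k) (fun q : ℝ × ℝ => shF R₀ F (ev q n)) q = Db k (fun p : ℝ × ℝ => F (ev p n)) (q.1, q.2 + R₀) := by
  have h := (a2_F R₀ F hq n).fderiv_eq (𝕜 := ℝ)
  obtain ⟨h1, h2⟩ := Da_shift R₀ k (fun p : ℝ × ℝ => F (ev p n)) q
  constructor
  · rw [← h1]
    unfold Da
    rw [h]
  · rw [← h2]
    unfold Db
    rw [h]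

theorem sh_mass {R₀ : ℝ} (F : E4 → ℝ) (k : ℝ → ℝ) (r : ℝ × ℝ → ℝ) {q : ℝ × ℝ} (hq : 0 < q.2) :
    mass (shF R₀ F) (shk R₀ k) (shr R₀ r) q = mass F k r (q.1, q.2 + R₀) := by
  obtain ⟨h1, h2⟩ := Da_shift R₀ k r q
  unfold mass
  rw [sh_mF F hq]
  show shr R₀ r q / 2 * (1 - 4 * Da (shk R₀ k) (fun q : ℝ × ℝ => r (q.1, q.2 + R₀)) q
    * Db (shk R₀ k) (fun q : ℝ × ℝ => r (q.1, q.2 + R₀)) q * mF F (q.1, q.2 + R₀)) = _
  rw [h1, h2]
  rfl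

theorem sh_red {R₀ : ℝ} {F : E4 → ℝ} {k : ℝ → ℝ} {r : ℝ × ℝ → ℝ} {f : E3 → ℝ} (hR : Red R₀ F k r f) :
    H17T.Red (shF R₀ F) (shk R₀ k) (shr R₀ r) (shf R₀ f) := by
  have h0 := hR.nonneg
  have hrr : shr R₀ r = fun q : ℝ × ℝ => r (q.1, q.2 + R₀) := rfl
  obtain ⟨hDa, hDb⟩ := a2_Da R₀ k r
  refine ⟨?_, ?_, ?_, ?_, ?_, ?_, ?_, ?_, ?_, ?_, ?_⟩
  · intro q hq n
    obtain ⟨hm, hq2⟩ := sh_mem h0 hq
    have hn1 : ‖(n : E3)‖ = 1 := by simp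
    have hpos : pos (ev q n) = q.2 • (n : E3) := pos_pt _ _
    have hne : pos (ev q n) ≠ 0 := by
      rw [hpos, ← norm_pos_iff, norm_smul, hn1, mul_one, Real.norm_of_nonneg hq2.le]
      exact hq2
    have h1 : ContDiffAt ℝ ∞ (fun p : E4 => sg R₀ (pos p)) (ev q n) :=
      ContDiffAt.comp (ev q n) (g := sg R₀) (f := pos) (sg_smooth R₀ hne) pos_smooth.contDiffAt
    have h2 : ContDiffAt ℝ ∞ (fun p : E4 => p 0) (ev q n) :=
      (EuclideanSpace.proj (0 : Fin 4) : E4 →L[ℝ] ℝ).contDiff.contDiffAt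
    have h3 : ContDiffAt ℝ ∞ (fun p : E4 => pt (p 0) (sg R₀ (pos p))) (ev q n) :=
      ContDiffAt.comp (ev q n) (g := fun q : ℝ × E3 => pt q.1 q.2) (f := fun p : E4 => (p 0, sg R₀ (pos p)))
        pt_smooth.contDiffAt (h2.prodMk h1)
    have h4 : pt ((ev q n) 0) (sg R₀ (pos (ev q n))) = ev (q.1, q.2 + R₀) n := by
      rw [hpos, sg_ray R₀ n hq2]
      rfl
    have h5 : ContDiffAt ℝ ∞ F (pt ((ev q n) 0) (sg R₀ (pos (ev q n)))) := by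
      rw [h4]
      exact hR.F_smooth _ hm n
    exact ContDiffAt.comp (ev q n) (g := F) (f := fun p : E4 => pt (p 0) (sg R₀ (pos p))) h5 h3
  · intro q hq n
    obtain ⟨hm, hq2⟩ := sh_mem h0 hq
    rw [shF_ev R₀ F hq2]
    exact hR.F_pos _ hm n
  · intro t ht
    exact ContDiffAt.comp t (g := k) (f := fun t => t + R₀) (hR.k_smooth (t + R₀) (by linarith))
      (contDiffAt_id.add contDiffAt_const)
  · intro t ht
    exact hR.k_pos (t + R₀) (by linarith)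
  · intro q hq
    obtain ⟨hm, hq2⟩ := sh_mem h0 hq
    exact ContDiffAt.comp q (g := r) (f := fun q : ℝ × ℝ => (q.1, q.2 + R₀)) (hR.r_smooth _ hm)
      (contDiffAt_fst.prodMk (contDiffAt_snd.add contDiffAt_const))
  · intro q hq
    obtain ⟨hm, hq2⟩ := sh_mem h0 hq
    exact hR.r_pos _ hm
  · intro x hx
    exact ContDiffAt.comp x (g := f) (f := sg R₀) (hR.f_smooth _ (sg_norm h0 hx).2) (sg_smooth R₀ hx)
  · intro y hy
    obtain ⟨h1, h2⟩ := sg_norm h0 hy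
    have hn : 0 < ‖y‖ := norm_pos_iff.mpr hy
    have hs := hR.slope (sg R₀ y) h2
    have hc : fderiv ℝ (shf R₀ f) y = (fderiv ℝ f (sg R₀ y)).comp (fderiv ℝ (sg R₀) y) :=
      fderiv_comp y ((hR.f_smooth _ h2).differentiableAt (by simp)) ((sg_smooth R₀ hy).differentiableAt (by simp))
    have hd : fderiv ℝ (sg R₀) y y = y := by
      have hu : ‖(‖y‖⁻¹ • y : E3)‖ = 1 := by
        rw [norm_smul, norm_inv, norm_norm, inv_mul_cancel₀ hn.ne']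
      have h3 := sg_deriv R₀ ⟨‖y‖⁻¹ • y, by rw [mem_sphere_zero_iff_norm]; exact hu⟩ hn (v := 0) (by simp) ‖y‖ 0
      have h4 : ‖y‖ • (‖y‖⁻¹ • y : E3) = y := by
        rw [smul_smul, mul_inv_cancel₀ hn.ne', one_smul]
      simp only [h4, mul_zero, zero_smul, add_zero] at h3
      exact h3
    have he : y = (‖y‖ / (‖y‖ + R₀)) • sg R₀ y := by
      unfold sg
      rw [smul_smul]
      have h5 : ‖y‖ / (‖y‖ + R₀) * ((‖y‖ + R₀) / ‖y‖) = 1 := by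
        have : 0 < ‖y‖ + R₀ := by linarith
        field_simp
      rw [h5, one_smul]
    have h6 : fderiv ℝ (shf R₀ f) y y = (‖y‖ / (‖y‖ + R₀)) * fderiv ℝ f (sg R₀ y) (sg R₀ y) := by
      have h7 : fderiv ℝ f (sg R₀ y) y = fderiv ℝ f (sg R₀ y) ((‖y‖ / (‖y‖ + R₀)) • sg R₀ y) :=
        congrArg (fderiv ℝ f (sg R₀ y)) he
      rw [hc, ContinuousLinearMap.comp_apply, hd, h7, map_smul, smul_eq_mul]
    have hp : 0 < ‖y‖ + R₀ := by linarith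
    rw [h6, abs_mul, abs_of_pos (div_pos hn hp)]
    rw [h1] at hs
    calc ‖y‖ / (‖y‖ + R₀) * |fderiv ℝ f (sg R₀ y) (sg R₀ y)|
        < ‖y‖ / (‖y‖ + R₀) * (k (‖y‖ + R₀) * (‖y‖ + R₀)) := mul_lt_mul_of_pos_left hs (div_pos hn hp)
      _ = shk R₀ k ‖y‖ * ‖y‖ := by
        unfold shk
        field_simp
  · intro q hq n
    obtain ⟨hm, hq2⟩ := sh_mem h0 hq
    have h1 := hR.ra _ hm n
    rw [hrr, hDa, (a2_Da R₀ k (Da k r)).1, (a2_DaF R₀ k F hq2 n).1, shF_ev R₀ F hq2]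
    exact h1
  · intro q hq n
    obtain ⟨hm, hq2⟩ := sh_mem h0 hq
    have h1 := hR.rb _ hm n
    rw [hrr, hDb, (a2_Da R₀ k (Db k r)).2, (a2_DaF R₀ k F hq2 n).2, shF_ev R₀ F hq2]
    exact h1
  · intro q hq
    obtain ⟨hm, hq2⟩ := sh_mem h0 hq
    have h1 := hR.rc _ hm
    rw [hrr, hDb, hDa, (a2_Da R₀ k (Db k r)).1, sh_mF F hq2]
    exact h1

end H17V
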