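import Pool.Agent.Lib.H17V.T0
import Pool.Agent.Lib.H17T.C1

set_option autoImplicit false

/-!
# H17V: the primitive `XX R₀ k` and the functions `NN R₀ ε k f`
-/

open MeasureTheory Filter Topology Set
open scoped ContDiff

namespace H17V

open H17T
open Pool.Agent.Lib.PenroseSph (E3 Tens S2 sm)

theorem XX_deriv {R₀ : ℝ} {k : ℝ → ℝ} (hk : ∀ t : ℝ, R₀ < t → ContDiffAt ℝ ∞ k t) {t : ℝ} (ht : R₀ < t) :
    HasDerivAt (XX R₀ k) (k t) t := by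
  have hc : ContinuousOn k (Ioi R₀) := fun s hs => (hk s hs).continuousAt.continuousWithinAt
  have hsub : uIcc (R₀ + 1) t ⊆ Ioi R₀ := by
    intro s hs
    have h1 : min (R₀ + 1) t ≤ s := hs.1
    exact lt_of_lt_of_le (lt_min (by linarith) ht) h1
  exact intervalIntegral.integral_hasDerivAt_right ((hc.mono hsub).intervalIntegrable)
    (hc.stronglyMeasurableAtFilter isOpen_Ioi t ht) (hk t ht).continuousAt

theorem XX_smooth {R₀ : ℝ} {k : ℝ → ℝ} (hk : ∀ t : ℝ, R₀ < t → ContDiffAt ℝ ∞ k t) {t : ℝ} (ht : R₀ < t) :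
    ContDiffAt ℝ ∞ (XX R₀ k) t := by
  have h1 : ContDiffOn ℝ ∞ (XX R₀ k) (Ioi R₀) := by
    rw [contDiffOn_infty_iff_deriv_of_isOpen isOpen_Ioi]
    refine ⟨fun s hs => (XX_deriv hk hs).differentiableAt.differentiableWithinAt, ?_⟩
    have h2 : ContDiffOn ℝ ∞ k (Ioi R₀) := fun s hs => (hk s hs).contDiffWithinAt
    exact h2.congr fun s hs => (XX_deriv hk hs).deriv
  exact h1.contDiffAt (Ioi_mem_nhds ht)

theorem NN_smooth {R₀ ε : ℝ} {k : ℝ → ℝ} {f : E3 → ℝ} (h0 : 0 ≤ R₀) (hk : ∀ t : ℝ, R₀ < t → ContDiffAt ℝ ∞ k t)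
    (hf : ∀ x : E3, R₀ < ‖x‖ → ContDiffAt ℝ ∞ f x) {x : E3} (hx : R₀ < ‖x‖) : ContDiffAt ℝ ∞ (NN R₀ ε k f) x := by
  unfold NN
  refine (contDiffAt_const.mul (hf x hx)).add ?_
  exact ContDiffAt.comp x (XX_smooth hk hx) (contDiffAt_norm ℝ (ne_of_R h0 hx))

theorem NN_fderiv {R₀ ε : ℝ} {k : ℝ → ℝ} {f : E3 → ℝ} (h0 : 0 ≤ R₀) (hk : ∀ t : ℝ, R₀ < t → ContDiffAt ℝ ∞ k t)
    (hf : ∀ x : E3, R₀ < ‖x‖ → ContDiffAt ℝ ∞ f x) {x : E3} (hx : R₀ < ‖x‖) (v : E3) :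
    fderiv ℝ (NN R₀ ε k f) x v = ε * fderiv ℝ f x v + k ‖x‖ * ((∑ i, x i * v i) / ‖x‖) := by
  have h1 : HasFDerivAt f (fderiv ℝ f x) x := ((hf x hx).differentiableAt (by simp)).hasFDerivAt
  have h2 := (XX_deriv hk hx).comp_hasFDerivAt x (Pool.Agent.Lib.PenroseSph.hasFDerivAt_norm' (ne_of_R h0 hx))
  have h3 : HasFDerivAt (NN R₀ ε k f) (ε • fderiv ℝ f x + k ‖x‖ • ‖x‖⁻¹ • innerSL ℝ x) x := (h1.const_mul ε).add h2
  rw [h3.fderiv]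
  have e : (innerSL ℝ x) v = ∑ i, x i * v i := by
    rw [innerSL_apply_apply, PiLp.inner_apply]
    refine Finset.sum_congr rfl fun i _ => ?_
    rw [real_inner_comm]
    rfl
  rw [ContinuousLinearMap.add_apply, ContinuousLinearMap.smul_apply, ContinuousLinearMap.smul_apply,
    ContinuousLinearMap.smul_apply, e, smul_eq_mul, smul_eq_mul, smul_eq_mul]
  ring

/-- `NN` increases along rays (infinitesimal form). -/
theorem NN_radial {R₀ ε : ℝ} {k : ℝ → ℝ} {f : E3 → ℝ} (h0 : 0 ≤ R₀) (hε : ε = 1 ∨ ε = -1)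
    (hk : ∀ t : ℝ, R₀ < t → ContDiffAt ℝ ∞ k t) (hf : ∀ x : E3, R₀ < ‖x‖ → ContDiffAt ℝ ∞ f x)
    (hs : ∀ x : E3, R₀ < ‖x‖ → |fderiv ℝ f x x| < k ‖x‖ * ‖x‖) {x : E3} (hx : R₀ < ‖x‖) :
    0 < fderiv ℝ (NN R₀ ε k f) x x := by
  have hn : 0 < ‖x‖ := lt_of_le_of_lt h0 hx
  have e : ∑ i, x i * x i = ‖x‖ ^ 2 := by
    rw [EuclideanSpace.norm_sq_eq]
    refine Finset.sum_congr rfl fun i _ => ?_
    rw [Real.norm_eq_abs, sq_abs, sq]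
  have e2 : ‖x‖ ^ 2 / ‖x‖ = ‖x‖ := by
    rw [sq, mul_div_assoc, div_self hn.ne', mul_one]
  rw [NN_fderiv h0 hk hf hx, e, e2]
  have h := abs_lt.1 (hs x hx)
  rcases hε with rfl | rfl
  · linarith [h.1]
  · linarith [h.2]

end H17V
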