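import Pool.Agent.Lib.H17V.A2
import Pool.Agent.Lib.H17V.C1
import Pool.Agent.Lib.H17T.G3

set_option autoImplicit false

/-!
# H17V, chunk A3 (M): transfer of the enclosing graph; the core theorem for radii `> R₀`

`sh_ends`: `Da (shk R₀ k) (shr R₀ r) (qq (shf R₀ f) y) = Da k r (qq f (sg R₀ y))` (`Da_shift`, `qq_sg`), `NN_shift`, `‖sg R₀ y‖ = ‖y‖ + R₀ ≥ ‖y‖`; choose the radii `max R 1` (so `y ≠ 0`).
`lim`: `mass (shF ..) (qq (shf R₀ f) (s • n)) = mass F k r (qq f ((s + R₀) • n))` for `s > 0` (`sh_mass`, `qq_sg`, `sg_ray`).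
`env_shift`: put `s x = s' x + R₀`. `gtan s n i = (D n) n + (s' n + R₀) rotv i n`, `gtan s' n i = (D n) n + s' n rotv i n`, `D = fderiv s' n (rotv i n)`
(product rule; `H17T.g3_orth`: `inner n (rotv i n) = 0`), so by `sg_deriv` (`a = D`, `ρ = s' n`, `b = 1`) `fderiv (sg R₀) (s' n • n) (gtan s' n i) = gtan s n i`, and by the chain rule and `NN_shift`
(equality near `s' n • n ≠ 0`) `fderiv (H17T.NN ε ..) (s' n • n) (gtan s' n i) = fderiv (NN R₀ ε k f) (s n • n) (gtan s n i)` (`NN R₀ ε k f` is differentiable there: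
`NN_smooth` of H17V/C1.lean).
`env_bothR`: apply `H17T.env_both` to the translated data, `p' = sgi R₀ p`, `Om' = {y | y ≠ 0 ∧ sg R₀ y ∈ Om}`, `ρ0' = ρ0 - R₀`; `fderiv (shr R₀ r) (qq (shf R₀ f) p') (-ε, 1/shk R₀ k ‖p'‖) =
fderiv r (qq f p) (-ε, 1/k ‖p‖)` by `shift_fderiv`.
-/

open MeasureTheory Filter Topology Set
open scoped ContDiff

namespace H17V

open H17T
open Pool.Agent.Lib.PenroseSph (E3 Tens S2 sm pd )

theorem a3_ne {n : S2} : (n : E3) ≠ 0 := by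
  intro h
  have := norm_eq_of_mem_sphere n
  rw [h, norm_zero] at this
  exact zero_ne_one this

theorem a3_gtan {s : E3 → ℝ} (c : ℝ) {n : E3} (hs : DifferentiableAt ℝ s n) (i : Fin 3) :
    gtan (fun x => s x + c) n i = fderiv ℝ s n (rotv i n) • n + (s n + c) • rotv i n := by
  have h1 : HasFDerivAt (fun x => (s x + c) • x)
      ((s n + c) • ContinuousLinearMap.id ℝ E3 + (fderiv ℝ s n).smulRight n) n :=
    (hs.hasFDerivAt.add_const c).smul (hasFDerivAt_id n)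
  unfold gtan
  rw [h1.fderiv]
  simp only [_root_.add_apply, _root_.smul_apply, ContinuousLinearMap.smulRight_apply,
    ContinuousLinearMap.id_apply]
  rw [add_comm]

theorem a3_chain {R₀ : ℝ} {F : E4 → ℝ} {k : ℝ → ℝ} {r : ℝ × ℝ → ℝ} {f : E3 → ℝ} (hR : Red R₀ F k r f) (ε : ℝ)
    {s : E3 → ℝ} (hs : RadialGraph s) (n : S2) (i : Fin 3) :
    fderiv ℝ (NN R₀ ε k f) ((s n + R₀) • (n : E3)) (gtan (fun x => s x + R₀) n i) =
      fderiv ℝ (H17T.NN ε (shk R₀ k) (shf R₀ f)) (s n • (n : E3)) (gtan s n i) := by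
  have h0 := hR.nonneg
  have hn0 : (n : E3) ≠ 0 := a3_ne
  have hpos : 0 < s n := hs.pos _ hn0
  have hy0 : s n • (n : E3) ≠ 0 := smul_ne_zero hpos.ne' hn0
  have hsd : DifferentiableAt ℝ s n := (hs.smooth _ hn0).differentiableAt (by simp)
  have e0 : gtan s n i = fderiv ℝ s n (rotv i n) • (n : E3) + (s n * 1) • rotv i n := by
    have h := a3_gtan 0 hsd i
    simp only [add_zero] at h
    rw [mul_one]
    exact h
  have e1 : gtan (fun x => s x + R₀) n i = fderiv ℝ s n (rotv i n) • (n : E3) + ((s n + R₀) * 1) • rotv i n := by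
    rw [mul_one]
    exact a3_gtan R₀ hsd i
  have hev : H17T.NN ε (shk R₀ k) (shf R₀ f) =ᶠ[𝓝 (s n • (n : E3))] (NN R₀ ε k f) ∘ (sg R₀) := by
    filter_upwards [isOpen_ne.mem_nhds hy0] with y hy
    exact NN_shift h0 ε k f hy
  have hsg := sg_ray R₀ n hpos
  have hd1 : DifferentiableAt ℝ (NN R₀ ε k f) (sg R₀ (s n • (n : E3))) := by
    refine (NN_smooth h0 hR.k_smooth hR.f_smooth (sg_norm h0 hy0).2).differentiableAt (by simp)
  have hd2 : DifferentiableAt ℝ (sg R₀) (s n • (n : E3)) := (sg_smooth R₀ hy0).differentiableAt (by simp)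
  rw [hev.fderiv_eq, fderiv_comp _ hd1 hd2, ContinuousLinearMap.comp_apply, e0,
    sg_deriv R₀ n hpos (g3_orth i n), hsg, e1]

theorem sh_ends {R₀ : ℝ} {F : E4 → ℝ} {k : ℝ → ℝ} {r : ℝ × ℝ → ℝ} {f : E3 → ℝ} {E : ℝ} (h0 : 0 ≤ R₀)
    (hE : Ends R₀ F k r f E) : H17T.Ends (shF R₀ F) (shk R₀ k) (shr R₀ r) (shf R₀ f) E := by
  have hne : ∀ {R : ℝ} {y : E3}, max R 1 ≤ ‖y‖ → y ≠ 0 ∧ R ≤ ‖sg R₀ y‖ := by
    intro R y hy
    have hy1 : 1 ≤ ‖y‖ := (le_max_right _ _).trans hy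
    have hy0 : y ≠ 0 := by
      rintro rfl
      rw [norm_zero] at hy1
      linarith
    refine ⟨hy0, ?_⟩
    rw [(sg_norm h0 hy0).1]
    linarith [(le_max_left R 1).trans hy]
  constructor
  · obtain ⟨R, hR⟩ := hE.pos
    refine ⟨max R 1, fun y hy => ?_⟩
    obtain ⟨hy0, hyR⟩ := hne hy
    have h := hR (sg R₀ y) hyR
    rw [qq_sg h0 f hy0] at h
    have e := Da_shift R₀ k r (qq (shf R₀ f) y)
    rw [← e.1, ← e.2] at h
    exact h
  · intro M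
    obtain ⟨R, hR⟩ := hE.grow M
    refine ⟨max R 1, fun y hy => ?_⟩
    obtain ⟨hy0, hyR⟩ := hne hy
    rw [NN_shift h0 1 k f hy0, NN_shift h0 (-1) k f hy0]
    exact hR (sg R₀ y) hyR
  · intro n
    have h := (hE.lim n).comp (tendsto_atTop_add_const_right atTop R₀ tendsto_id)
    refine h.congr' ?_
    filter_upwards [eventually_gt_atTop (0 : ℝ)] with s hs
    have hy0 : s • (n : E3) ≠ 0 := smul_ne_zero hs.ne' a3_ne
    have h2 : 0 < (qq (shf R₀ f) (s • (n : E3))).2 := norm_pos_iff.2 hy0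
    rw [sh_mass F k r h2, ← qq_sg h0 f hy0, sg_ray R₀ n hs]
    rfl

theorem env_shift {R₀ : ℝ} {F : E4 → ℝ} {k : ℝ → ℝ} {r : ℝ × ℝ → ℝ} {f : E3 → ℝ} (hR : Red R₀ F k r f) {Om : Set E3}
    {E δ : ℝ} (h : H17T.Env (shk R₀ k) (shr R₀ r) (shf R₀ f) {y | y ≠ 0 ∧ sg R₀ y ∈ Om} E δ) :
    Env R₀ k r f Om E δ := by
  have h0 := hR.nonneg
  obtain ⟨s, hs, hΩ, hn⟩ := h
  refine ⟨fun x => s x + R₀, ⟨?_, ?_, ?_⟩, ?_, ?_, ?_⟩
  · exact fun x hx => (hs.smooth x hx).add contDiffAt_const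
  · intro x hx
    have := hs.pos x hx
    linarith
  · intro x c hc
    show s (c • x) + R₀ = s x + R₀
    rw [hs.homog x c hc]
  · intro x hx hxR
    obtain ⟨h1, h2, h3⟩ := sgi_norm h0 hxR
    have hlt := hΩ (sgi R₀ x) ⟨h1, by rw [h3]; exact hx⟩ h1
    have hx0 : 0 < ‖x‖ := lt_of_le_of_lt h0 hxR
    have h4 : s (sgi R₀ x) = s x := hs.homog x _ (div_pos (by linarith) hx0)
    rw [h2, h4] at hlt
    show ‖x‖ < s x + R₀
    linarith
  · intro x hx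
    have := hs.pos x hx
    show R₀ < s x + R₀
    linarith
  · intro n
    have hn0 : (n : E3) ≠ 0 := a3_ne
    have hpos : 0 < s n := hs.pos _ hn0
    have hy0 : s n • (n : E3) ≠ 0 := smul_ne_zero hpos.ne' hn0
    obtain ⟨h1, l, m, hl, hm, hlm, h2⟩ := hn n
    refine ⟨?_, l, m, hl, hm, hlm, ?_⟩
    · show r (qq f ((s n + R₀) • (n : E3))) ≤ 2 * E + δ
      rw [← sg_ray R₀ n hpos, qq_sg h0 f hy0]
      exact h1
    · intro i
      have h3 := h2 i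
      rw [← a3_chain hR 1 hs n i, ← a3_chain hR (-1) hs n i] at h3
      exact h3

theorem env_bothR {R₀ : ℝ} {F : E4 → ℝ} {k : ℝ → ℝ} {r : ℝ × ℝ → ℝ} {f : E3 → ℝ} {E ε : ℝ} (hε : ε = 1 ∨ ε = -1)
    (hR : Red R₀ F k r f) (hE : Ends R₀ F k r f E) {Om : Set E3} {p : E3} (hp : R₀ < ‖p‖)
    (hpb : fderiv ℝ r (qq f p) (-ε, 1 / k ‖p‖) ≤ 0)
    (hOm : ∀ x ∈ Om, R₀ < ‖x‖ → NN R₀ ε k f x ≤ NN R₀ ε k f p) {ρ0 : ℝ} (hρ0 : R₀ < ρ0)
    (hin : ∀ x : E3, R₀ < ‖x‖ → ‖x‖ < ρ0 → NN R₀ ε k f x < NN R₀ ε k f p) :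
    0 < E ∧ ∀ δ : ℝ, 0 < δ → Env R₀ k r f Om E δ := by
  have h0 := hR.nonneg
  obtain ⟨h1, h2, h3⟩ := sgi_norm h0 hp
  have hq : ((qq (shf R₀ f) (sgi R₀ p)).1, (qq (shf R₀ f) (sgi R₀ p)).2 + R₀) = qq f p := by
    rw [← qq_sg h0 f h1, h3]
  have key := H17T.env_both (F := shF R₀ F) (k := shk R₀ k) (r := shr R₀ r) (f := shf R₀ f) (E := E) hε (sh_red hR)
    (sh_ends h0 hE) (Om := {y | y ≠ 0 ∧ sg R₀ y ∈ Om}) (p := sgi R₀ p) h1 ?_ ?_ (ρ0 := ρ0 - R₀) (by linarith) ?_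
  · exact ⟨key.1, fun δ hδ => env_shift hR (key.2 δ hδ)⟩
  · have e := shift_fderiv R₀ r (qq (shf R₀ f) (sgi R₀ p)) (-ε, 1 / shk R₀ k ‖sgi R₀ p‖)
    rw [hq] at e
    have e2 : shk R₀ k ‖sgi R₀ p‖ = k ‖p‖ := by
      show k (‖sgi R₀ p‖ + R₀) = k ‖p‖
      rw [h2, sub_add_cancel]
    rw [e2] at e ⊢
    exact e.le.trans hpb
  · rintro x ⟨-, hx⟩ hx0
    rw [NN_shift h0 ε k f hx0, NN_shift h0 ε k f h1, h3]
    exact hOm _ hx (sg_norm h0 hx0).2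
  · intro x hx0 hx
    rw [NN_shift h0 ε k f hx0, NN_shift h0 ε k f h1, h3]
    have hn := sg_norm h0 hx0
    exact hin _ hn.2 (by rw [hn.1]; linarith)

end H17V
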