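import Pool.Agent.Lib.H17T.T1

set_option autoImplicit false

/-!
# H17V: the touching point (H17T/T1 without bound for `k` at the centre)
-/

open MeasureTheory Filter Topology Set
open scoped ContDiff

namespace H17V

open H17T
open Pool.Agent.Lib.PenroseSph (E3 Tens S2 sm)

theorem exists_max0 {ε : ℝ} (hε : ε = 1 ∨ ε = -1) {k : ℝ → ℝ} {f : E3 → ℝ}
    (hk : ∀ t : ℝ, 0 < t → ContDiffAt ℝ ∞ k t) (hk0 : ∀ t : ℝ, 0 < t → 0 < k t)
    (hf : ∀ x : E3, x ≠ 0 → ContDiffAt ℝ ∞ f x) (hs : ∀ x : E3, x ≠ 0 → |fderiv ℝ f x x| < k ‖x‖ * ‖x‖)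
    {Om : Set E3} (hOo : IsOpen Om) (hOb : Bornology.IsBounded Om)
    (hin : (∃ δ : ℝ, 0 < δ ∧ ∀ x : E3, x ≠ 0 → ‖x‖ < δ → x ∈ Om) ∨
      (Om.Nonempty ∧ ContinuousAt f 0)) :
    ∃ (p : E3) (ρ0 : ℝ), p ≠ 0 ∧ p ∈ frontier Om ∧ 0 < ρ0 ∧
      (∀ x ∈ Om, x ≠ 0 → H17T.NN ε k f x ≤ H17T.NN ε k f p) ∧ ∀ x : E3, x ≠ 0 → ‖x‖ < ρ0 → H17T.NN ε k f x < H17T.NN ε k f p := by
  have hmono := fun {z : E3} (hz : z ≠ 0) {c : ℝ} (hc : 1 < c) => NN_mono hε hk hf hs hz hc
  rcases hin with ⟨δ, hδ, hin⟩ | ⟨hne, hf0⟩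
  · have key : ∀ x : E3, x ≠ 0 → ‖x‖ < δ / 2 → ∃ y ∈ Om, δ / 2 ≤ ‖y‖ ∧ H17T.NN ε k f x < H17T.NN ε k f y := by
      intro x hx h
      have hx0 : 0 < ‖x‖ := norm_pos_iff.2 hx
      have hn : ‖(δ / 2 / ‖x‖) • x‖ = δ / 2 := by
        rw [norm_smul, Real.norm_of_nonneg (by positivity), div_mul_cancel₀ _ hx0.ne']
      refine ⟨(δ / 2 / ‖x‖) • x, hin _ ?_ ?_, hn.ge, hmono hx ((one_lt_div hx0).2 h)⟩
      · rw [← norm_pos_iff, hn]
        positivity
      · rw [hn]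
        linarith
    refine t1_aux hε hk hf hs hOo hOb (half_pos hδ) ?_ key
    have hn : ‖(δ / 2) • (EuclideanSpace.single 0 1 : E3)‖ = δ / 2 := by
      rw [norm_smul, Real.norm_of_nonneg (by positivity)]
      simp
    refine ⟨(δ / 2) • (EuclideanSpace.single 0 1 : E3), hin _ ?_ ?_, hn.ge⟩
    · rw [← norm_pos_iff, hn]
      positivity
    · rw [hn]
      linarith
  · -- a nonzero point of `Om`
    obtain ⟨x1, hx1, hx10⟩ : ∃ x1 ∈ Om, x1 ≠ 0 := by
      obtain ⟨y, hy⟩ := hne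
      by_cases h : y = 0
      · have hc : Continuous fun t : ℝ => t • (EuclideanSpace.single 0 1 : E3) := by fun_prop
        have h0 : (fun t : ℝ => t • (EuclideanSpace.single 0 1 : E3)) 0 ∈ Om := by
          show (0 : ℝ) • (EuclideanSpace.single 0 1 : E3) ∈ Om
          rw [zero_smul, ← h]
          exact hy
        have hev : ∀ᶠ t in 𝓝[>] (0 : ℝ), t • (EuclideanSpace.single 0 1 : E3) ∈ Om :=
          (hc.continuousAt.eventually (hOo.mem_nhds h0)).filter_mono nhdsWithin_le_nhds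
        obtain ⟨t, ht, ht0⟩ := (hev.and self_mem_nhdsWithin).exists
        have ht0' : 0 < t := ht0
        refine ⟨_, ht, smul_ne_zero ht0'.ne' ?_⟩
        intro h2
        have h3 := congrArg norm h2
        simp at h3
      · exact ⟨y, hy, h⟩
    have hx1n : 0 < ‖x1‖ := norm_pos_iff.2 hx10
    have hhalf : H17T.NN ε k f ((1 / 2 : ℝ) • x1) < H17T.NN ε k f x1 := by
      have h := hmono (smul_ne_zero (by norm_num : (1 / 2 : ℝ) ≠ 0) hx10) (by norm_num : (1 : ℝ) < 2)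
      rw [smul_smul] at h
      norm_num at h
      exact h
    set η : ℝ := H17T.NN ε k f x1 - H17T.NN ε k f ((1 / 2 : ℝ) • x1) with hη
    have hη0 : 0 < η := sub_pos.2 hhalf
    obtain ⟨ρ, hρ, hρ'⟩ := Metric.continuousAt_iff.1 hf0 (η / 2) (half_pos hη0)
    have hρ0 : 0 < min ρ (‖x1‖ / 2) := lt_min hρ (half_pos hx1n)
    refine t1_aux hε hk hf hs hOo hOb hρ0 ⟨x1, hx1, ?_⟩ ?_
    · exact (min_le_right _ _).trans (by linarith)
    · intro x hx h
      refine ⟨x1, hx1, (min_le_right _ _).trans (by linarith), ?_⟩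
      have hx0 : 0 < ‖x‖ := norm_pos_iff.2 hx
      have h1 : ‖x‖ < ρ := lt_of_lt_of_le h (min_le_left _ _)
      have h2 : ‖x‖ < ‖x1‖ / 2 := lt_of_lt_of_le h (min_le_right _ _)
      set z : E3 := (‖x‖ / ‖x1‖) • x1 with hz
      have hzn : ‖z‖ = ‖x‖ := by
        rw [hz, norm_smul, Real.norm_of_nonneg (by positivity), div_mul_cancel₀ _ hx1n.ne']
      have hz0 : z ≠ 0 := by
        rw [← norm_pos_iff, hzn]
        exact hx0
      have h3 : H17T.NN ε k f z < H17T.NN ε k f ((1 / 2 : ℝ) • x1) := by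
        have hc : 1 < ‖x1‖ / 2 / ‖x‖ := (one_lt_div hx0).2 h2
        have h4 := hmono hz0 hc
        have e : (‖x1‖ / 2 / ‖x‖) • z = (1 / 2 : ℝ) • x1 := by
          rw [hz, smul_smul]
          congr 1
          field_simp
        rw [e] at h4
        exact h4
      have h4 : |f x - f 0| < η / 2 := by
        have h5 := hρ' (x := x) (by rw [dist_zero_right]; exact h1)
        rwa [Real.dist_eq] at h5
      have h5 : |f z - f 0| < η / 2 := by
        have h6 := hρ' (x := z) (by rw [dist_zero_right, hzn]; exact h1)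
        rwa [Real.dist_eq] at h6
      have h6 : H17T.NN ε k f x - H17T.NN ε k f z = ε * (f x - f z) := by
        unfold NN
        rw [hzn]
        ring
      have h7 : ε * (f x - f z) < η := by
        rw [abs_lt] at h4 h5
        rcases hε with rfl | rfl
        · linarith [h4.1, h4.2, h5.1, h5.2]
        · linarith [h4.1, h4.2, h5.1, h5.2]
      linarith

end H17V
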