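import Pool.Agent.Lib.H17V.A3
import Pool.Agent.Lib.H17V.T1

set_option autoImplicit false

/-!
# H17V, chunk A4 (M): the touching point

If `R₀ = 0` and the second alternative holds: `exists_max0` (H17V/T1.lean, `H17T.exists_max` without bound for `k`) for `k`, `f`, `Om` itself (`NN 0 ε k f = H17T.NN ε k f` since `0 + 1 = 1`). Otherwise apply `exists_max0` to
`shk R₀ k`, `shf R₀ f` and `Om' = {y | y ≠ 0 ∧ sg R₀ y ∈ Om}` (first alternative, with the `δ` of the collar; `Om'` is open: `sg R₀` is continuous off the origin; bounded: `‖y‖ ≤ ‖sg R₀ y‖`),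
hypotheses by `sh_red` (`k_smooth`, `k_pos`, `f_smooth`, `slope`). With the point `p'` put `p = sg R₀ p'`. `p ∈ frontier Om`: `p' ∉ Om'` (`Om'` open) so `p ∉ Om`, and every neighbourhood of
`p` meets `Om` since `sg R₀` is continuous at `p' ∈ closure Om'`. Use `NN_shift` and `sgi`.
-/

open MeasureTheory Filter Topology Set
open scoped ContDiff

namespace H17V

open H17T
open Pool.Agent.Lib.PenroseSph (E3 Tens S2 sm pd )

theorem a4_NN0 (ε : ℝ) (k : ℝ → ℝ) (f : E3 → ℝ) : NN 0 ε k f = H17T.NN ε k f := by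
  funext x
  unfold NN H17T.NN XX H17T.XX
  rw [zero_add]

theorem exists_maxR {R₀ ε : ℝ} (hε : ε = 1 ∨ ε = -1) {F : E4 → ℝ} {k : ℝ → ℝ} {r : ℝ × ℝ → ℝ} {f : E3 → ℝ}
    (hR : Red R₀ F k r f) {Om : Set E3} (hOo : IsOpen Om) (hOb : Bornology.IsBounded Om)
    (hin : (∃ δ : ℝ, 0 < δ ∧ ∀ x : E3, R₀ < ‖x‖ → ‖x‖ < R₀ + δ → x ∈ Om) ∨
      (R₀ = 0 ∧ Om.Nonempty ∧ ContinuousAt f 0)) :
    ∃ (p : E3) (ρ0 : ℝ), R₀ < ‖p‖ ∧ p ∈ frontier Om ∧ R₀ < ρ0 ∧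
      (∀ x ∈ Om, R₀ < ‖x‖ → NN R₀ ε k f x ≤ NN R₀ ε k f p) ∧
      ∀ x : E3, R₀ < ‖x‖ → ‖x‖ < ρ0 → NN R₀ ε k f x < NN R₀ ε k f p := by
  rcases hin with ⟨δ, hδ, hcol⟩ | ⟨h0, hne, hf0⟩
  · have h0 := hR.nonneg
    have hS := sh_red hR
    set Om' : Set E3 := {y | y ≠ 0 ∧ sg R₀ y ∈ Om} with hOm'
    have hopen : IsOpen Om' := by
      rw [isOpen_iff_mem_nhds]
      rintro y ⟨hy, hyO⟩
      filter_upwards [isOpen_ne.mem_nhds hy, (sg_smooth R₀ hy).continuousAt.preimage_mem_nhds (hOo.mem_nhds hyO)] with z hz hz'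
      exact ⟨hz, hz'⟩
    have hbdd : Bornology.IsBounded Om' := by
      obtain ⟨M, hM⟩ := hOb.exists_norm_le
      refine (isBounded_iff_forall_norm_le (s := Om')).2 ⟨M, fun y hy => ?_⟩
      have h1 := (sg_norm h0 hy.1).1
      have h2 := hM _ hy.2
      linarith
    obtain ⟨p, ρ0, hp, hpf, hρ0, h1, h2⟩ := exists_max0 hε hS.k_smooth hS.k_pos hS.f_smooth hS.slope hopen hbdd
      (Or.inl ⟨δ, hδ, fun y hy hyδ => ⟨hy, hcol _ (sg_norm h0 hy).2 (by rw [(sg_norm h0 hy).1]; linarith)⟩⟩)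
    refine ⟨sg R₀ p, R₀ + ρ0, (sg_norm h0 hp).2, ⟨?_, ?_⟩, by linarith, fun x hx hxR => ?_, fun x hxR hxρ => ?_⟩
    · exact (sg_smooth R₀ hp).continuousAt.continuousWithinAt.mem_closure hpf.1 fun y hy => hy.2
    · rw [hOo.interior_eq]
      intro hpO
      have h3 := hpf.2
      rw [hopen.interior_eq] at h3
      exact h3 ⟨hp, hpO⟩
    · obtain ⟨a1, a2, a3⟩ := sgi_norm h0 hxR
      have h3 := h1 (sgi R₀ x) ⟨a1, by rw [a3]; exact hx⟩ a1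
      rw [NN_shift h0 ε k f a1, NN_shift h0 ε k f hp, a3] at h3
      exact h3
    · obtain ⟨a1, a2, a3⟩ := sgi_norm h0 hxR
      have h3 := h2 (sgi R₀ x) a1 (by rw [a2]; linarith)
      rw [NN_shift h0 ε k f a1, NN_shift h0 ε k f hp, a3] at h3
      exact h3
  · subst h0
    rw [a4_NN0]
    obtain ⟨p, ρ0, hp, hpf, hρ0, h1, h2⟩ := exists_max0 hε hR.k_smooth hR.k_pos
      (fun x hx => hR.f_smooth x (norm_pos_iff.2 hx)) (fun x hx => hR.slope x (norm_pos_iff.2 hx)) hOo hOb (Or.inr ⟨hne, hf0⟩)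
    exact ⟨p, ρ0, norm_pos_iff.2 hp, hpf, hρ0, fun x hx hxR => h1 x hx (norm_pos_iff.1 hxR),
      fun x hxR hxρ => h2 x (norm_pos_iff.1 hxR) hxρ⟩

end H17V
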