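import Pool.Agent.Lib.H17V.D0
import Pool.Agent.Lib.H17T.F1
import Pool.Agent.Lib.H17V.F1

set_option autoImplicit false

/-!
# H17V, chunk D1 (M): curves of small slope between two points of the slice, inside the strip covered by the slice

Let `n = ‖x‖⁻¹ • x`, `m = ‖y‖⁻¹ • y`, `a = ‖x‖`, `b = ‖y‖`, `λ s = (s - a)/(b - a)`,
`τ s = (1 - λ s) * f (s • n) + λ s * f (s • m)`. Then `τ a = f x`, `τ b = f y`; `τ s` lies between `f (s • n)` and `f (s • m)` for `s ∈ [a, b]`, so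
`(τ s, s) ∈ QQ R₀ f` by `sphere_times`. `τ' s = (1 - λ) ∂ + λ ∂' + (f (s • m) - f (s • n))/(b - a)` with `∂ = fderiv ℝ f (s • n) n` etc. As in `H17T.f1_small`
(H17T/F1.lean): `|∂| ≤ 3 C/s ≤ 1/4` if `s ≥ 12 C`; the last term is at most `3 C π/(b - a) ≤ 1/4` if `b - a ≥ L := 12 C π + 1`.
Take `R1 = max R (12 C)`.
-/

open MeasureTheory Filter Topology Set
open scoped ContDiff

namespace H17V

open H17T
open Pool.Agent.Lib.PenroseSph (E3 Tens S2 sm pd )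

theorem d1_ray {R₀ : ℝ} {F : E4 → ℝ} {k : ℝ → ℝ} {r : ℝ × ℝ → ℝ} {f : E3 → ℝ} (hS : Slice R₀ F k r f) {s : ℝ}
    (hs : R₀ < s) (n : S2) : HasDerivAt (fun s : ℝ => f (s • (n : E3))) (fderiv ℝ f (s • (n : E3)) n) s := by
  have hs0 : 0 < s := lt_of_le_of_lt hS.nonneg hs
  have h1 : HasDerivAt (fun s : ℝ => s • (n : E3)) (n : E3) s := by
    have h := (hasDerivAt_id s).smul_const (n : E3)
    simpa using h
  have h2 : HasFDerivAt f (fderiv ℝ f (s • (n : E3))) (s • (n : E3)) :=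
    ((hS.f_smooth _ (by rw [f1_norm n hs0]; exact hs)).differentiableAt (by simp)).hasFDerivAt
  exact h2.comp_hasDerivAt s h1

theorem path {R₀ : ℝ} {F : E4 → ℝ} {k : ℝ → ℝ} {r : ℝ × ℝ → ℝ} {f : E3 → ℝ} (hS : Slice R₀ F k r f) {C R : ℝ}
    (hB : BD R₀ F k r f C R) :
    ∃ L R1 : ℝ, 0 < L ∧ R ≤ R1 ∧ ∀ x y : E3, R1 ≤ ‖x‖ → ‖x‖ + L ≤ ‖y‖ →
      ∃ τ τ' : ℝ → ℝ, τ ‖x‖ = f x ∧ τ ‖y‖ = f y ∧ ∀ s ∈ Icc ‖x‖ ‖y‖,
        HasDerivAt τ (τ' s) s ∧ |τ' s| ≤ 1 / 2 ∧ (τ s, s) ∈ QQ R₀ f := by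
  have hC := hB.C_nonneg
  have hCpi : 0 ≤ C * Real.pi := mul_nonneg hC Real.pi_pos.le
  refine ⟨12 * C * Real.pi + 1, max R (12 * C), by linarith [mul_assoc 12 C Real.pi], le_max_left _ _, ?_⟩
  intro x y hx hxy
  have hxR : R ≤ ‖x‖ := (le_max_left _ _).trans hx
  have hxC : 12 * C ≤ ‖x‖ := (le_max_right _ _).trans hx
  have hx0 : 0 < ‖x‖ := by linarith [hB.R_pos]
  have hL : 12 * C * Real.pi + 1 ≤ ‖y‖ - ‖x‖ := by linarith
  have hba : 0 < ‖y‖ - ‖x‖ := by linarith [mul_assoc 12 C Real.pi]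
  have hy0 : 0 < ‖y‖ := by linarith
  have hun : ∀ z : E3, 0 < ‖z‖ → ‖(‖z‖⁻¹ • z : E3)‖ = 1 := by
    intro z hz
    rw [norm_smul, norm_inv, norm_norm, inv_mul_cancel₀ hz.ne']
  set n : S2 := ⟨‖x‖⁻¹ • x, by rw [mem_sphere_zero_iff_norm]; exact hun x hx0⟩ with hn
  set m : S2 := ⟨‖y‖⁻¹ • y, by rw [mem_sphere_zero_iff_norm]; exact hun y hy0⟩ with hm
  have hnx : ‖x‖ • (n : E3) = x := by
    rw [hn]
    show ‖x‖ • ‖x‖⁻¹ • x = x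
    rw [smul_smul, mul_inv_cancel₀ hx0.ne', one_smul]
  have hmy : ‖y‖ • (m : E3) = y := by
    rw [hm]
    show ‖y‖ • ‖y‖⁻¹ • y = y
    rw [smul_smul, mul_inv_cancel₀ hy0.ne', one_smul]
  refine ⟨fun s => (1 - (s - ‖x‖) / (‖y‖ - ‖x‖)) * f (s • (n : E3)) + (s - ‖x‖) / (‖y‖ - ‖x‖) * f (s • (m : E3)),
    fun s => (1 - (s - ‖x‖) / (‖y‖ - ‖x‖)) * fderiv ℝ f (s • (n : E3)) n
      + (s - ‖x‖) / (‖y‖ - ‖x‖) * fderiv ℝ f (s • (m : E3)) m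
      + (f (s • (m : E3)) - f (s • (n : E3))) / (‖y‖ - ‖x‖), ?_, ?_, ?_⟩
  · show (1 - (‖x‖ - ‖x‖) / (‖y‖ - ‖x‖)) * f (‖x‖ • (n : E3)) + (‖x‖ - ‖x‖) / (‖y‖ - ‖x‖) * f (‖x‖ • (m : E3)) = f x
    rw [hnx, sub_self, zero_div]
    ring
  · show (1 - (‖y‖ - ‖x‖) / (‖y‖ - ‖x‖)) * f (‖y‖ • (n : E3)) + (‖y‖ - ‖x‖) / (‖y‖ - ‖x‖) * f (‖y‖ • (m : E3)) = f y
    rw [hmy, div_self hba.ne']
    ring
  · intro s hs
    obtain ⟨hs1, hs2⟩ := hs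
    have hsR : R ≤ s := hxR.trans hs1
    have hsC : 12 * C ≤ s := hxC.trans hs1
    have hs0 : 0 < s := by linarith
    have hsR0 : R₀ < s := hB.R_gt.trans_le hsR
    have hl0 : 0 ≤ (s - ‖x‖) / (‖y‖ - ‖x‖) := div_nonneg (by linarith) hba.le
    have hl1 : (s - ‖x‖) / (‖y‖ - ‖x‖) ≤ 1 := by
      rw [div_le_one hba]
      linarith
    have hnn := f1_norm n hs0
    have hnm := f1_norm m hs0
    obtain ⟨t1, t2⟩ := sphere_times hS hB (x := s • (n : E3)) (y := s • (m : E3)) (by rw [hnn]; exact hsR)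
      (by rw [hnn, hnm])
    refine ⟨?_, ?_, ?_⟩
    · have dl : HasDerivAt (fun s : ℝ => (s - ‖x‖) / (‖y‖ - ‖x‖)) (1 / (‖y‖ - ‖x‖)) s := by
        have h := ((hasDerivAt_id s).sub_const ‖x‖).div_const (‖y‖ - ‖x‖)
        simpa using h
      have d1 := (((hasDerivAt_const s (1 : ℝ)).sub dl).mul (d1_ray hS hsR0 n)).add (dl.mul (d1_ray hS hsR0 m))
      refine HasDerivAt.congr_deriv d1 ?_
      simp only [Pi.sub_apply]
      ring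
    · have g1 := abs_le.mp (f1_small hB n hsR hsC)
      have g2 := abs_le.mp (f1_small hB m hsR hsC)
      have g3 : |(f (s • (m : E3)) - f (s • (n : E3))) / (‖y‖ - ‖x‖)| ≤ 1 / 4 := by
        rw [abs_div, abs_of_pos hba, div_le_iff₀ hba]
        linarith [mul_assoc 12 C Real.pi, mul_assoc 3 C Real.pi]
      have g4 := abs_le.mp g3
      obtain ⟨l, hl⟩ : ∃ l, l = (s - ‖x‖) / (‖y‖ - ‖x‖) := ⟨_, rfl⟩
      beta_reduce
      rw [← hl] at hl0 hl1 ⊢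
      rw [abs_le]
      constructor <;> nlinarith [g1.1, g1.2, g2.1, g2.2, g4.1, g4.2]
    · have hseg : (1 - (s - ‖x‖) / (‖y‖ - ‖x‖)) * f (s • (n : E3)) + (s - ‖x‖) / (‖y‖ - ‖x‖) * f (s • (m : E3))
          ∈ uIcc (f (s • (n : E3))) (f (s • (m : E3))) := by
        rw [← segment_eq_uIcc]
        exact ⟨_, _, by linarith, hl0, by ring, rfl⟩
      have h := t2 _ hseg
      rw [hnn] at h
      exact h

end H17V
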