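import Pool.Agent.Lib.H17V.T0
import Pool.Agent.Lib.H17T.M2

set_option autoImplicit false

/-!
# H17V, chunk D2A (M): derivatives of the mass and of `r r_T`

`m2` = H17T/M2.lean, whose (private) lemmas `mF_pos`, `mass_has` and the proofs of `mass_a`, `mass_b` contain exactly the first three formulas and the
inequalities `Na ≥ 0`, `Nb ≥ 0` (copy them; `Red` is used at the point `q` only; `0 < q.2` by `QQ_lt` and `hR.nonneg`). Write `r_a = Da k r q`, `Φ = mF F q`, `Φ_a = Da k (mF F) q`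
(that is `fderiv ℝ (mF F) q (1/2, 1/(2 k))`), `r_ab = Da k (Db k r) q = Db k (Da k r) q` (`D_comm`).
For `w = ww r = r r_T`, `r_T = fderiv ℝ r q (1, 0) = r_a - r_b` (as functions near `q`: `(1, 0) = (1/2, c) - (-(1/2), c)`), so
`D_a w = r_a (r_a - r_b) + r (r_aa - r_ab)`, `D_b w = r_b (r_a - r_b) + r (r_ab - r_bb)`. Insert `Φ r_aa = -Na - r_a Φ_a` and `4 Φ r r_ab = 1 - e3 - 4 Φ r_a r_b`.
-/

open MeasureTheory Filter Topology Set
open scoped ContDiff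

namespace H17V

open H17T
open Pool.Agent.Lib.PenroseSph (E3 Tens S2 sm pd )

/-- `r r_T`. -/
noncomputable def ww (r : ℝ × ℝ → ℝ) (q : ℝ × ℝ) : ℝ := r q * fderiv ℝ r q (1, 0)

/-- The mixed energy density. -/
noncomputable def e3 (F : E4 → ℝ) (k : ℝ → ℝ) (r : ℝ × ℝ → ℝ) (q : ℝ × ℝ) : ℝ :=
  1 - 4 * mF F q * (r q * Da k (Db k r) q + Da k r q * Db k r q)

/-- The energy density in the direction `a`. -/
noncomputable def Na (F : E4 → ℝ) (k : ℝ → ℝ) (r : ℝ × ℝ → ℝ) (q : ℝ × ℝ) : ℝ :=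
  -(Da k (Da k r) q * mF F q + Da k r q * Da k (mF F) q)

/-- The energy density in the direction `b`. -/
noncomputable def Nb (F : E4 → ℝ) (k : ℝ → ℝ) (r : ℝ × ℝ → ℝ) (q : ℝ × ℝ) : ℝ :=
  -(Db k (Db k r) q * mF F q + Db k r q * Db k (mF F) q)

private theorem d2a_pos {F : E4 → ℝ} {q : ℝ × ℝ} (hF : ∀ n : S2, ContDiffAt ℝ ∞ F (ev q n))
    (hF0 : ∀ n : S2, 0 < F (ev q n)) (X A : ℝ) (v : ℝ × ℝ)
    (h : ∀ n : S2, X * F (ev q n) ≤ fderiv ℝ (fun q => F (ev q n)) q v * A) :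
    X * mF F q + A * fderiv ℝ (mF F) q v ≤ 0 := by
  obtain ⟨h1, h2⟩ := mF_cont hF hF0 v
  have i1 := Pool.Agent.Lib.PenroseSph.integrable_S2 h1
  have i2 := Pool.Agent.Lib.PenroseSph.integrable_S2 h2
  rw [(mF_deriv hF hF0).2 v, mF]
  have e : X * ((4 * Real.pi)⁻¹ * ∫ n : S2, (F (ev q n))⁻¹ ∂sm)
      + A * -((4 * Real.pi)⁻¹ * ∫ n : S2, fderiv ℝ (fun q => F (ev q n)) q v / F (ev q n) ^ 2 ∂sm)
      = (4 * Real.pi)⁻¹ * ∫ n : S2, (X * (F (ev q n))⁻¹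
          - A * (fderiv ℝ (fun q => F (ev q n)) q v / F (ev q n) ^ 2)) ∂sm := by
    rw [integral_sub (i2.const_mul X) (i1.const_mul A), integral_const_mul, integral_const_mul]
    ring
  rw [e]
  have h3 : ∫ n : S2, (X * (F (ev q n))⁻¹
          - A * (fderiv ℝ (fun q => F (ev q n)) q v / F (ev q n) ^ 2)) ∂sm ≤ 0 := by
    refine integral_nonpos fun n => ?_
    have hn := h n
    have hp := hF0 n
    have e2 : X * (F (ev q n))⁻¹ - A * (fderiv ℝ (fun q => F (ev q n)) q v / F (ev q n) ^ 2)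
        = (X * F (ev q n) - fderiv ℝ (fun q => F (ev q n)) q v * A) / F (ev q n) ^ 2 := by
      field_simp
    show X * (F (ev q n))⁻¹ - A * (fderiv ℝ (fun q => F (ev q n)) q v / F (ev q n) ^ 2) ≤ 0
    rw [e2]
    exact div_nonpos_of_nonpos_of_nonneg (by linarith) (by positivity)
  exact mul_nonpos_of_nonneg_of_nonpos (by positivity) h3

private theorem d2a_has {R₀ : ℝ} {F : E4 → ℝ} {k : ℝ → ℝ} {r : ℝ × ℝ → ℝ} {f : E3 → ℝ} (hR : Red R₀ F k r f)
    {q : ℝ × ℝ} (hq : q ∈ QQ R₀ f) : DifferentiableAt ℝ (mass F k r) q ∧ ∀ v : ℝ × ℝ, fderiv ℝ (mass F k r) q v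
      = fderiv ℝ r q v / 2 * (1 - 4 * Da k r q * Db k r q * mF F q)
        - 2 * r q * (fderiv ℝ (Da k r) q v * Db k r q * mF F q + Da k r q * fderiv ℝ (Db k r) q v * mF F q
          + Da k r q * Db k r q * fderiv ℝ (mF F) q v) := by
  have hq2 := QQ_lt hq
  have hr := (((hR.r_smooth q hq)).differentiableAt (by simp)).hasFDerivAt
  have hA := (((D_smooth (hR.k_smooth _ hq2) (hR.k_pos _ hq2) (hR.r_smooth q hq)).1).differentiableAt
    (by simp)).hasFDerivAt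
  have hB := (((D_smooth (hR.k_smooth _ hq2) (hR.k_pos _ hq2) (hR.r_smooth q hq)).2).differentiableAt
    (by simp)).hasFDerivAt
  have hM := (mF_deriv (hR.F_smooth q hq) (hR.F_pos q hq)).1.hasFDerivAt
  have hABM : HasFDerivAt (fun q => Da k r q * Db k r q * mF F q) _ q := (hA.mul hB).mul hM
  have h4 : HasFDerivAt (fun q => 1 - 4 * (Da k r q * Db k r q * mF F q)) _ q := (hABM.const_mul (4 : ℝ)).const_sub 1
  have h2 : HasFDerivAt (fun q => r q * (1 / 2)) _ q := hr.mul_const (1 / 2 : ℝ)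
  have hm : HasFDerivAt (fun q => r q * (1 / 2) * (1 - 4 * (Da k r q * Db k r q * mF F q))) _ q := h2.mul h4
  have hm' := hm.congr_of_eventuallyEq (f₁ := mass F k r) (Eventually.of_forall fun q' => by
    simp only [mass]
    ring)
  refine ⟨hm'.differentiableAt, fun v => ?_⟩
  rw [hm'.fderiv]
  simp
  ring

theorem mass_formula {R₀ : ℝ} {F : E4 → ℝ} {k : ℝ → ℝ} {r : ℝ × ℝ → ℝ} {f : E3 → ℝ} (hR : Red R₀ F k r f)
    {q : ℝ × ℝ} (hq : q ∈ QQ R₀ f) :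
    DifferentiableAt ℝ (mass F k r) q ∧
    Da k (mass F k r) q = Da k r q / 2 * e3 F k r q + 2 * r q * Db k r q * Na F k r q ∧
    Db k (mass F k r) q = Db k r q / 2 * e3 F k r q + 2 * r q * Da k r q * Nb F k r q ∧
    0 ≤ e3 F k r q ∧ 0 ≤ Na F k r q ∧ 0 ≤ Nb F k r q := by
  have hq2 := QQ_lt hq
  have h1 := d2a_pos (hR.F_smooth q hq) (hR.F_pos q hq) (Da k (Da k r) q) (Da k r q) _ (hR.ra q hq)
  have h1' := d2a_pos (hR.F_smooth q hq) (hR.F_pos q hq) (Db k (Db k r) q) (Db k r q) _ (hR.rb q hq)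
  have h2 := hR.rc q hq
  have hc := D_comm (hR.k_smooth _ hq2) (hR.k_pos _ hq2) (hR.r_smooth q hq)
  obtain ⟨hd, hm⟩ := d2a_has hR hq
  refine ⟨hd, ?_, ?_, ?_, ?_, ?_⟩
  · have h3 := hm (1 / 2, 1 / (2 * k q.2))
    change Da k (mass F k r) q = Da k r q / 2 * _ - 2 * r q * (Da k (Da k r) q * _ * _ + _ * Da k (Db k r) q * _
      + _ * Da k (mF F) q) at h3
    rw [h3]
    unfold e3 Na
    ring
  · have h3 := hm (-(1 / 2), 1 / (2 * k q.2))
    change Db k (mass F k r) q = Db k r q / 2 * _ - 2 * r q * (Db k (Da k r) q * _ * _ + _ * Db k (Db k r) q * _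
      + _ * Db k (mF F) q) at h3
    rw [h3, ← hc]
    unfold e3 Nb
    ring
  · unfold e3
    linarith
  · unfold Na
    change _ + _ * Da k (mF F) q ≤ 0 at h1
    linarith
  · unfold Nb
    change _ + _ * Db k (mF F) q ≤ 0 at h1'
    linarith

private theorem d2a_ww (k : ℝ → ℝ) (r : ℝ × ℝ → ℝ) : ww r = fun q => r q * (Da k r q - Db k r q) := by
  funext q
  unfold ww Da Db
  rw [← map_sub]
  congr 2
  ext
  · simp
    norm_num
  · simp

private theorem d2a_wd {R₀ : ℝ} {F : E4 → ℝ} {k : ℝ → ℝ} {r : ℝ × ℝ → ℝ} {f : E3 → ℝ} (hR : Red R₀ F k r f)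
    {q : ℝ × ℝ} (hq : q ∈ QQ R₀ f) : DifferentiableAt ℝ (ww r) q ∧ ∀ v : ℝ × ℝ, fderiv ℝ (ww r) q v
      = fderiv ℝ r q v * (Da k r q - Db k r q) + r q * (fderiv ℝ (Da k r) q v - fderiv ℝ (Db k r) q v) := by
  have hq2 := QQ_lt hq
  have hr := (((hR.r_smooth q hq)).differentiableAt (by simp)).hasFDerivAt
  have hA := (((D_smooth (hR.k_smooth _ hq2) (hR.k_pos _ hq2) (hR.r_smooth q hq)).1).differentiableAt
    (by simp)).hasFDerivAt
  have hB := (((D_smooth (hR.k_smooth _ hq2) (hR.k_pos _ hq2) (hR.r_smooth q hq)).2).differentiableAt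
    (by simp)).hasFDerivAt
  have hm : HasFDerivAt (fun q => r q * (Da k r q - Db k r q)) _ q := hr.mul (hA.sub hB)
  rw [← d2a_ww k r] at hm
  refine ⟨hm.differentiableAt, fun v => ?_⟩
  rw [hm.fderiv]
  simp
  ring

theorem ww_formula {R₀ : ℝ} {F : E4 → ℝ} {k : ℝ → ℝ} {r : ℝ × ℝ → ℝ} {f : E3 → ℝ} (hR : Red R₀ F k r f)
    {q : ℝ × ℝ} (hq : q ∈ QQ R₀ f) :
    DifferentiableAt ℝ (ww r) q ∧
    mF F q * Da k (ww r) q = mF F q * Da k r q ^ 2 - 1 / 4 - r q * Da k r q * Da k (mF F) q + e3 F k r q / 4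
      - r q * Na F k r q ∧
    mF F q * Db k (ww r) q = 1 / 4 - mF F q * Db k r q ^ 2 + r q * Db k r q * Db k (mF F) q - e3 F k r q / 4
      + r q * Nb F k r q := by
  have hq2 := QQ_lt hq
  have hc := D_comm (hR.k_smooth _ hq2) (hR.k_pos _ hq2) (hR.r_smooth q hq)
  obtain ⟨hd, hm⟩ := d2a_wd hR hq
  refine ⟨hd, ?_, ?_⟩
  · have h3 := hm (1 / 2, 1 / (2 * k q.2))
    change Da k (ww r) q = Da k r q * _ + r q * (Da k (Da k r) q - Da k (Db k r) q) at h3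
    rw [h3]
    unfold e3 Na
    ring
  · have h3 := hm (-(1 / 2), 1 / (2 * k q.2))
    change Db k (ww r) q = Db k r q * _ + r q * (Db k (Da k r) q - Db k (Db k r) q) at h3
    rw [h3, ← hc]
    unfold e3 Nb
    ring

end H17V
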