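import Pool.Agent.Lib.H17V.FB
import Pool.Agent.Lib.H17T.M1
import Pool.Agent.Lib.H17T.F4

set_option autoImplicit false

/-!
# H17V, chunk D2B (M): bounds for `r_a`, `r_b`, `<1/F>` and its derivatives at large radius

`Da k r q = r_T/2 + r_ρ/(2k)`, `Db k r q = -r_T/2 + r_ρ/(2k)` (`H17T.f4_D`), `r_T = O(1/ρ)`, `r_ρ, k = 1 + O(1/ρ)`. `|1/F - 1| ≤ 2 |F - 1|` if `F ≥ 1/2`;
`mF F q - 1` is the mean of
`1/F - 1` (`norm_integral_le_of_norm_le_const`, `Pool.Agent.Lib.PenroseSph.sm_univ`: `sm univ = 4π`; continuity: `H17T.mF_cont`). By `H17T.mF_deriv`,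
`fderiv (mF F) q v = -(4π)⁻¹ ∫ fderiv (fun q => F (ev q n)) q v / F² `, and `fderiv (fun q => F (ev q n)) q (v1, v2) = v1 ∂_0 F + v2 Σ_i n_i ∂_{i+1} F` at `ev q n`
(chain rule; `ev q n = q.1 e_0 + q.2 (0, n)` is linear in `q`; compare `H17T.fb_i`, `H17T.n6_rad`), so it is at most `4 C/ρ² (|v1| + |v2|)`, divided by `F² ≥ 1/4`.
Take `C'` a large multiple of `C + 1` and `R' ≥ R` so large that `C'/R' ≤ 1/8`; the last clauses follow from the first ones.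
-/

open MeasureTheory Filter Topology Set
open scoped ContDiff

namespace H17V

open H17T
open Pool.Agent.Lib.PenroseSph (E3 Tens S2 sm pd )

/-- `ev q n` as a linear map of `q`. -/
noncomputable def d2b_L (n : E3) : ℝ × ℝ →L[ℝ] E4 :=
  (ContinuousLinearMap.fst ℝ ℝ ℝ).smulRight (H31R.ebas (0 : Fin 4)) +
    (ContinuousLinearMap.snd ℝ ℝ ℝ).smulRight
      (n 0 • H31R.ebas (1 : Fin 4) + n 1 • H31R.ebas (2 : Fin 4) + n 2 • H31R.ebas (3 : Fin 4))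

theorem d2b_L_apply (n : E3) (q : ℝ × ℝ) : d2b_L n q = q.1 • H31R.ebas (0 : Fin 4) +
    q.2 • (n 0 • H31R.ebas (1 : Fin 4) + n 1 • H31R.ebas (2 : Fin 4) + n 2 • H31R.ebas (3 : Fin 4)) := rfl

theorem d2b_L_eq (n : E3) (q : ℝ × ℝ) : ev q n = d2b_L n q := by
  rw [d2b_L_apply]
  ext i
  fin_cases i <;> simp [ev, pt, H31R.ebas]

/-- chain rule and bound -/
theorem d2b_chain {F : E4 → ℝ} {q : ℝ × ℝ} {n : S2} (hF : DifferentiableAt ℝ F (ev q n)) {c : ℝ}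
    (hc : ∀ a, |H31R.pd a F (ev q n)| ≤ c) (v : ℝ × ℝ) :
    |fderiv ℝ (fun q => F (ev q n)) q v| ≤ c * (|v.1| + 3 * |v.2|) := by
  have h1 : (fun q => F (ev q n)) = fun q => F (d2b_L n q) := by
    funext q
    rw [d2b_L_eq]
  have h2 : HasFDerivAt F (fderiv ℝ F (ev q n)) (d2b_L n q) := by
    rw [← d2b_L_eq]
    exact hF.hasFDerivAt
  have h3 : HasFDerivAt (fun q => F (d2b_L n q)) ((fderiv ℝ F (ev q n)).comp (d2b_L n)) q :=
    h2.comp q (d2b_L n).hasFDerivAt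
  have h4 : fderiv ℝ (fun q => F (ev q n)) q v = v.1 * H31R.pd 0 F (ev q n) +
      v.2 * ((n : E3) 0 * H31R.pd 1 F (ev q n) + (n : E3) 1 * H31R.pd 2 F (ev q n) +
        (n : E3) 2 * H31R.pd 3 F (ev q n)) := by
    rw [h1, h3.fderiv, ContinuousLinearMap.comp_apply, d2b_L_apply, map_add, map_smul, map_smul, map_add, map_add,
      map_smul, map_smul, map_smul]
    rfl
  have hn : ‖(n : E3)‖ = 1 := mem_sphere_zero_iff_norm.1 n.2
  have hni : ∀ i, |(n : E3) i| ≤ 1 := by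
    intro i
    have := PiLp.norm_apply_le (n : E3) i
    rwa [hn, Real.norm_eq_abs] at this
  have hc0 : 0 ≤ c := (abs_nonneg _).trans (hc 0)
  have h5 : ∀ i a, |(n : E3) i * H31R.pd a F (ev q n)| ≤ c := by
    intro i a
    rw [abs_mul]
    calc |(n : E3) i| * |H31R.pd a F (ev q n)| ≤ 1 * c := mul_le_mul (hni i) (hc a) (abs_nonneg _) zero_le_one
      _ = c := one_mul c
  have h6 : |(n : E3) 0 * H31R.pd 1 F (ev q n) + (n : E3) 1 * H31R.pd 2 F (ev q n) +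
        (n : E3) 2 * H31R.pd 3 F (ev q n)| ≤ 3 * c := by
    have a1 := abs_le.1 (h5 0 1)
    have a2 := abs_le.1 (h5 1 2)
    have a3 := abs_le.1 (h5 2 3)
    rw [abs_le]
    constructor
    · linarith [a1.1, a2.1, a3.1]
    · linarith [a1.2, a2.2, a3.2]
  rw [h4]
  refine (abs_add_le _ _).trans ?_
  rw [abs_mul, abs_mul]
  have h7 : |v.1| * |H31R.pd 0 F (ev q n)| ≤ |v.1| * c := mul_le_mul_of_nonneg_left (hc 0) (abs_nonneg _)
  have h8 := mul_le_mul_of_nonneg_left h6 (abs_nonneg v.2)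
  linarith

/-- mean over the sphere -/
theorem d2b_mean {g : S2 → ℝ} {c : ℝ} (hg : ∀ n, |g n| ≤ c) : |(4 * Real.pi)⁻¹ * ∫ n : S2, g n ∂sm| ≤ c := by
  have hint := norm_integral_le_of_norm_le_const (μ := sm) (f := g) (C := c)
    (Filter.Eventually.of_forall fun n => by rw [Real.norm_eq_abs]; exact hg n)
  rw [Pool.Agent.Lib.PenroseSph.sm_univ, Real.norm_eq_abs] at hint
  rw [abs_mul, abs_of_pos (by positivity : (0 : ℝ) < (4 * Real.pi)⁻¹)]
  calc (4 * Real.pi)⁻¹ * |∫ n : S2, g n ∂sm| ≤ (4 * Real.pi)⁻¹ * (c * (4 * Real.pi)) :=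
        mul_le_mul_of_nonneg_left hint (by positivity)
    _ = c := by
        have hpi : Real.pi ≠ 0 := Real.pi_ne_zero
        field_simp

theorem bd_ab {R₀ : ℝ} {F : E4 → ℝ} {k : ℝ → ℝ} {r : ℝ × ℝ → ℝ} {f : E3 → ℝ} (hS : Slice R₀ F k r f) {C R : ℝ}
    (hB : BD R₀ F k r f C R) :
    ∃ C' R' : ℝ, 0 ≤ C' ∧ R ≤ R' ∧ ∀ q ∈ QQ R₀ f, R' ≤ q.2 →
      (|Da k r q - 1 / 2| ≤ C' / q.2 ∧ |Db k r q - 1 / 2| ≤ C' / q.2 ∧ |mF F q - 1| ≤ C' / q.2) ∧
      (|Da k (mF F) q| ≤ C' / q.2 ^ 2 ∧ |Db k (mF F) q| ≤ C' / q.2 ^ 2) ∧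
      (1 / 4 ≤ Da k r q ∧ 1 / 4 ≤ Db k r q ∧ 1 / 2 ≤ mF F q ∧ mF F q ≤ 2) ∧
      (|r q| ≤ 2 * q.2 ∧ 3 / 4 ≤ k q.2 ∧ k q.2 ≤ 5 / 4) := by
  have hC0 := hB.C_nonneg
  refine ⟨14 * C, max R (14 * C), by positivity, le_max_left _ _, fun q hq hqR => ?_⟩
  have h1 : R ≤ q.2 := (le_max_left _ _).trans hqR
  have h2 : 14 * C ≤ q.2 := (le_max_right _ _).trans hqR
  have hρ : 0 < q.2 := by linarith [hB.R_pos]
  obtain ⟨t, ht⟩ : ∃ t, t = C / q.2 := ⟨_, rfl⟩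
  have ht0 : 0 ≤ t := by rw [ht]; positivity
  have ht1 : 14 * t ≤ 1 := by
    rw [ht, ← mul_div_assoc, div_le_one hρ]
    exact h2
  have htC : 14 * C / q.2 = 14 * t := by rw [ht]; ring
  have htρ : C = t * q.2 := by rw [ht, div_mul_cancel₀ _ hρ.ne']
  have hk := hB.k0 _ h1
  have hrT := hB.rT q hq h1
  have hrR := hB.rR q hq h1
  have hr0 := hB.r0 q hq h1
  rw [← ht] at hk hrT hrR
  rw [htρ] at hr0
  have hk1 := abs_le.1 hk
  have hT1 := abs_le.1 hrT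
  have hR1 := abs_le.1 hrR
  have hr1 := abs_le.1 hr0
  have hkpos : 0 < k q.2 := by linarith [hk1.1]
  have hk2 : 13 / 14 ≤ k q.2 := by linarith [hk1.1]
  have eDa : Da k r q = 1 / 2 * fderiv ℝ r q (1, 0) + 1 / (2 * k q.2) * fderiv ℝ r q (0, 1) := by
    unfold Da
    rw [f4_D]
  have eDb : Db k r q = -(1 / 2) * fderiv ℝ r q (1, 0) + 1 / (2 * k q.2) * fderiv ℝ r q (0, 1) := by
    unfold Db
    rw [f4_D]
  -- `r_ρ/(2k)`
  have hq1 : |1 / (2 * k q.2) * fderiv ℝ r q (0, 1) - 1 / 2| ≤ 2 * t := by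
    have e : 1 / (2 * k q.2) * fderiv ℝ r q (0, 1) - 1 / 2 =
        (fderiv ℝ r q (0, 1) - 1 - (k q.2 - 1)) / (2 * k q.2) := by
      field_simp
      ring
    rw [e, abs_div, abs_of_pos (by positivity : (0 : ℝ) < 2 * k q.2), div_le_iff₀ (by positivity)]
    have h3 : |fderiv ℝ r q (0, 1) - 1 - (k q.2 - 1)| ≤ 2 * t := by
      rw [abs_le]
      constructor
      · linarith [hR1.1, hk1.2]
      · linarith [hR1.2, hk1.1]
    have h4 : 2 * t * 1 ≤ 2 * t * (2 * k q.2) := mul_le_mul_of_nonneg_left (by linarith) (by positivity)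
    linarith
  have hq2 := abs_le.1 hq1
  have ha : |Da k r q - 1 / 2| ≤ 3 * t := by
    rw [eDa, abs_le]
    constructor
    · linarith [hT1.1, hq2.1]
    · linarith [hT1.2, hq2.2]
  have hb : |Db k r q - 1 / 2| ≤ 3 * t := by
    rw [eDb, abs_le]
    constructor
    · linarith [hT1.2, hq2.1]
    · linarith [hT1.1, hq2.2]
  -- the mean of `1/F`
  have hFs : ∀ n : S2, ContDiffAt ℝ ∞ F (ev q n) := fun n => hS.F_smooth _ (ev_near hS.nonneg hq n).1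
  have hFp : ∀ n : S2, 0 < F (ev q n) := fun n => hS.F_pos _ (ev_near hS.nonneg hq n).1
  have hF0 : ∀ n : S2, |F (ev q n) - 1| ≤ t := fun n => by
    rw [ht]
    exact hB.F0 q hq h1 n
  have hF2 : ∀ n : S2, 1 / 2 ≤ F (ev q n) := fun n => by
    have := abs_le.1 (hF0 n)
    linarith [this.1]
  have hFi : ∀ n : S2, |(F (ev q n))⁻¹ - 1| ≤ 2 * t := by
    intro n
    have h3 := hFp n
    have e : (F (ev q n))⁻¹ - 1 = -(F (ev q n) - 1) / F (ev q n) := by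
      field_simp
      ring
    rw [e, abs_div, abs_neg, abs_of_pos h3, div_le_iff₀ h3]
    have h4 := hF0 n
    have h5 : 2 * t * (1 / 2) ≤ 2 * t * F (ev q n) := mul_le_mul_of_nonneg_left (hF2 n) (by positivity)
    linarith
  have hci := (mF_cont hFs hFp (0, 0)).2
  have i1 : Integrable (fun n : S2 => (F (ev q n))⁻¹) sm := Pool.Agent.Lib.PenroseSph.integrable_S2 hci
  have hm : |mF F q - 1| ≤ 2 * t := by
    have e : mF F q - 1 = (4 * Real.pi)⁻¹ * ∫ n : S2, ((F (ev q n))⁻¹ - 1) ∂sm := by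
      rw [integral_sub i1 (integrable_const _), integral_const, smul_eq_mul, Pool.Agent.Lib.PenroseSph.sm_univ]
      unfold mF
      have hpi : Real.pi ≠ 0 := Real.pi_ne_zero
      field_simp
    rw [e]
    exact d2b_mean hFi
  -- its derivatives
  have hd : ∀ v : ℝ × ℝ, |v.1| ≤ 1 / 2 → |v.2| ≤ 1 → |fderiv ℝ (mF F) q v| ≤ 14 * C / q.2 ^ 2 := by
    intro v hv1 hv2
    rw [(mF_deriv hFs hFp).2 v, abs_neg]
    refine d2b_mean fun n => ?_
    have h3 := d2b_chain (n := n) ((hFs n).differentiableAt (by simp)) (hB.F1 q hq h1 n) v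
    have h4 : C / q.2 ^ 2 * (|v.1| + 3 * |v.2|) ≤ C / q.2 ^ 2 * (7 / 2) :=
      mul_le_mul_of_nonneg_left (by linarith) (by positivity)
    have h5 : 1 / 4 ≤ F (ev q n) ^ 2 := by nlinarith [hF2 n]
    have h6 : 0 < F (ev q n) ^ 2 := by positivity
    rw [abs_div, abs_of_pos h6, div_le_iff₀ h6]
    have h7 : 14 * C / q.2 ^ 2 * (1 / 4) ≤ 14 * C / q.2 ^ 2 * F (ev q n) ^ 2 :=
      mul_le_mul_of_nonneg_left h5 (by positivity)
    have h8 : 14 * C / q.2 ^ 2 * (1 / 4) = C / q.2 ^ 2 * (7 / 2) := by ring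
    linarith
  have hv2 : |1 / (2 * k q.2)| ≤ 1 := by
    rw [abs_of_pos (by positivity : (0 : ℝ) < 1 / (2 * k q.2)), div_le_one (by positivity)]
    linarith
  have ha1 := abs_le.1 ha
  have hb1 := abs_le.1 hb
  have hm1 := abs_le.1 hm
  refine ⟨⟨?_, ?_, ?_⟩, ⟨?_, ?_⟩, ⟨?_, ?_, ?_, ?_⟩, ?_, ?_, ?_⟩
  · rw [htC]
    linarith
  · rw [htC]
    linarith
  · rw [htC]
    linarith
  · exact hd (1 / 2, 1 / (2 * k q.2)) (by norm_num) hv2
  · exact hd (-(1 / 2), 1 / (2 * k q.2)) (by norm_num [abs_neg]) hv2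
  · linarith [ha1.1]
  · linarith [hb1.1]
  · linarith [hm1.1]
  · linarith [hm1.2]
  · have h3 : t * q.2 ≤ q.2 := by nlinarith
    rw [abs_le]
    constructor
    · linarith [hr1.1]
    · linarith [hr1.2]
  · linarith
  · linarith [hk1.2]

end H17V
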