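import Pool.Agent.Lib.H17V.D2A
import Pool.Agent.Lib.H17V.D2B

set_option autoImplicit false

/-!
# H17V, chunk D2C (S/M): the derivatives of `r r_T` are controlled by those of the mass

By `mass_formula`, with `r_a, r_b ≥ 1/4`, `r > 0`: `D_a m ≥ e3/8 + r Na/2 ≥ 0`. By `ww_formula`, `Φ ≥ 1/2`:
`|D_a w| ≤ 2 |Φ r_a² - 1/4| + 2 |r r_a Φ_a| + 2 |e3/4 - r Na|`; the first two are `O(1/ρ)` by `bd_ab` (`Φ r_a² - 1/4 = (Φ - 1) r_a² + (r_a - 1/2)(r_a + 1/2)`), the last one is at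
most `2 (e3/4 + r Na) ≤ 4 (e3/8 + r Na/2)`. The same for `D_b`.
-/

open MeasureTheory Filter Topology Set
open scoped ContDiff

namespace H17V

open H17T
open Pool.Agent.Lib.PenroseSph (E3 Tens S2 sm pd )

/-- The algebra. -/
theorem d2c_alg {C ρ Φ ra rb Φa r e N Dm Dw : ℝ} (hρ : 0 < ρ) (hC : 0 ≤ C) (h1 : |ra - 1 / 2| ≤ C / ρ)
    (h3 : |Φ - 1| ≤ C / ρ) (h4 : |Φa| ≤ C / ρ ^ 2) (hra : 1 / 4 ≤ ra) (hra' : ra ≤ 1) (hrb : 1 / 4 ≤ rb) (hΦ : 1 / 2 ≤ Φ)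
    (hr : 0 < r) (hr2 : r ≤ 2 * ρ) (he : 0 ≤ e) (hN : 0 ≤ N)
    (hm : Dm = ra / 2 * e + 2 * r * rb * N)
    (hw : Φ * Dw = Φ * ra ^ 2 - 1 / 4 - r * ra * Φa + e / 4 - r * N ∨
      Φ * Dw = 1 / 4 - Φ * ra ^ 2 + r * ra * Φa - e / 4 + r * N) :
    0 ≤ Dm ∧ |Dw| ≤ 12 * C / ρ + 8 * Dm := by
  have hrN : 0 ≤ r * N := mul_nonneg hr.le hN
  have hDm : e / 8 + r * N / 2 ≤ Dm := by
    rw [hm]
    have a1 : e / 8 ≤ ra / 2 * e := by nlinarith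
    have a2 : r * N / 2 ≤ 2 * r * rb * N := by nlinarith
    linarith
  have hDm0 : 0 ≤ Dm := by linarith [div_nonneg he (by norm_num : (0 : ℝ) ≤ 8)]
  refine ⟨hDm0, ?_⟩
  have b1 : |Φ * ra ^ 2 - 1 / 4| ≤ C / ρ + 3 / 2 * (C / ρ) := by
    have e1 : Φ * ra ^ 2 - 1 / 4 = (Φ - 1) * ra ^ 2 + (ra - 1 / 2) * (ra + 1 / 2) := by ring
    rw [e1]
    have c1 : |(Φ - 1) * ra ^ 2| ≤ C / ρ := by
      rw [abs_mul, abs_of_nonneg (sq_nonneg ra)]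
      have : ra ^ 2 ≤ 1 := by nlinarith
      nlinarith [abs_nonneg (Φ - 1)]
    have c2 : |(ra - 1 / 2) * (ra + 1 / 2)| ≤ 3 / 2 * (C / ρ) := by
      rw [abs_mul, abs_of_nonneg (by linarith : (0 : ℝ) ≤ ra + 1 / 2)]
      nlinarith [abs_nonneg (ra - 1 / 2)]
    exact (abs_add_le _ _).trans (add_le_add c1 c2)
  have b2 : |r * ra * Φa| ≤ 2 * (C / ρ) := by
    rw [abs_mul, abs_of_nonneg (by positivity : (0 : ℝ) ≤ r * ra)]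
    have d1 : r * ra ≤ 2 * ρ := by nlinarith
    calc r * ra * |Φa| ≤ 2 * ρ * (C / ρ ^ 2) := mul_le_mul d1 h4 (abs_nonneg _) (by positivity)
      _ = 2 * (C / ρ) := by field_simp
  have b3 : |Φ * Dw| ≤ 5 / 2 * (C / ρ) + 2 * (C / ρ) + (e / 4 + r * N) := by
    rw [abs_le] at b1 b2 ⊢
    rcases hw with h | h <;> rw [h] <;> constructor <;> nlinarith [b1.1, b1.2, b2.1, b2.2]
  have b4 : |Dw| ≤ 2 * |Φ * Dw| := by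
    rw [abs_mul, abs_of_nonneg (by linarith : (0 : ℝ) ≤ Φ)]
    nlinarith [abs_nonneg Dw]
  have b5 : 12 * C / ρ = 12 * (C / ρ) := by ring
  have b6 : 0 ≤ C / ρ := by positivity
  rw [b5]
  linarith

theorem dw_bound {R₀ : ℝ} {F : E4 → ℝ} {k : ℝ → ℝ} {r : ℝ × ℝ → ℝ} {f : E3 → ℝ} (hS : Slice R₀ F k r f)
    (hR : Red R₀ F k r f) {C R : ℝ} (hB : BD R₀ F k r f C R) :
    ∃ C' R' : ℝ, 0 ≤ C' ∧ R ≤ R' ∧ ∀ q ∈ QQ R₀ f, R' ≤ q.2 →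
      0 ≤ Da k (mass F k r) q ∧ 0 ≤ Db k (mass F k r) q ∧
      |Da k (ww r) q| ≤ C' / q.2 + 8 * Da k (mass F k r) q ∧
      |Db k (ww r) q| ≤ C' / q.2 + 8 * Db k (mass F k r) q ∧ 3 / 4 ≤ k q.2 ∧ k q.2 ≤ 5 / 4 := by
  obtain ⟨C1, R1, hC1, hR1, h1⟩ := bd_ab hS hB
  refine ⟨12 * C1, max R1 (2 * C1), by positivity, hR1.trans (le_max_left _ _), fun q hq hq2 => ?_⟩
  have hq1 : R1 ≤ q.2 := (le_max_left _ _).trans hq2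
  have hqC : 2 * C1 ≤ q.2 := (le_max_right _ _).trans hq2
  have hρ : 0 < q.2 := by linarith [hB.R_pos]
  obtain ⟨⟨a1, a2, a3⟩, ⟨b1, b2⟩, ⟨c1, c2, c3, c4⟩, ⟨d1, d2, d3⟩⟩ := h1 q hq hq1
  obtain ⟨-, m1, m2, m3, m4, m5⟩ := mass_formula hR hq
  obtain ⟨-, w1, w2⟩ := ww_formula hR hq
  have hr : 0 < r q := hR.r_pos q hq
  have hr2 : r q ≤ 2 * q.2 := (le_abs_self _).trans d1
  have hle : C1 / q.2 ≤ 1 / 2 := by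
    rw [div_le_iff₀ hρ]
    linarith
  have ha : Da k r q ≤ 1 := by linarith [(abs_le.1 a1).2]
  have hb : Db k r q ≤ 1 := by linarith [(abs_le.1 a2).2]
  obtain ⟨u1, u2⟩ := d2c_alg hρ hC1 a1 a3 b1 c1 ha c2 c3 hr hr2 m3 m4 m1 (Or.inl w1)
  obtain ⟨v1, v2⟩ := d2c_alg hρ hC1 a2 a3 b2 c2 hb c1 c3 hr hr2 m3 m5 m2 (Or.inr w2)
  exact ⟨u1, v1, u2, v2, d2, d3⟩

end H17V
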