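import Pool.Agent.Lib.H17V.D1
import Pool.Agent.Lib.H17V.D2C

set_option autoImplicit false

/-!
# H17V, chunk D3 (M): mass and `r r_T` at two points of the slice with `‖y‖ ≥ ‖x‖ + L`

Along the curve `γ s = (τ s, s)` of `path`: for `φ` differentiable at `γ s`,
`d/ds φ(γ s) = fderiv φ (γ s) (τ', 1) = (k + τ') Da k φ (γ s) + (k - τ') Db k φ (γ s)`, `k = k s` (same computation as `H17T.ray_deriv`, H17T/M3.lean), and
`0 < k ± τ' `, `k + τ' + k - τ' = 2 k ≤ 5/2`. So `d/ds m ≥ 0` and `|d/ds w| ≤ (5/2) C'/s + 8 d/ds m ≤ (5/2) C'/‖x‖ + 8 d/ds m`. Hence `m(γ s)` and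
`8 m(γ s) + (5/2)(C'/‖x‖) s ± w(γ s)` are nondecreasing on `[‖x‖, ‖y‖]` (`monotoneOn_of_deriv_nonneg`). `γ ‖x‖ = qq f x`, `γ ‖y‖ = qq f y`.
Differentiability of `mass` and `ww`: `mass_formula`, `ww_formula`.
-/

open MeasureTheory Filter Topology Set
open scoped ContDiff

namespace H17V

open H17T
open Pool.Agent.Lib.PenroseSph (E3 Tens S2 sm pd )

theorem d3_mono {g g' : ℝ → ℝ} {a b : ℝ} (hab : a ≤ b) (h : ∀ s ∈ Icc a b, HasDerivAt g (g' s) s ∧ 0 ≤ g' s) :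
    g a ≤ g b := by
  have hm : MonotoneOn g (Icc a b) := by
    refine monotoneOn_of_deriv_nonneg (convex_Icc a b) (fun s hs => (h s hs).1.continuousAt.continuousWithinAt)
      (fun s hs => ((h s (interior_subset hs)).1.differentiableAt).differentiableWithinAt) ?_
    intro s hs
    rw [(h s (interior_subset hs)).1.deriv]
    exact (h s (interior_subset hs)).2
  exact hm (left_mem_Icc.mpr hab) (right_mem_Icc.mpr hab) hab

theorem d3_deriv {k : ℝ → ℝ} {φ : ℝ × ℝ → ℝ} {τ : ℝ → ℝ} {t s : ℝ} (hk : 0 < k s) (hτ : HasDerivAt τ t s)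
    (hφ : DifferentiableAt ℝ φ (τ s, s)) :
    HasDerivAt (fun s => φ (τ s, s)) ((k s + t) * Da k φ (τ s, s) + (k s - t) * Db k φ (τ s, s)) s := by
  have d1 : HasDerivAt (fun s => (τ s, s)) (t, (1 : ℝ)) s := hτ.prodMk (hasDerivAt_id s)
  have hφ' : HasFDerivAt φ (fderiv ℝ φ (τ s, s)) ((fun s => (τ s, s)) s) := hφ.hasFDerivAt
  have d2 := HasFDerivAt.comp_hasDerivAt (f := fun s => (τ s, s)) s hφ' d1
  refine HasDerivAt.congr_deriv d2 ?_
  have hk0 : k s ≠ 0 := hk.ne'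
  unfold Da Db
  have e1 : ((t, 1) : ℝ × ℝ) = (k s + t) • ((1 / 2, 1 / (2 * k s)) : ℝ × ℝ) +
      (k s - t) • ((-(1 / 2), 1 / (2 * k s)) : ℝ × ℝ) := by
    refine Prod.ext ?_ ?_
    · show t = (k s + t) * (1 / 2) + (k s - t) * (-(1 / 2))
      ring
    · show 1 = (k s + t) * (1 / (2 * k s)) + (k s - t) * (1 / (2 * k s))
      field_simp
      ring
  show fderiv ℝ φ (τ s, s) (t, 1) = _
  rw [e1, map_add, map_smul, map_smul, smul_eq_mul, smul_eq_mul]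

theorem along {R₀ : ℝ} {F : E4 → ℝ} {k : ℝ → ℝ} {r : ℝ × ℝ → ℝ} {f : E3 → ℝ} (hS : Slice R₀ F k r f)
    (hR : Red R₀ F k r f) {C R : ℝ} (hB : BD R₀ F k r f C R) :
    ∃ C' L R1 : ℝ, 0 ≤ C' ∧ 0 < L ∧ R ≤ R1 ∧ ∀ x y : E3, R1 ≤ ‖x‖ → ‖x‖ + L ≤ ‖y‖ →
      mass F k r (qq f x) ≤ mass F k r (qq f y) ∧
      |ww r (qq f y) - ww r (qq f x)| ≤ C' * (‖y‖ - ‖x‖) / ‖x‖
        + 8 * (mass F k r (qq f y) - mass F k r (qq f x)) := by
  obtain ⟨L, R1, hL, hR1, hpath⟩ := path hS hB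
  obtain ⟨C', R', hC', hR', hw⟩ := dw_bound hS hR hB
  refine ⟨5 / 2 * C', L, max R1 R', by positivity, hL, hR1.trans (le_max_left _ _), ?_⟩
  intro x y hx hxy
  have hx1 : R1 ≤ ‖x‖ := (le_max_left _ _).trans hx
  have hx2 : R' ≤ ‖x‖ := (le_max_right _ _).trans hx
  have hx0 : 0 < ‖x‖ := by linarith [hB.R_pos]
  have hxy' : ‖x‖ ≤ ‖y‖ := by linarith
  obtain ⟨τ, τ', hτx, hτy, hτ⟩ := hpath x y hx1 hxy
  have hqx : (τ ‖x‖, ‖x‖) = qq f x := by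
    rw [hτx]
    rfl
  have hqy : (τ ‖y‖, ‖y‖) = qq f y := by
    rw [hτy]
    rfl
  have key : ∀ s ∈ Icc ‖x‖ ‖y‖,
      HasDerivAt (fun s => mass F k r (τ s, s)) ((k s + τ' s) * Da k (mass F k r) (τ s, s)
        + (k s - τ' s) * Db k (mass F k r) (τ s, s)) s ∧
      HasDerivAt (fun s => ww r (τ s, s)) ((k s + τ' s) * Da k (ww r) (τ s, s)
        + (k s - τ' s) * Db k (ww r) (τ s, s)) s ∧
      0 ≤ (k s + τ' s) * Da k (mass F k r) (τ s, s) + (k s - τ' s) * Db k (mass F k r) (τ s, s) ∧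
      |(k s + τ' s) * Da k (ww r) (τ s, s) + (k s - τ' s) * Db k (ww r) (τ s, s)|
        ≤ 5 / 2 * C' / ‖x‖ + 8 * ((k s + τ' s) * Da k (mass F k r) (τ s, s)
          + (k s - τ' s) * Db k (mass F k r) (τ s, s)) := by
    intro s hs
    obtain ⟨h1, h2, h3⟩ := hτ s hs
    obtain ⟨hs1, hs2⟩ := hs
    have hs0 : 0 < s := by linarith
    obtain ⟨m1, m2, w1, w2, k1, k2⟩ := hw (τ s, s) h3 (hx2.trans hs1)
    have k1' : 3 / 4 ≤ k s := k1
    have k2' : k s ≤ 5 / 4 := k2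
    have w1' : |Da k (ww r) (τ s, s)| ≤ C' / s + 8 * Da k (mass F k r) (τ s, s) := w1
    have w2' : |Db k (ww r) (τ s, s)| ≤ C' / s + 8 * Db k (mass F k r) (τ s, s) := w2
    have hks : 0 < k s := by linarith
    obtain ⟨t1, t2⟩ := abs_le.mp h2
    have p1 : 0 ≤ k s + τ' s := by linarith
    have p2 : 0 ≤ k s - τ' s := by linarith
    refine ⟨d3_deriv hks h1 (mass_formula hR h3).1, d3_deriv hks h1 (ww_formula hR h3).1, ?_, ?_⟩
    · exact add_nonneg (mul_nonneg p1 m1) (mul_nonneg p2 m2)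
    · have hCs : C' / s ≤ C' / ‖x‖ := div_le_div_of_nonneg_left hC' hx0 hs1
      have hCs0 : 0 ≤ C' / s := div_nonneg hC' hs0.le
      have hCx0 : 0 ≤ C' / ‖x‖ := div_nonneg hC' hx0.le
      calc |(k s + τ' s) * Da k (ww r) (τ s, s) + (k s - τ' s) * Db k (ww r) (τ s, s)|
          ≤ |(k s + τ' s) * Da k (ww r) (τ s, s)| + |(k s - τ' s) * Db k (ww r) (τ s, s)| := abs_add_le _ _
        _ = (k s + τ' s) * |Da k (ww r) (τ s, s)| + (k s - τ' s) * |Db k (ww r) (τ s, s)| := by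
          rw [abs_mul, abs_mul, abs_of_nonneg p1, abs_of_nonneg p2]
        _ ≤ (k s + τ' s) * (C' / s + 8 * Da k (mass F k r) (τ s, s))
            + (k s - τ' s) * (C' / s + 8 * Db k (mass F k r) (τ s, s)) :=
          add_le_add (mul_le_mul_of_nonneg_left w1' p1) (mul_le_mul_of_nonneg_left w2' p2)
        _ = 2 * k s * (C' / s) + 8 * ((k s + τ' s) * Da k (mass F k r) (τ s, s)
            + (k s - τ' s) * Db k (mass F k r) (τ s, s)) := by ring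
        _ ≤ 5 / 2 * C' / ‖x‖ + 8 * ((k s + τ' s) * Da k (mass F k r) (τ s, s)
            + (k s - τ' s) * Db k (mass F k r) (τ s, s)) := by
          have e : 5 / 2 * C' / ‖x‖ = 5 / 2 * (C' / ‖x‖) := by ring
          rw [e]
          have : 2 * k s * (C' / s) ≤ 5 / 2 * (C' / ‖x‖) :=
            mul_le_mul (by linarith) hCs hCs0 (by norm_num)
          linarith
  have hM : mass F k r (τ ‖x‖, ‖x‖) ≤ mass F k r (τ ‖y‖, ‖y‖) :=
    d3_mono (g := fun s => mass F k r (τ s, s)) hxy' fun s hs => ⟨(key s hs).1, (key s hs).2.2.1⟩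
  have hP : 8 * mass F k r (τ ‖x‖, ‖x‖) + 5 / 2 * C' / ‖x‖ * ‖x‖ + ww r (τ ‖x‖, ‖x‖)
      ≤ 8 * mass F k r (τ ‖y‖, ‖y‖) + 5 / 2 * C' / ‖x‖ * ‖y‖ + ww r (τ ‖y‖, ‖y‖) := by
    refine d3_mono (g := fun s => 8 * mass F k r (τ s, s) + 5 / 2 * C' / ‖x‖ * s + ww r (τ s, s))
      (g' := fun s => 8 * ((k s + τ' s) * Da k (mass F k r) (τ s, s)
        + (k s - τ' s) * Db k (mass F k r) (τ s, s)) + 5 / 2 * C' / ‖x‖ * 1
        + ((k s + τ' s) * Da k (ww r) (τ s, s) + (k s - τ' s) * Db k (ww r) (τ s, s))) hxy' fun s hs => ?_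
    obtain ⟨a1, a2, a3, a4⟩ := key s hs
    refine ⟨((a1.const_mul 8).add ((hasDerivAt_id s).const_mul _)).add a2, ?_⟩
    have := (abs_le.mp a4).1
    simp only [mul_one]
    linarith
  have hN : 8 * mass F k r (τ ‖x‖, ‖x‖) + 5 / 2 * C' / ‖x‖ * ‖x‖ - ww r (τ ‖x‖, ‖x‖)
      ≤ 8 * mass F k r (τ ‖y‖, ‖y‖) + 5 / 2 * C' / ‖x‖ * ‖y‖ - ww r (τ ‖y‖, ‖y‖) := by
    refine d3_mono (g := fun s => 8 * mass F k r (τ s, s) + 5 / 2 * C' / ‖x‖ * s - ww r (τ s, s))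
      (g' := fun s => 8 * ((k s + τ' s) * Da k (mass F k r) (τ s, s)
        + (k s - τ' s) * Db k (mass F k r) (τ s, s)) + 5 / 2 * C' / ‖x‖ * 1
        - ((k s + τ' s) * Da k (ww r) (τ s, s) + (k s - τ' s) * Db k (ww r) (τ s, s))) hxy' fun s hs => ?_
    obtain ⟨a1, a2, a3, a4⟩ := key s hs
    refine ⟨((a1.const_mul 8).add ((hasDerivAt_id s).const_mul _)).sub a2, ?_⟩
    have := (abs_le.mp a4).2
    simp only [mul_one]
    linarith
  rw [hqx, hqy] at hM hP hN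
  have e : 5 / 2 * C' * (‖y‖ - ‖x‖) / ‖x‖ = 5 / 2 * C' / ‖x‖ * ‖y‖ - 5 / 2 * C' / ‖x‖ * ‖x‖ := by ring
  refine ⟨hM, ?_⟩
  rw [e, abs_le]
  constructor <;> linarith

end H17V
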