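import Pool.Agent.Lib.H17V.T7
import Pool.Agent.Lib.H17T.F0

set_option autoImplicit false

/-!
# H17V: regularity of the induced data (port of H17T/F0)
-/

open MeasureTheory Filter Topology Set
open scoped ContDiff

namespace H17V

open H17T
open Pool.Agent.Lib.PenroseSph (E3 Tens S2 sm pd fluxDensity momDensity)

variable {R₀ : ℝ}

private theorem cd_pt {f : E3 → ℝ} {x : E3} (hf : ContDiffAt ℝ ∞ f x) :
    ContDiffAt ℝ ∞ (fun y => pt (f y) y) x :=
  ContDiffAt.comp (g := fun q : ℝ × E3 => pt q.1 q.2) (f := fun y : E3 => (f y, y)) x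
    pt_smooth.contDiffAt (hf.prodMk contDiffAt_id)

private theorem cd_comp {φ : E4 → ℝ} {f : E3 → ℝ} {x : E3} (hφ : ContDiffAt ℝ ∞ φ (pt (f x) x))
    (hf : ContDiffAt ℝ ∞ f x) : ContDiffAt ℝ ∞ (fun y => φ (pt (f y) y)) x :=
  ContDiffAt.comp (g := φ) (f := fun y : E3 => pt (f y) y) x hφ (cd_pt hf)

private theorem cd_pd {φ : E3 → ℝ} {x : E3} (h : ContDiffAt ℝ ∞ φ x) (i : Fin 3) :
    ContDiffAt ℝ ∞ (pd i φ) x :=
  (h.fderiv_right (m := ∞) (by simp)).clm_apply contDiffAt_const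

private theorem cd_pd4 {φ : E4 → ℝ} {x : E4} (h : ContDiffAt ℝ ∞ φ x) (i : Fin 4) :
    ContDiffAt ℝ ∞ (H31R.pd i φ) x :=
  (h.fderiv_right (m := ∞) (by simp)).clm_apply contDiffAt_const

private theorem cd_coord (i : Fin 3) {x : E3} : ContDiffAt ℝ ∞ (fun y : E3 => y i) x :=
  (EuclideanSpace.proj (𝕜 := ℝ) i).contDiff.contDiffAt

private theorem st_at {F : E4 → ℝ} {k : ℝ → ℝ} {r : ℝ × ℝ → ℝ} {f : E3 → ℝ} (hS : Slice R₀ F k r f) {x : E3}
    (hxR : R₀ < ‖x‖) (a b : Fin 4) : ContDiffAt ℝ ∞ (fun p => stMetric F k r p a b) (pt (f x) x) := by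
  have hx : x ≠ 0 := ne_of_R hS.nonneg hxR
  have hN := mem_near (f := f) hxR
  refine stMetric_smooth (by rw [pos_pt]; exact hx) (hS.F_smooth _ hN) ?_ (hS.r_smooth _ hN) a b
  rw [pos_pt]
  exact hS.k_smooth _ hxR

private theorem st_det {F : E4 → ℝ} {k : ℝ → ℝ} {r : ℝ × ℝ → ℝ} {f : E3 → ℝ} (hS : Slice R₀ F k r f) {x : E3}
    (hxR : R₀ < ‖x‖) : (stMetric F k r (pt (f x) x)).det ≠ 0 := by
  have hx : x ≠ 0 := ne_of_R hS.nonneg hxR
  have hN := mem_near (f := f) hxR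
  refine (stMetric_inv (by rw [pos_pt]; exact hx) (hS.F_pos _ hN) ?_ (hS.r_pos _ hN)).2
  rw [pos_pt]
  exact hS.k_pos _ hxR

private theorem cd_tang {f : E3 → ℝ} {x : E3} (hf : ContDiffAt ℝ ∞ f x) (i : Fin 3) (a : Fin 4) :
    ContDiffAt ℝ ∞ (fun y => tang f y i a) x := by
  refine Fin.cases ?_ (fun j => ?_) a
  · exact cd_pd hf i
  · exact contDiffAt_const

private theorem cd_conorm {f : E3 → ℝ} {x : E3} (hf : ContDiffAt ℝ ∞ f x) (a : Fin 4) :
    ContDiffAt ℝ ∞ (fun y => conorm f y a) x := by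
  refine Fin.cases ?_ (fun j => ?_) a
  · exact contDiffAt_const
  · exact (cd_pd hf j).neg

theorem slice_smooth {F : E4 → ℝ} {k : ℝ → ℝ} {r : ℝ × ℝ → ℝ} {f : E3 → ℝ} (hS : Slice R₀ F k r f) {x : E3}
    (hxR : R₀ < ‖x‖) (i j : Fin 3) : ContDiffAt ℝ ∞ (fun y => slice (stMetric F k r) f y i j) x := by
  have hx : x ≠ 0 := ne_of_R hS.nonneg hxR
  have hf := hS.f_smooth x hxR
  show ContDiffAt ℝ ∞ (fun y => ∑ a, ∑ b, stMetric F k r (pt (f y) y) a b * tang f y i a * tang f y j b) x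
  refine ContDiffAt.sum fun a _ => ContDiffAt.sum fun b _ => ?_
  exact ((cd_comp (st_at hS hxR a b) hf).mul (cd_tang hf i a)).mul (cd_tang hf j b)

private theorem second_smooth {F : E4 → ℝ} {k : ℝ → ℝ} {r : ℝ × ℝ → ℝ} {f : E3 → ℝ} (hS : Slice R₀ F k r f) {x : E3}
    (hxR : R₀ < ‖x‖) (i j : Fin 3) : ContDiffAt ℝ ∞ (fun y => second (stMetric F k r) f y i j) x := by
  have hx : x ≠ 0 := ne_of_R hS.nonneg hxR
  have hf := hS.f_smooth x hxR
  have hinv : ∀ a b, ContDiffAt ℝ ∞ (fun p => (stMetric F k r p)⁻¹ a b) (pt (f x) x) := fun a b =>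
    H31R.N_inv_at (fun a b => st_at hS hxR a b) (st_det hS hxR) a b
  have hchr : ∀ c a b, ContDiffAt ℝ ∞ (H31R.chr (stMetric F k r) c a b) (pt (f x) x) := by
    intro c a b
    refine contDiffAt_const.mul (ContDiffAt.sum fun l _ => (hinv c l).mul ?_)
    exact ((cd_pd4 (st_at hS hxR b l) a).add (cd_pd4 (st_at hS hxR a l) b)).sub (cd_pd4 (st_at hS hxR a b) l)
  refine ContDiffAt.div ?_ (ContDiffAt.sqrt ?_ (normal_timelike hS hxR).ne')
    (Real.sqrt_ne_zero'.2 (normal_timelike hS hxR))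
  · refine (cd_pd (cd_pd hf j) i).add (ContDiffAt.sum fun c _ => ContDiffAt.sum fun a _ => ContDiffAt.sum fun b _ => ?_)
    exact (((cd_comp (hchr c a b) hf).mul (cd_conorm hf c)).mul (cd_tang hf i a)).mul
      (cd_tang hf j b)
  · refine (ContDiffAt.sum fun a _ => ContDiffAt.sum fun b _ => ?_).neg
    exact ((cd_comp (hinv a b) hf).mul (cd_conorm hf a)).mul (cd_conorm hf b)

theorem second_cont {F : E4 → ℝ} {k : ℝ → ℝ} {r : ℝ × ℝ → ℝ} {f : E3 → ℝ} (hS : Slice R₀ F k r f) {x : E3}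
    (hxR : R₀ < ‖x‖) (i j : Fin 3) : ContinuousAt (fun y => second (stMetric F k r) f y i j) x :=
  (second_smooth hS hxR i j).continuousAt

private theorem det_ne_of_pos {A : Matrix (Fin 3) (Fin 3) ℝ}
    (h : ∀ ξ : Fin 3 → ℝ, ξ ≠ 0 → 0 < ∑ i, ∑ j, A i j * ξ i * ξ j) : A.det ≠ 0 := by
  intro h0
  obtain ⟨v, hv, hv0⟩ := Matrix.exists_mulVec_eq_zero_iff.2 h0
  have h1 := h v hv
  have h2 : ∑ i, ∑ j, A i j * v i * v j = ∑ i, v i * (A.mulVec v) i := by
    refine Finset.sum_congr rfl fun i _ => ?_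
    rw [Matrix.mulVec, dotProduct, Finset.mul_sum]
    refine Finset.sum_congr rfl fun j _ => ?_
    ring
  rw [h2, hv0] at h1
  simp at h1

theorem dens_cont {F : E4 → ℝ} {k : ℝ → ℝ} {r : ℝ × ℝ → ℝ} {f : E3 → ℝ} (hS : Slice R₀ F k r f) {x : E3}
    (hxR : R₀ < ‖x‖) (i : Fin 3) : ContinuousAt (fluxDensity (slice (stMetric F k r) f)) x ∧
      ContinuousAt (momDensity (slice (stMetric F k r) f) (second (stMetric F k r) f) i) x := by
  have hx : x ≠ 0 := ne_of_R hS.nonneg hxR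
  have hn : ∀ j : Fin 3, ContinuousAt (fun y : E3 => y j / ‖y‖) x := fun j =>
    (cd_coord j).continuousAt.div continuous_norm.continuousAt (norm_ne_zero_iff.2 hx)
  have hg := fun i j => slice_smooth hS hxR i j
  have hdet := det_ne_of_pos (hS.spacelike x hxR)
  have hinv : ∀ a b, ContDiffAt ℝ ∞ (fun y => (slice (stMetric F k r) f y)⁻¹ a b) x := fun a b =>
    H31R.N_inv_at hg hdet a b
  constructor
  · refine tendsto_finsetSum _ fun i _ => tendsto_finsetSum _ fun j _ => ?_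
    exact ((cd_pd (hg i j) j).continuousAt.sub (cd_pd (hg j j) i).continuousAt).mul (hn i)
  · refine tendsto_finsetSum _ fun j _ => ?_
    refine ((second_cont hS hxR i j).sub (ContinuousAt.mul ?_ (hg i j).continuousAt)).mul (hn j)
    refine tendsto_finsetSum _ fun a _ => tendsto_finsetSum _ fun b _ => ?_
    exact (hinv a b).continuousAt.mul (second_cont hS hxR a b)

end H17V
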