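import Pool.Agent.Lib.H17V.E2
import Pool.Agent.Lib.H17V.F0

set_option autoImplicit false

/-!
# H17V, chunk E3 (S/M): the ADM energy is the limit of the mass

`admFlux g s = (1/(16π)) ∫ s² fluxDensity g (s • n)`. By `flux_mhat` and `mean_mhat` it differs from `(4π)⁻¹ ∫ mass (qq f (s • n))` by at most `C''/s`
(`|∫ φ| ≤ 4π sup |φ|`; continuity: `dens_cont`, `mass_cont`; model: proof of `H17T.mass_lim`, H17T/F5.lean). By `hm` the latter differs from `E` by at most `ε` for large `s`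
(`∫ 1 = 4π`: `Pool.Agent.Lib.PenroseSph.sm_univ`).
-/

open MeasureTheory Filter Topology Set
open scoped ContDiff

namespace H17V

open H17T
open Pool.Agent.Lib.PenroseSph (E3 Tens S2 sm pd admFlux)

theorem energy_lim {R₀ : ℝ} {F : E4 → ℝ} {k : ℝ → ℝ} {r : ℝ × ℝ → ℝ} {f : E3 → ℝ} (hS : Slice R₀ F k r f) {C R : ℝ}
    (hB : BD R₀ F k r f C R) {E : ℝ}
    (hm : ∀ ε : ℝ, 0 < ε → ∃ R' : ℝ, ∀ x : E3, R' ≤ ‖x‖ → |mass F k r (qq f x) - E| ≤ ε) :
    Tendsto (admFlux (slice (stMetric F k r) f)) atTop (𝓝 E) := by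
  obtain ⟨C1, R1, hC1, hR1, h1⟩ := flux_mhat hS hB
  obtain ⟨C2, R2, hC2, hR2, h2⟩ := mean_mhat hS hB
  have hpi := Real.pi_pos
  have key : ∀ (s ε : ℝ), R1 ≤ s → R2 ≤ s → (∀ x : E3, ‖x‖ = s → |mass F k r (qq f x) - E| ≤ ε) →
      |admFlux (slice (stMetric F k r) f) s - E| ≤ (C1 + C2) / s + ε := by
    intro s ε hs1 hs2 hε
    have hs : 1 ≤ s := by linarith [hB.R_pos]
    have hs0 : 0 < s := by linarith
    have hsR : R₀ < s := by linarith [hB.R_gt]
    have hnn : ∀ n : S2, ‖s • (n : E3)‖ = s := Pool.Agent.Lib.PenroseSph.norm_ray hs0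
    have hne : ∀ n : S2, R₀ < ‖s • (n : E3)‖ := fun n => by rw [hnn n]; exact hsR
    have h0 : Continuous (fun m : S2 => s • (m : E3)) := by fun_prop
    obtain ⟨A, hA⟩ : ∃ A : S2 → ℝ, A = fun m : S2 => s ^ 2 * Pool.Agent.Lib.PenroseSph.fluxDensity (slice (stMetric F k r) f)
      (s • (m : E3)) := ⟨_, rfl⟩
    obtain ⟨H, hH⟩ : ∃ H : S2 → ℝ, H = fun m : S2 => mhat F k r f (s • (m : E3)) := ⟨_, rfl⟩
    obtain ⟨M, hM⟩ : ∃ M : S2 → ℝ, M = fun m : S2 => mass F k r (qq f (s • (m : E3))) := ⟨_, rfl⟩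
    have cA : Continuous A := by
      rw [hA, continuous_iff_continuousAt]
      intro m
      exact continuousAt_const.mul (ContinuousAt.comp (f := fun m : S2 => s • (m : E3)) (dens_cont hS (hne m) 0).1
        h0.continuousAt)
    have cH : Continuous H := by
      rw [hH, continuous_iff_continuousAt]
      intro m
      exact ContinuousAt.comp (f := fun m : S2 => s • (m : E3)) (mass_cont hS (hne m)).2 h0.continuousAt
    have cM : Continuous M := by
      rw [hM, continuous_iff_continuousAt]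
      intro m
      exact ContinuousAt.comp (g := fun x => mass F k r (qq f x)) (f := fun m : S2 => s • (m : E3))
        (mass_cont hS (hne m)).1 h0.continuousAt
    have iA : Integrable A sm := Pool.Agent.Lib.PenroseSph.integrable_S2 cA
    have iH : Integrable H sm := Pool.Agent.Lib.PenroseSph.integrable_S2 cH
    have iM : Integrable M sm := Pool.Agent.Lib.PenroseSph.integrable_S2 cM
    have iE : Integrable (fun _ : S2 => E) sm := Pool.Agent.Lib.PenroseSph.integrable_S2 continuous_const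
    have b1 : |∫ m, (A m - 4 * H m) ∂sm| ≤ C1 / s * (4 * Real.pi) := by
      rw [← Real.norm_eq_abs, ← Pool.Agent.Lib.PenroseSph.sm_univ]
      refine norm_integral_le_of_norm_le_const (Filter.Eventually.of_forall fun m => ?_)
      have a1 := h1 (s • (m : E3)) (by rw [hnn m]; exact hs1)
      rw [hnn m] at a1
      rw [Real.norm_eq_abs, hA, hH]
      exact a1
    have b2 : |(∫ m, H m ∂sm) - ∫ m, M m ∂sm| ≤ C2 / s := by
      rw [hH, hM]
      exact h2 s hs2
    have b3 : |∫ m, (M m - E) ∂sm| ≤ ε * (4 * Real.pi) := by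
      rw [← Real.norm_eq_abs, ← Pool.Agent.Lib.PenroseSph.sm_univ]
      refine norm_integral_le_of_norm_le_const (Filter.Eventually.of_forall fun m => ?_)
      rw [Real.norm_eq_abs, hM]
      exact hε _ (hnn m)
    have e1 : ∫ m, (A m - 4 * H m) ∂sm = (∫ m, A m ∂sm) - 4 * ∫ m, H m ∂sm := by
      rw [integral_sub iA (iH.const_mul 4), integral_const_mul]
    have e2 : ∫ m, (M m - E) ∂sm = (∫ m, M m ∂sm) - 4 * Real.pi * E := by
      rw [integral_sub iM iE, integral_const, Pool.Agent.Lib.PenroseSph.sm_univ, smul_eq_mul]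
    rw [e1] at b1
    rw [e2] at b3
    have e3 : admFlux (slice (stMetric F k r) f) s = (1 / (16 * Real.pi)) * ∫ m, A m ∂sm := by
      rw [hA]
      rfl
    obtain ⟨IA, hIA⟩ : ∃ I, I = ∫ m, A m ∂sm := ⟨_, rfl⟩
    obtain ⟨IH, hIH⟩ : ∃ I, I = ∫ m, H m ∂sm := ⟨_, rfl⟩
    obtain ⟨IM, hIM⟩ : ∃ I, I = ∫ m, M m ∂sm := ⟨_, rfl⟩
    rw [← hIA, ← hIH] at b1
    rw [← hIH, ← hIM] at b2
    rw [← hIM] at b3
    rw [e3, ← hIA]
    have e4 : 1 / (16 * Real.pi) * IA - E = 1 / (16 * Real.pi) * ((IA - 4 * IH) + 4 * (IH - IM) + 4 * (IM - 4 * Real.pi * E)) := by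
      field_simp
      ring
    rw [e4, abs_mul, abs_of_pos (by positivity : (0 : ℝ) < 1 / (16 * Real.pi))]
    have c1 : |(IA - 4 * IH) + 4 * (IH - IM) + 4 * (IM - 4 * Real.pi * E)| ≤
        C1 / s * (4 * Real.pi) + 4 * (C2 / s) + 4 * (ε * (4 * Real.pi)) := by
      rw [abs_le] at b1 b2 b3 ⊢
      constructor <;> linarith [b1.1, b1.2, b2.1, b2.2, b3.1, b3.2]
    have hpi3 : (3 : ℝ) < Real.pi := Real.pi_gt_three
    calc 1 / (16 * Real.pi) * |(IA - 4 * IH) + 4 * (IH - IM) + 4 * (IM - 4 * Real.pi * E)|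
        ≤ 1 / (16 * Real.pi) * (C1 / s * (4 * Real.pi) + 4 * (C2 / s) + 4 * (ε * (4 * Real.pi))) :=
          mul_le_mul_of_nonneg_left c1 (by positivity)
      _ = C1 / s / 4 + C2 / s / (4 * Real.pi) + ε := by
          field_simp
          ring
      _ ≤ C1 / s + C2 / s + ε := by
          have d1 : C1 / s / 4 ≤ C1 / s := div_le_self (by positivity) (by norm_num)
          have d2 : C2 / s / (4 * Real.pi) ≤ C2 / s := div_le_self (by positivity) (by linarith)
          linarith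
      _ = (C1 + C2) / s + ε := by ring
  rw [Metric.tendsto_atTop]
  intro η hη
  obtain ⟨R3, h3⟩ := hm (η / 4) (by linarith)
  refine ⟨max (max R1 R2) (max (max 1 R3) (2 * (C1 + C2) / η)), fun s hs => ?_⟩
  have hs1 : R1 ≤ s := (le_max_left _ _).trans ((le_max_left _ _).trans hs)
  have hs2 : R2 ≤ s := (le_max_right _ _).trans ((le_max_left _ _).trans hs)
  have hs3 : 1 ≤ s := (le_max_left _ _).trans ((le_max_left _ _).trans ((le_max_right _ _).trans hs))
  have hs4 : R3 ≤ s := (le_max_right _ _).trans ((le_max_left _ _).trans ((le_max_right _ _).trans hs))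
  have hs5 : 2 * (C1 + C2) / η ≤ s := (le_max_right _ _).trans ((le_max_right _ _).trans hs)
  have hs0 : 0 < s := by linarith
  have h4 := key s (η / 4) hs1 hs2 fun x hx => h3 x (by rw [hx]; exact hs4)
  rw [Real.dist_eq]
  have h5 : (C1 + C2) / s ≤ η / 2 := by
    rw [div_le_iff₀ hs0]
    rw [div_le_iff₀ hη] at hs5
    linarith
  linarith

end H17V
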