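import Pool.Agent.Lib.H17V.F7
import Pool.Agent.Lib.H17T.F8

set_option autoImplicit false

/-!
# H17V: the mean of the rotational derivatives (port of H17T/F8)
-/

open MeasureTheory Filter Topology Set
open scoped ContDiff

namespace H17V

open H17T
open Pool.Agent.Lib.PenroseSph (E3 Tens S2 sm pd momDensity admMom)

variable {R₀ : ℝ}

/-- Restriction to a sphere of radius `> R₀`. -/
theorem f8_cont (hR0 : 0 ≤ R₀) {φ : E3 → ℝ} (h : ∀ x : E3, R₀ < ‖x‖ → ContinuousAt φ x) {s : ℝ} (hs : R₀ < s) :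
    Continuous fun n : S2 => φ (s • (n : E3)) :=
  Pool.Agent.Lib.PenroseSph.cont_ray (a := R₀) hR0 (fun x hx => (h x hx).continuousWithinAt) hs

/-- chunk F8A -/
theorem flux_zero {f : E3 → ℝ} (hR0 : 0 ≤ R₀) (hf : ∀ x : E3, R₀ < ‖x‖ → ContDiffAt ℝ ∞ f x) {s : ℝ} (hs : R₀ < s)
    (i : Fin 3) :
    ∫ n : S2, (∑ j, (pd j (pd i f) (s • (n : E3)) * (n : E3) j - pd j (pd j f) (s • (n : E3)) * (n : E3) i)) ∂sm
      = 0 := by
  have hs0 : 0 < s := lt_of_le_of_lt hR0 hs
  have h1 : ∀ j, ∀ x : E3, R₀ < ‖x‖ → ContDiffAt ℝ ∞ (pd j f) x := fun j x hx => f8a_sm (hf x hx) j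
  have h2 : ∀ i j, ∀ x : E3, R₀ < ‖x‖ → ContDiffAt ℝ ∞ (pd i (pd j f)) x := fun i j x hx => f8a_sm (h1 j x hx) i
  have hcoord : ∀ j : Fin 3, Continuous fun n : S2 => (n : E3) j := fun j => by fun_prop
  have hi : ∀ j, Integrable (fun n : S2 => pd j (pd i f) (s • (n : E3)) * (n : E3) j -
      pd j (pd j f) (s • (n : E3)) * (n : E3) i) sm := fun j => Pool.Agent.Lib.PenroseSph.integrable_S2
    (((f8_cont hR0 (fun x hx => (h2 j i x hx).continuousAt) hs).mul (hcoord j)).sub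
      ((f8_cont hR0 (fun x hx => (h2 j j x hx).continuousAt) hs).mul (hcoord i)))
  rw [integral_finsetSum _ fun j _ => hi j]
  refine Finset.sum_eq_zero fun j _ => ?_
  by_cases hij : i = j
  · rw [hij]
    simp
  · have h3 := Pool.Agent.Lib.PenroseSph.avg_rot (a := R₀) (t := s) hR0 hs (f := pd j f)
      (fun x hx => ((h1 j x hx).of_le (by simp)).contDiffWithinAt) hij
    unfold Pool.Agent.Lib.PenroseSph.avg at h3
    have hpi : (4 * Real.pi)⁻¹ ≠ 0 := by positivity
    have h5 := (mul_eq_zero.1 h3).resolve_left hpi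
    have h6 : ∀ n : S2, pd j (pd i f) (s • (n : E3)) * (n : E3) j - pd j (pd j f) (s • (n : E3)) * (n : E3) i =
        (-s⁻¹) * ((s • (n : E3)) i * pd j (pd j f) (s • (n : E3)) - (s • (n : E3)) j * pd i (pd j f) (s • (n : E3))) := by
      intro n
      have hn0 : R₀ < ‖s • (n : E3)‖ := by
        rw [Pool.Agent.Lib.PenroseSph.norm_ray hs0 n]
        exact hs
      rw [f8a_symm (hf _ hn0) i j]
      simp only [PiLp.smul_apply, smul_eq_mul]
      field_simp
      ring
    simp only [h6]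
    rw [integral_const_mul, h5, mul_zero]

end H17V
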