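import Pool.Agent.Lib.H17V.F7
import Pool.Agent.Lib.H17V.F8
import Pool.Agent.Lib.H17V.D2A

set_option autoImplicit false

/-!
# H17V, chunk E4 (M): the linear momentum vanishes

Model: `H17T.mom_lim` (H17T/F8.lean). `admMom g h i s = (1/(8π)) ∫ s² momDensity g h i (s • n)`; by `mom_exp` and `flux_zero` this is
`-(1/(8π)) ∫ 2 s r_T (qq f (s • n)) n_i + O(1/s)`. With `w = ww r = r r_T`: `s r_T = w - (r - s) r_T = w + O(1/s)` (`hB.r0`, `hB.rT`), and by `hosc`
`|w(qq f (s • n)) - w(qq f (s • n0))| ≤ ε` for a fixed `n0` and large `s`; `∫ n_i = 0` (`Pool.Agent.Lib.PenroseSph.avg_coord`).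
So `|admMom s| ≤ ε + C''/s` for large `s`. (Continuity of the integrand: `dens_cont`.)
-/

open MeasureTheory Filter Topology Set
open scoped ContDiff

namespace H17V

open H17T
open Pool.Agent.Lib.PenroseSph (E3 Tens S2 sm pd momDensity admMom)

/-- The estimate at one radius. -/
theorem e4_bound {R₀ : ℝ} {F : E4 → ℝ} {k : ℝ → ℝ} {r : ℝ × ℝ → ℝ} {f : E3 → ℝ} (hS : Slice R₀ F k r f) {C R : ℝ}
    (hB : BD R₀ F k r f C R) (i : Fin 3) {C1 R1 : ℝ} (hR1 : R ≤ R1)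
    (h1 : ∀ x : E3, R1 ≤ ‖x‖ → ∀ i,
      |momDensity (slice (stMetric F k r) f) (second (stMetric F k r) f) i x
        - ((∑ j, (pd j (pd i f) x * (x j / ‖x‖) - pd j (pd j f) x * (x i / ‖x‖)))
          - 2 * (fderiv ℝ r (qq f x) (1, 0) / ‖x‖) * (x i / ‖x‖))| ≤ C1 / ‖x‖ ^ 3)
    {s : ℝ} (hs : R1 ≤ s) {ε : ℝ}
    (hosc : ∀ x y : E3, ‖x‖ = s → ‖y‖ = s → |ww r (qq f x) - ww r (qq f y)| ≤ ε) :
    ‖admMom (slice (stMetric F k r) f) (second (stMetric F k r) f) i s‖ ≤ (|C1| + 2 * C ^ 2) / 2 / s + ε := by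
  obtain ⟨n0⟩ : Nonempty S2 := ⟨⟨EuclideanSpace.single 0 1, by simp⟩⟩
  have hcoord : ∀ j : Fin 3, Continuous fun n : S2 => (n : E3) j := fun j => by fun_prop
  have hci : ∫ n : S2, (n : E3) i ∂sm = 0 := by
    have a1 := Pool.Agent.Lib.PenroseSph.avg_coord (t := 1) one_pos i
    unfold Pool.Agent.Lib.PenroseSph.avg at a1
    have hpi : (4 * Real.pi)⁻¹ ≠ 0 := by positivity
    have a2 := (mul_eq_zero.1 a1).resolve_left hpi
    simp only [one_smul] at a2
    exact a2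
  have hC0 := hB.C_nonneg
  have hs1 : 1 ≤ s := by linarith [hB.R_pos]
  have hsR : R₀ < s := by linarith [hB.R_gt]
  have hs0 : 0 < s := by linarith
  have hpi := Real.pi_pos
  obtain ⟨w0, hw0⟩ : ∃ w0, w0 = ww r (qq f (s • (n0 : E3))) := ⟨_, rfl⟩
  obtain ⟨mo, hmo⟩ : ∃ mo : S2 → ℝ, mo = fun n : S2 => momDensity (slice (stMetric F k r) f)
    (second (stMetric F k r) f) i (s • (n : E3)) := ⟨_, rfl⟩
  obtain ⟨D, hD⟩ : ∃ D : S2 → ℝ, D = fun n : S2 => ∑ j, (pd j (pd i f) (s • (n : E3)) * (n : E3) j -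
    pd j (pd j f) (s • (n : E3)) * (n : E3) i) := ⟨_, rfl⟩
  have hnn : ∀ n : S2, ‖s • (n : E3)‖ = s := Pool.Agent.Lib.PenroseSph.norm_ray hs0
  have hne : ∀ n : S2, R₀ < ‖s • (n : E3)‖ := fun n => by rw [hnn n]; exact hsR
  have cmo : Continuous mo := by
    rw [hmo, continuous_iff_continuousAt]
    intro n
    have a1 : ContinuousAt (fun n : S2 => s • (n : E3)) n := by fun_prop
    exact ContinuousAt.comp (f := fun n : S2 => s • (n : E3)) (dens_cont hS (hne n) i).2 a1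
  have cD : Continuous D := by
    have b1 : ∀ j, ∀ x : E3, R₀ < ‖x‖ → ContDiffAt ℝ ∞ (pd j f) x := fun j x hx => f8a_sm (hS.f_smooth x hx) j
    have b2 : ∀ i j, ∀ x : E3, R₀ < ‖x‖ → ContDiffAt ℝ ∞ (pd i (pd j f)) x := fun i j x hx => f8a_sm (b1 j x hx) i
    rw [hD]
    exact continuous_finsetSum _ fun j _ =>
      ((f8_cont hS.nonneg (fun x hx => (b2 j i x hx).continuousAt) hsR).mul (hcoord j)).sub
        ((f8_cont hS.nonneg (fun x hx => (b2 j j x hx).continuousAt) hsR).mul (hcoord i))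
  have hDz : ∫ n : S2, D n ∂sm = 0 := by
    rw [hD]
    exact flux_zero hS.nonneg hS.f_smooth hsR i
  have hb : ∀ n : S2, ‖s ^ 2 * mo n - s ^ 2 * D n + 2 * w0 * (n : E3) i‖ ≤ (|C1| + 2 * C ^ 2) / s + 2 * ε := by
    intro n
    have a1 := h1 (s • (n : E3)) (by rw [hnn n]; exact hs) i
    rw [hnn n] at a1
    have hq : qq f (s • (n : E3)) ∈ QQ R₀ f := ⟨_, hne n, rfl⟩
    have hq2 : (qq f (s • (n : E3))).2 = s := hnn n
    have a2 := hB.r0 _ hq (by rw [hq2]; linarith)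
    have a3 := hB.rT _ hq (by rw [hq2]; linarith)
    rw [hq2] at a2 a3
    have a4 := hosc (s • (n : E3)) (s • (n0 : E3)) (hnn n) (hnn n0)
    rw [← hw0] at a4
    unfold ww at a4
    obtain ⟨qn, hqn⟩ : ∃ qn, qn = fderiv ℝ r (qq f (s • (n : E3))) (1, 0) := ⟨_, rfl⟩
    obtain ⟨rn, hrn⟩ : ∃ rn, rn = r (qq f (s • (n : E3))) := ⟨_, rfl⟩
    rw [← hqn] at a1 a3 a4
    rw [← hrn] at a2 a4
    have e1 : ∀ j, (s • (n : E3)) j / s = (n : E3) j := by
      intro j
      simp only [PiLp.smul_apply, smul_eq_mul]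
      field_simp
    simp only [e1] at a1
    have e2 : momDensity (slice (stMetric F k r) f) (second (stMetric F k r) f) i (s • (n : E3)) = mo n := by
      rw [hmo]
    have e3 : (∑ j, (pd j (pd i f) (s • (n : E3)) * (n : E3) j - pd j (pd j f) (s • (n : E3)) * (n : E3) i)) = D n := by
      rw [hD]
    rw [e2, e3] at a1
    have hni : |(n : E3) i| ≤ 1 := by
      have b1 := f2_coord (n : E3) i
      have b2 : ‖(n : E3)‖ = 1 := by simp
      rwa [b2] at b1
    have e4 : s ^ 2 * mo n - s ^ 2 * D n + 2 * w0 * (n : E3) i =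
        s ^ 2 * (mo n - (D n - 2 * (qn / s) * (n : E3) i)) + 2 * ((rn - s) * qn) * (n : E3) i
          - 2 * (rn * qn - w0) * (n : E3) i := by
      field_simp
      ring
    rw [Real.norm_eq_abs, e4]
    have c1 : |s ^ 2 * (mo n - (D n - 2 * (qn / s) * (n : E3) i))| ≤ |C1| / s := by
      rw [abs_mul, abs_of_pos (by positivity : (0 : ℝ) < s ^ 2)]
      calc s ^ 2 * |mo n - (D n - 2 * (qn / s) * (n : E3) i)| ≤ s ^ 2 * (C1 / s ^ 3) :=
            mul_le_mul_of_nonneg_left a1 (by positivity)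
        _ = C1 / s := by field_simp
        _ ≤ |C1| / s := div_le_div_of_nonneg_right (le_abs_self C1) hs0.le
    have c2 : |2 * ((rn - s) * qn) * (n : E3) i| ≤ 2 * C ^ 2 / s := by
      rw [abs_mul, abs_mul, abs_mul, abs_of_pos (by norm_num : (0 : ℝ) < 2)]
      have d1 : |rn - s| * |qn| ≤ C * (C / s) := mul_le_mul a2 a3 (abs_nonneg _) hC0
      calc 2 * (|rn - s| * |qn|) * |(n : E3) i| ≤ 2 * (|rn - s| * |qn|) * 1 :=
            mul_le_mul_of_nonneg_left hni (by positivity)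
        _ ≤ 2 * (C * (C / s)) * 1 := by linarith
        _ = 2 * C ^ 2 / s := by ring
    have c3 : |2 * (rn * qn - w0) * (n : E3) i| ≤ 2 * ε := by
      rw [abs_mul, abs_mul, abs_of_pos (by norm_num : (0 : ℝ) < 2)]
      calc 2 * |rn * qn - w0| * |(n : E3) i| ≤ 2 * |rn * qn - w0| * 1 :=
            mul_le_mul_of_nonneg_left hni (by positivity)
        _ ≤ 2 * ε := by linarith
    have c4 := abs_sub (s ^ 2 * (mo n - (D n - 2 * (qn / s) * (n : E3) i)) + 2 * ((rn - s) * qn) * (n : E3) i)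
      (2 * (rn * qn - w0) * (n : E3) i)
    have c5 := abs_add_le (s ^ 2 * (mo n - (D n - 2 * (qn / s) * (n : E3) i))) (2 * ((rn - s) * qn) * (n : E3) i)
    have c6 : (|C1| + 2 * C ^ 2) / s = |C1| / s + 2 * C ^ 2 / s := by ring
    rw [c6]
    linarith
  have hint := norm_integral_le_of_norm_le_const (μ := sm) (Filter.Eventually.of_forall hb)
  rw [Pool.Agent.Lib.PenroseSph.sm_univ] at hint
  have i1 : Integrable (fun n : S2 => s ^ 2 * mo n) sm :=
    Pool.Agent.Lib.PenroseSph.integrable_S2 (continuous_const.mul cmo)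
  have i2 : Integrable (fun n : S2 => s ^ 2 * D n) sm :=
    Pool.Agent.Lib.PenroseSph.integrable_S2 (continuous_const.mul cD)
  have i3 : Integrable (fun n : S2 => 2 * w0 * (n : E3) i) sm :=
    Pool.Agent.Lib.PenroseSph.integrable_S2 (continuous_const.mul (hcoord i))
  have e5 : ∫ n : S2, (s ^ 2 * mo n - s ^ 2 * D n + 2 * w0 * (n : E3) i) ∂sm = ∫ n : S2, s ^ 2 * mo n ∂sm := by
    have i12 : Integrable (fun n : S2 => s ^ 2 * mo n - s ^ 2 * D n) sm := i1.sub i2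
    rw [integral_add i12 i3, integral_sub i1 i2, integral_const_mul (s ^ 2) D, hDz,
      integral_const_mul (2 * w0), hci]
    ring
  rw [e5] at hint
  have e6 : admMom (slice (stMetric F k r) f) (second (stMetric F k r) f) i s =
      1 / (8 * Real.pi) * ∫ n : S2, s ^ 2 * mo n ∂sm := by
    rw [hmo]
    rfl
  rw [e6, norm_mul, Real.norm_eq_abs, abs_of_pos (by positivity : (0 : ℝ) < 1 / (8 * Real.pi))]
  calc 1 / (8 * Real.pi) * ‖∫ n : S2, s ^ 2 * mo n ∂sm‖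
      ≤ 1 / (8 * Real.pi) * (((|C1| + 2 * C ^ 2) / s + 2 * ε) * (4 * Real.pi)) :=
        mul_le_mul_of_nonneg_left hint (by positivity)
    _ = (|C1| + 2 * C ^ 2) / 2 / s + ε := by
        field_simp
        ring

theorem mom_lim {R₀ : ℝ} {F : E4 → ℝ} {k : ℝ → ℝ} {r : ℝ × ℝ → ℝ} {f : E3 → ℝ} (hS : Slice R₀ F k r f) {C R : ℝ}
    (hB : BD R₀ F k r f C R)
    (hosc : ∀ ε : ℝ, 0 < ε → ∃ R' : ℝ, ∀ x y : E3, R' ≤ ‖x‖ → ‖y‖ = ‖x‖ → |ww r (qq f x) - ww r (qq f y)| ≤ ε)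
    (i : Fin 3) :
    Tendsto (admMom (slice (stMetric F k r) f) (second (stMetric F k r) f) i) atTop (𝓝 0) := by
  obtain ⟨C1, R1, hR1, h1⟩ := mom_exp hS hB
  rw [Metric.tendsto_atTop]
  intro η hη
  obtain ⟨R2, h2⟩ := hosc (η / 4) (by linarith)
  set K : ℝ := (|C1| + 2 * C ^ 2) / 2 with hK
  have hK0 : 0 ≤ K := by positivity
  refine ⟨max (max R1 R2) (max 1 (2 * K / η)), fun s hs => ?_⟩
  have hs1 : R1 ≤ s := (le_max_left _ _).trans ((le_max_left _ _).trans hs)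
  have hs2 : R2 ≤ s := (le_max_right _ _).trans ((le_max_left _ _).trans hs)
  have hs3 : 1 ≤ s := (le_max_left _ _).trans ((le_max_right _ _).trans hs)
  have hs4 : 2 * K / η ≤ s := (le_max_right _ _).trans ((le_max_right _ _).trans hs)
  have hs0 : 0 < s := by linarith
  have h3 := e4_bound hS hB i hR1 h1 hs1 (ε := η / 4) fun x y hx hy => h2 x y (by rw [hx]; exact hs2) (by rw [hx, hy])
  rw [dist_zero_right]
  have h4 : K / s ≤ η / 2 := by
    rw [div_le_iff₀ hs0]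
    rw [div_le_iff₀ hη] at hs4
    linarith
  linarith

end H17V
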