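import Pool.Agent.Lib.H17V.F0
import Pool.Agent.Lib.H17V.FB
import Pool.Agent.Lib.H17T.F3

set_option autoImplicit false

/-!
# H17V: expansion of the energy flux density (port of H17T/F3)
-/

open MeasureTheory Filter Topology Set
open scoped ContDiff

namespace H17V

open H17T
open Pool.Agent.Lib.PenroseSph (E3 Tens S2 sm pd fluxDensity)

variable {R₀ : ℝ}

theorem flux_exp {F : E4 → ℝ} {k : ℝ → ℝ} {r : ℝ × ℝ → ℝ} {f : E3 → ℝ} (hS : Slice R₀ F k r f) {C R : ℝ}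
    (hB : BD R₀ F k r f C R) :
    ∃ C' : ℝ, ∀ x : E3, R ≤ ‖x‖ →
      |‖x‖ ^ 2 * fluxDensity (slice (stMetric F k r) f) x
        - (2 * ‖x‖ * (F (pt (f x) x) * k ‖x‖ ^ 2 - 1) - 4 * ‖x‖ * (fderiv ℝ r (qq f x) (0, 1) - 1))| ≤ C' / ‖x‖ := by
  have hC0 := hB.C_nonneg
  refine ⟨4 * C ^ 2 + 2 * C ^ 2 + 12 * ((1 + C) * C ^ 2) + 9 * (2 * ((C ^ 2 + C) * C ^ 2) + 4 * ((1 + C) * (C * C))),
    fun x hx => ?_⟩
  have hρ1 : 1 ≤ ‖x‖ := hB.R_pos.trans hx
  have hρ : 0 < ‖x‖ := by linarith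
  have hx0 : x ≠ 0 := norm_pos_iff.1 hρ
  have hgt : R₀ < ‖x‖ := hB.R_gt.trans_le hx
  have hq : qq f x ∈ QQ R₀ f := ⟨x, hgt, rfl⟩
  obtain ⟨n, hn⟩ : ∃ n : S2, ‖x‖ • (n : E3) = x := by
    refine ⟨⟨‖x‖⁻¹ • x, ?_⟩, ?_⟩
    · rw [mem_sphere_zero_iff_norm, norm_smul, norm_inv, norm_norm, inv_mul_cancel₀ hρ.ne']
    · show ‖x‖ • (‖x‖⁻¹ • x) = x
      rw [smul_smul, mul_inv_cancel₀ hρ.ne', one_smul]
  have hev : ev (qq f x) n = pt (f x) x := by
    show pt (f x) (‖x‖ • (n : E3)) = pt (f x) x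
    rw [hn]
  have e2 : (qq f x).2 = ‖x‖ := rfl
  have hF := hB.F0 (qq f x) hq hx n
  have hF1 := hB.F1 (qq f x) hq hx n
  have hr := hB.r0 (qq f x) hq hx
  have hrT := hB.rT (qq f x) hq hx
  have hrR := hB.rR (qq f x) hq hx
  have hf1 := hB.f1 x hx
  have hf2 := hB.f2 x hx
  rw [hev, e2] at hF hF1
  rw [e2] at hr hrT hrR
  have hN := mem_near (f := f) hgt
  have hfs := hS.f_smooth x hgt
  have hFs : ContDiffAt ℝ ∞ F (pt (f x) x) := hS.F_smooth _ hN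
  have hrs : ContDiffAt ℝ ∞ r (qq f x) := by
    have h := hS.r_smooth _ hN
    rwa [pos_pt, pt_zero] at h
  have hks : ContDiffAt ℝ ∞ k ‖x‖ := hS.k_smooth _ hgt
  have hfd : DifferentiableAt ℝ f x := hfs.differentiableAt (by simp)
  have hFd : DifferentiableAt ℝ F (pt (f x) x) := hFs.differentiableAt (by simp)
  have hP : DifferentiableAt ℝ (fun y => F (pt (f y) y)) x :=
    DifferentiableAt.comp x (g := F) (f := fun y => pt (f y) y) hFd (t4b_io_diff hfd)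
  have hk2 : DifferentiableAt ℝ (fun y : E3 => k ‖y‖ ^ 2) x :=
    (Pool.Agent.Lib.PenroseSph.diff_radial (F := k) hx0 (hks.differentiableAt (by simp))).pow 2
  have hA : DifferentiableAt ℝ (fun y => F (pt (f y) y) * k ‖y‖ ^ 2) x := hP.mul hk2
  have hBB := fun m => f3_B (r := r) hx0 (hrs.differentiableAt (by simp)) hfd m
  have hD : ∀ i, DifferentiableAt ℝ (pd i f) x := fun i => t4b_pd_diff hfs i
  obtain ⟨hu1, hu2⟩ : (∀ i, |x i / ‖x‖| ≤ 1) ∧ (x 0 / ‖x‖) ^ 2 + (x 1 / ‖x‖) ^ 2 + (x 2 / ‖x‖) ^ 2 = 1 := by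
    refine ⟨fun i => ?_, by have h := t0_unit hx0; linarith⟩
    rw [abs_div, abs_of_pos hρ, div_le_one hρ]
    have h := PiLp.norm_apply_le x i
    rwa [Real.norm_eq_abs] at h
  have hpd : ∀ i j m, pd m (fun y => slice (stMetric F k r) f y i j) x = pd m (fun y =>
        F (pt (f y) y) * k ‖y‖ ^ 2 * (y i / ‖y‖ * (y j / ‖y‖)) + (r (qq f y) / ‖y‖) ^ 2 *
          ((if i = j then 1 else 0) - y i / ‖y‖ * (y j / ‖y‖)) - F (pt (f y) y) * (pd i f y * pd j f y)) x := fun i j m => by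
    have e : (fun y => slice (stMetric F k r) f y i j) = fun y =>
        F (pt (f y) y) * k ‖y‖ ^ 2 * (y i / ‖y‖ * (y j / ‖y‖)) + (r (qq f y) / ‖y‖) ^ 2 *
          ((if i = j then 1 else 0) - y i / ‖y‖ * (y j / ‖y‖)) - F (pt (f y) y) * (pd i f y * pd j f y) :=
      funext fun y => slice_eq F k r f y i j
    rw [e]
  have hpd2 := f3_pd (A := fun y => F (pt (f y) y) * k ‖y‖ ^ 2) (B := fun y => (r (qq f y) / ‖y‖) ^ 2)
      (P := fun y => F (pt (f y) y)) (D := fun i => pd i f) hx0 hA (hBB 0).1 hP hD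
  have hdP : ∀ i, |pd i (fun y => F (pt (f y) y)) x| ≤ (C ^ 2 + C) / ‖x‖ ^ 2 := by
    intro i
    rw [t4b_chain hFd hfd i, Fin.sum_univ_succ, Finset.sum_eq_single i]
    · have h1 : H31R.pd i.succ F (pt (f x) x) * tang f x i i.succ = H31R.pd i.succ F (pt (f x) x) := by
        simp [tang]
      have h2 : H31R.pd 0 F (pt (f x) x) * tang f x i 0 = H31R.pd 0 F (pt (f x) x) * pd i f x := rfl
      rw [h1, h2]
      have h3 : |H31R.pd 0 F (pt (f x) x) * pd i f x| ≤ C ^ 2 / ‖x‖ ^ 2 := by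
        rw [abs_mul]
        calc |H31R.pd 0 F (pt (f x) x)| * |pd i f x| ≤ C / ‖x‖ ^ 2 * (C / ‖x‖) :=
              mul_le_mul (hF1 0) (hf1 i) (abs_nonneg _) (by positivity)
          _ ≤ C / ‖x‖ ^ 2 * C := by
              refine mul_le_mul_of_nonneg_left ?_ (by positivity)
              exact div_le_self hC0 hρ1
          _ = C ^ 2 / ‖x‖ ^ 2 := by ring
      have h4 := hF1 i.succ
      have h5 := abs_add_le (H31R.pd 0 F (pt (f x) x) * pd i f x) (H31R.pd i.succ F (pt (f x) x))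
      have h6 : (C ^ 2 + C) / ‖x‖ ^ 2 = C ^ 2 / ‖x‖ ^ 2 + C / ‖x‖ ^ 2 := by ring
      linarith
    · intro b _ hb
      simp [tang, hb]
    · simp
  have hPb : |F (pt (f x) x)| ≤ 1 + C := by
    have h1 := abs_add_le (F (pt (f x) x) - 1) 1
    rw [sub_add_cancel, abs_one] at h1
    have h2 : C / ‖x‖ ≤ C := div_le_self hC0 hρ1
    linarith
  have hfl : fluxDensity (slice (stMetric F k r) f) x = 2 * (F (pt (f x) x) * k ‖x‖ ^ 2 - (r (qq f x) / ‖x‖) ^ 2) / ‖x‖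
      - 2 * (pd 0 (fun y => (r (qq f y) / ‖y‖) ^ 2) x * (x 0 / ‖x‖) + pd 1 (fun y => (r (qq f y) / ‖y‖) ^ 2) x * (x 1 / ‖x‖)
        + pd 2 (fun y => (r (qq f y) / ‖y‖) ^ 2) x * (x 2 / ‖x‖))
      - ∑ i, ∑ j, (pd j (fun y => F (pt (f y) y)) x * (pd i f x * pd j f x)
          + F (pt (f x) x) * (pd j (pd i f) x * pd j f x + pd i f x * pd j (pd j f) x)
        - (pd i (fun y => F (pt (f y) y)) x * (pd j f x * pd j f x)
          + F (pt (f x) x) * (pd i (pd j f) x * pd j f x + pd j f x * pd i (pd j f) x))) * (x i / ‖x‖) := by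
    rw [← f3_alg (fun i => x i / ‖x‖) (fun i => pd i (fun y => F (pt (f y) y) * k ‖y‖ ^ 2) x)
      (fun i => pd i (fun y => (r (qq f y) / ‖y‖) ^ 2) x) (fun i => pd i (fun y => F (pt (f y) y)) x) (fun i => pd i f x)
      (fun i j => pd i (pd j f) x) (F (pt (f x) x) * k ‖x‖ ^ 2) ((r (qq f x) / ‖x‖) ^ 2) (F (pt (f x) x)) ‖x‖ hu2]
    unfold fluxDensity
    refine Finset.sum_congr rfl fun i _ => Finset.sum_congr rfl fun j _ => ?_
    rw [hpd i j j, hpd j j i, hpd2 i j j, hpd2 j j i]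
  have herr := f3_err hu1 hdP hf1 hf2 hPb
  rw [hfl, (hBB 0).2, (hBB 1).2, (hBB 2).2]
  clear hfl hpd hpd2 hBB hdP hPb hA hk2 hP hD hFd hfd hks hFs hfs
  generalize (∑ i, ∑ j, (pd j (fun y => F (pt (f y) y)) x * (pd i f x * pd j f x)
          + F (pt (f x) x) * (pd j (pd i f) x * pd j f x + pd i f x * pd j (pd j f) x)
        - (pd i (fun y => F (pt (f y) y)) x * (pd j f x * pd j f x)
          + F (pt (f x) x) * (pd i (pd j f) x * pd j f x + pd j f x * pd i (pd j f) x))) * (x i / ‖x‖)) = E at herr ⊢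
  exact f3_fin (u := fun i => x i / ‖x‖) (D := fun i => pd i f x) hρ1 hC0 hu1 hu2 hr hrT hrR hf1 herr

end H17V
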