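import Pool.Agent.Lib.H17V.F3
import Pool.Agent.Lib.H17T.F6

set_option autoImplicit false

/-!
# H17V: expansion of the second fundamental form (port of H17T/F6)
-/

open MeasureTheory Filter Topology Set
open scoped ContDiff

namespace H17V

open H17T
open Pool.Agent.Lib.PenroseSph (E3 Tens S2 sm pd)

variable {R₀ : ℝ}

theorem second_exp {F : E4 → ℝ} {k : ℝ → ℝ} {r : ℝ × ℝ → ℝ} {f : E3 → ℝ} (hS : Slice R₀ F k r f) {C R : ℝ}
    (hB : BD R₀ F k r f C R) :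
    ∃ C' R' : ℝ, R ≤ R' ∧ ∀ x : E3, R' ≤ ‖x‖ → ∀ i j,
      |second (stMetric F k r) f x i j - (pd i (pd j f) x
        + 1 / 2 * H31R.pd 0 F (pt (f x) x) * (x i / ‖x‖ * (x j / ‖x‖))
        + fderiv ℝ r (qq f x) (1, 0) / ‖x‖ * ((if i = j then 1 else 0) - x i / ‖x‖ * (x j / ‖x‖)))|
        ≤ C' / ‖x‖ ^ 3 := by
  have hC0 := hB.C_nonneg
  refine ⟨7000 * C ^ 2, max R (100 * C), le_max_left _ _, fun x hxR i j => ?_⟩
  have hx : R ≤ ‖x‖ := (le_max_left _ _).trans hxR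
  have hx2 : 100 * C ≤ ‖x‖ := (le_max_right _ _).trans hxR
  have hρ1 : 1 ≤ ‖x‖ := hB.R_pos.trans hx
  have hρ : 0 < ‖x‖ := by linarith
  have hx0 : x ≠ 0 := norm_pos_iff.1 hρ
  have hgt : R₀ < ‖x‖ := hB.R_gt.trans_le hx
  have hq : qq f x ∈ QQ R₀ f := ⟨x, hgt, rfl⟩
  obtain ⟨n, hn⟩ : ∃ n : S2, ‖x‖ • (n : E3) = x := by
    refine ⟨⟨‖x‖⁻¹ • x, ?_⟩, ?_⟩
    · rw [mem_sphere_zero_iff_norm, norm_smul, norm_inv, norm_norm, inv_mul_cancel₀ hρ.ne']
    · show ‖x‖ • (‖x‖⁻¹ • x) = x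
      rw [smul_smul, mul_inv_cancel₀ hρ.ne', one_smul]
  have hev : ev (qq f x) n = pt (f x) x := by
    show pt (f x) (‖x‖ • (n : E3)) = pt (f x) x
    rw [hn]
  have e2 : (qq f x).2 = ‖x‖ := rfl
  obtain ⟨t, ht⟩ : ∃ t, t = C / ‖x‖ := ⟨_, rfl⟩
  obtain ⟨e, he⟩ : ∃ e, e = C / ‖x‖ ^ 2 := ⟨_, rfl⟩
  have hF := hB.F0 (qq f x) hq hx n
  have hF1 := hB.F1 (qq f x) hq hx n
  have hk := hB.k0 ‖x‖ hx
  have hk1 := hB.k1 ‖x‖ hx
  have hr := hB.r0 (qq f x) hq hx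
  have hrT := hB.rT (qq f x) hq hx
  have hrR := hB.rR (qq f x) hq hx
  have hf1 := hB.f1 x hx
  have hf2 := hB.f2 x hx i j
  rw [hev, e2] at hF hF1
  rw [e2] at hr hrT hrR
  have hw : |r (qq f x) / ‖x‖ - 1| ≤ t := by
    have a1 : r (qq f x) / ‖x‖ - 1 = (r (qq f x) - ‖x‖) / ‖x‖ := by field_simp
    rw [a1, abs_div, abs_of_pos hρ, ht]
    exact div_le_div_of_nonneg_right hr hρ.le
  rw [← ht] at hF hk hrT hrR hf1
  rw [← he] at hF1 hk1 hf2
  have ht0 : 0 ≤ t := by rw [ht]; positivity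
  have he0 : 0 ≤ e := by rw [he]; positivity
  have ht100 : t ≤ 1 / 100 := by
    rw [ht, div_le_iff₀ hρ]
    linarith
  have hts : t * (1 / ‖x‖) = e := by
    rw [ht, he]
    field_simp
  have hte : t * e = C ^ 2 / ‖x‖ ^ 3 := by
    rw [ht, he]
    field_simp
  have hrTe : |fderiv ℝ r (qq f x) (1, 0) / ‖x‖| ≤ e := by
    rw [abs_div, abs_of_pos hρ, ← hts, mul_one_div]
    exact div_le_div_of_nonneg_right hrT hρ.le
  have hN := mem_near (f := f) hgt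
  have hfs := hS.f_smooth x hgt
  have hFs : ContDiffAt ℝ ∞ F (pt (f x) x) := hS.F_smooth _ hN
  have hrs : ContDiffAt ℝ ∞ r (qq f x) := by
    have h := hS.r_smooth _ hN
    rwa [pos_pt, pt_zero] at h
  have hks : ContDiffAt ℝ ∞ k ‖x‖ := hS.k_smooth _ hgt
  have hfd : DifferentiableAt ℝ f x := hfs.differentiableAt (by simp)
  have hFd : DifferentiableAt ℝ F (pt (f x) x) := hFs.differentiableAt (by simp)
  have hrd : DifferentiableAt ℝ r (f x, ‖x‖) := hrs.differentiableAt (by simp)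
  have hkd : DifferentiableAt ℝ k ‖x‖ := hks.differentiableAt (by simp)
  have hpos : pos (pt (f x) x) ≠ 0 := by rw [pos_pt]; exact hx0
  have hGd : ∀ a b, DifferentiableAt ℝ (fun p => stMetric F k r p a b) (pt (f x) x) := fun a b =>
    (stMetric_smooth hpos hFs (by rw [pos_pt]; exact hks) (by rw [pos_pt, pt_zero]; exact hrs) a b).differentiableAt (by simp)
  have hGi : (stMetric F k r (pt (f x) x))⁻¹ = stInv F k r (pt (f x) x) :=
    (stMetric_inv hpos (hS.F_pos _ hN) (by rw [pos_pt]; exact hS.k_pos _ hgt) (hS.r_pos _ hN)).1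
  have hu1 : ∀ i, |x i / ‖x‖| ≤ 1 := by
    intro i
    rw [abs_div, abs_of_pos hρ, div_le_one hρ]
    have h := PiLp.norm_apply_le x i
    rwa [Real.norm_eq_abs] at h
  have hdl : ∀ i j : Fin 3, |(if i = j then (1 : ℝ) else 0)| ≤ 1 := by
    intro i j
    split_ifs <;> simp
  have huu : ∀ i j, |x i / ‖x‖ * (x j / ‖x‖)| ≤ 1 := fun i j => (f6_mul (hu1 i) (hu1 j)).trans (by norm_num)
  have hdd : ∀ i j : Fin 3, |(if i = j then 1 else 0) - x i / ‖x‖ * (x j / ‖x‖)| ≤ 2 := fun i j =>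
    (f6_sub (hdl i j) (huu i j)).trans (by norm_num)
  -- the derivatives of the metric
  have hsp : ∀ (i j : Fin 3) (c : Fin 4), |H31R.pd c (fun p => stMetric F k r p i.succ j.succ) (pt (f x) x)| ≤ 70 * e := by
    intro i j c
    refine Fin.cases ?_ (fun m => ?_) c
    · rw [f6_time hGd hFd hrd]
      exact f6_b1 ht100 he0 hk hw (hF1 0) hrTe (huu i j) (hdd i j)
    · rw [f6_space hx0 hGd hFd hkd hrd]
      have hs1 : ‖x‖⁻¹ = 1 / ‖x‖ := (one_div _).symm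
      refine f6_b2 (t := t) (s := 1 / ‖x‖) ht100 he0 hts.le hF hk hw (hF1 m.succ) hk1 (hu1 m) (huu i j) ?_ ?_ (hdd i j)
      · have b1 : |((if i = m then 1 else 0) - x i / ‖x‖ * (x m / ‖x‖)) / ‖x‖| ≤ 2 * (1 / ‖x‖) := by
          rw [div_eq_mul_one_div]
          exact f6_mul (hdd i m) (by rw [abs_of_pos (by positivity)])
        have b2 : |((if j = m then 1 else 0) - x j / ‖x‖ * (x m / ‖x‖)) / ‖x‖| ≤ 2 * (1 / ‖x‖) := by
          rw [div_eq_mul_one_div]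
          exact f6_mul (hdd j m) (by rw [abs_of_pos (by positivity)])
        have b3 := f6_add (f6_mul b1 (hu1 j)) (f6_mul (hu1 i) b2)
        refine b3.trans (le_of_eq ?_)
        ring
      · have b4 : fderiv ℝ r (f x, ‖x‖) (0, 1) * (x m / ‖x‖) / ‖x‖ - r (f x, ‖x‖) * (x m / ‖x‖) / ‖x‖ ^ 2
            = ((fderiv ℝ r (qq f x) (0, 1) - 1) - (r (qq f x) / ‖x‖ - 1)) * (x m / ‖x‖ * (1 / ‖x‖)) := by
          show fderiv ℝ r (f x, ‖x‖) (0, 1) * (x m / ‖x‖) / ‖x‖ - r (f x, ‖x‖) * (x m / ‖x‖) / ‖x‖ ^ 2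
            = ((fderiv ℝ r (f x, ‖x‖) (0, 1) - 1) - (r (f x, ‖x‖) / ‖x‖ - 1)) * (x m / ‖x‖ * (1 / ‖x‖))
          field_simp
          ring
        rw [b4]
        have b5 : |(1 / ‖x‖ : ℝ)| ≤ 1 / ‖x‖ := by rw [abs_of_pos (by positivity)]
        have b6 := f6_mul (f6_sub hrR hw) (f6_mul (hu1 m) b5)
        refine b6.trans (le_of_eq ?_)
        rw [← hts]
        ring
  have h0 : ∀ c, H31R.pd c (fun _ : E4 => (0 : ℝ)) (pt (f x) x) = 0 := fun c => H31R.N_pd_const c 0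
  have hG : ∀ a b c, |H31R.pd c (fun p => stMetric F k r p a b) (pt (f x) x)| ≤ 70 * e := by
    intro a b c
    refine Fin.cases (Fin.cases ?_ (fun j' => ?_) b) (fun i' => Fin.cases ?_ (fun j' => ?_) b) a
    · show |H31R.pd c (fun p => -F p) (pt (f x) x)| ≤ _
      rw [H31R.N_pd_neg, abs_neg]
      linarith [hF1 c]
    · show |H31R.pd c (fun _ : E4 => (0 : ℝ)) (pt (f x) x)| ≤ _
      rw [h0, abs_zero]
      positivity
    · show |H31R.pd c (fun _ : E4 => (0 : ℝ)) (pt (f x) x)| ≤ _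
      rw [h0, abs_zero]
      positivity
    · exact hsp i' j' c
  -- names
  obtain ⟨Gi, hGid⟩ : ∃ Gi : Fin 4 → Fin 4 → ℝ, Gi = fun a b => (stMetric F k r (pt (f x) x))⁻¹ a b := ⟨_, rfl⟩
  obtain ⟨Q, hQd⟩ : ∃ Q : Fin 4 → Fin 4 → Fin 4 → ℝ, Q = fun a b l =>
    H31R.pd a (fun p => stMetric F k r p b l) (pt (f x) x) + H31R.pd b (fun p => stMetric F k r p a l) (pt (f x) x)
      - H31R.pd l (fun p => stMetric F k r p a b) (pt (f x) x) := ⟨_, rfl⟩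
  obtain ⟨W, hWd⟩ : ∃ W : Fin 4 → ℝ, W = fun l => ∑ c, Gi c l * conorm f x c := ⟨_, rfl⟩
  obtain ⟨X, hXd⟩ : ∃ X : Fin 4 → ℝ, X = fun l => ∑ a, (∑ b, Q a b l * tang f x j b) * tang f x i a := ⟨_, rfl⟩
  obtain ⟨y, hyd⟩ : ∃ y : ℝ, y = -∑ a, ∑ b, (stMetric F k r (pt (f x) x))⁻¹ a b * conorm f x a * conorm f x b := ⟨_, rfl⟩
  have hsec : second (stMetric F k r) f x i j = (pd i (pd j f) x + 1 / 2 * ∑ l, W l * X l) / √y := by
    have h := f6_rearr Gi Q (conorm f x) (tang f x i) (tang f x j)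
    show (pd i (pd j f) x + ∑ c, ∑ a, ∑ b, H31R.chr (stMetric F k r) c a b (pt (f x) x) * conorm f x c * tang f x i a
      * tang f x j b) / √(-∑ a, ∑ b, (stMetric F k r (pt (f x) x))⁻¹ a b * conorm f x a * conorm f x b) = _
    rw [← hyd]
    congr 2
    rw [hWd, hXd, ← h, hGid, hQd]
    rfl
  have hX : ∀ l, X l = (Q i.succ j.succ l + Q i.succ 0 l * pd j f x) + (Q 0 j.succ l + Q 0 0 l * pd j f x) * pd i f x := by
    intro l
    rw [hXd]
    simp only [f6_tang]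
  have hQ : ∀ a b l, |Q a b l| ≤ 210 * e := by
    intro a b l
    rw [hQd]
    refine (f6_sub (f6_add (hG b l a) (hG a l b)) (hG a b l)).trans (le_of_eq ?_)
    ring
  have hGi0 : Gi 0 0 = -(F (pt (f x) x))⁻¹ := by
    rw [hGid, hGi]
    rfl
  have hGi1 : ∀ m : Fin 3, Gi m.succ 0 = 0 := by
    intro m
    rw [hGid, hGi]
    rfl
  have hGi2 : ∀ m : Fin 3, Gi 0 m.succ = 0 := by
    intro m
    rw [hGid, hGi]
    rfl
  have hGi3 : ∀ m l : Fin 3, |Gi m.succ l.succ| ≤ 6 := by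
    intro m l
    have h1 : Gi m.succ l.succ = (F (pt (f x) x) * k ‖x‖ ^ 2)⁻¹ * (x m / ‖x‖ * (x l / ‖x‖)) +
        (r (qq f x) / ‖x‖)⁻¹ ^ 2 * ((if m = l then 1 else 0) - x m / ‖x‖ * (x l / ‖x‖)) := by
      rw [hGid, hGi]
      simp only [stInv, Matrix.of_apply, Fin.cases_succ, pos_pt, pt_zero, inv_div]
      rfl
    rw [h1]
    exact f6_inv ht100 hF hk hw (huu m l) (hdd m l)
  have hFi : |(F (pt (f x) x))⁻¹ - 1| ≤ 2 * t := by
    obtain ⟨-, -, -, F1⟩ := f6_two ht100 hF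
    have h1 : (F (pt (f x) x))⁻¹ - 1 = -((F (pt (f x) x))⁻¹ * (F (pt (f x) x) - 1)) := by
      have : F (pt (f x) x) ≠ 0 := by linarith
      field_simp
      ring
    rw [h1, abs_neg]
    refine f6_mul ?_ hF
    rw [abs_of_pos (by positivity)]
    have := inv_anti₀ (by norm_num : (0 : ℝ) < 1 / 2) (by linarith : (1 : ℝ) / 2 ≤ F (pt (f x) x))
    linarith
  have hW0 : W 0 = -(F (pt (f x) x))⁻¹ := by
    rw [hWd]
    show ∑ c, Gi c 0 * conorm f x c = _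
    rw [Fin.sum_univ_succ, hGi0]
    simp only [hGi1]
    simp [conorm]
  have hWl : ∀ l : Fin 3, W l.succ = -∑ m : Fin 3, Gi m.succ l.succ * pd m f x := by
    intro l
    rw [hWd]
    show ∑ c, Gi c l.succ * conorm f x c = _
    rw [Fin.sum_univ_succ, hGi2]
    simp [conorm]
  have hWb : ∀ l : Fin 3, |W l.succ| ≤ 18 * t := by
    intro l
    rw [hWl, abs_neg]
    refine (f3_sum fun m => f6_mul (hGi3 m l) (hf1 m)).trans (le_of_eq ?_)
    ring
  have hW0b : |W 0 + 1| ≤ 2 * t := by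
    rw [hW0]
    have : -(F (pt (f x) x))⁻¹ + 1 = -((F (pt (f x) x))⁻¹ - 1) := by ring
    rw [this, abs_neg]
    exact hFi
  have hy : |y - 1| ≤ 3 * t := by
    have h1 : y = -(∑ l, W l * conorm f x l) := by
      rw [hyd, Finset.sum_comm, hWd]
      congr 1
      refine Finset.sum_congr rfl fun l _ => ?_
      rw [Finset.sum_mul, hGid]
    have h2 : y - 1 = -(W 0 + 1) + ∑ l : Fin 3, W l.succ * pd l f x := by
      rw [h1, Fin.sum_univ_succ]
      have h3 : ∀ l : Fin 3, W l.succ * conorm f x l.succ = -(W l.succ * pd l f x) := by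
        intro l
        show W l.succ * (-pd l f x) = _
        ring
      simp only [h3, Finset.sum_neg_distrib]
      show -(W 0 * 1 + _) - 1 = _
      ring
    rw [h2]
    have h4 : |-(W 0 + 1)| ≤ 2 * t := by rwa [abs_neg]
    have h5 := f6_add h4 (f3_sum fun l => f6_mul (hWb l) (hf1 l))
    nlinarith
  have hQ0 : Q i.succ j.succ 0 = -(H31R.pd 0 F (pt (f x) x) * k ‖x‖ ^ 2 * (x i / ‖x‖ * (x j / ‖x‖))
        + 2 * (r (qq f x) / ‖x‖) * (fderiv ℝ r (qq f x) (1, 0) / ‖x‖) * ((if i = j then 1 else 0) - x i / ‖x‖ * (x j / ‖x‖))) := by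
    rw [hQd]
    show H31R.pd i.succ (fun _ : E4 => (0 : ℝ)) (pt (f x) x) + H31R.pd j.succ (fun _ : E4 => (0 : ℝ)) (pt (f x) x)
      - H31R.pd 0 (fun p => stMetric F k r p i.succ j.succ) (pt (f x) x) = _
    rw [h0, h0, f6_time hGd hFd hrd]
    simp only [qq]
    ring
  have hS1 := f6_S (W := W) (X := X) (Q := Q) (i := i) (j := j) ht0 ht100 he0 hW0b hWb hQ (hf1 i) (hf1 j) hX
  rw [hsec]
  obtain ⟨-, -, k3, -⟩ := f6_two ht100 hk
  have hte' : 7000 * C ^ 2 / ‖x‖ ^ 3 = 7000 * (t * e) := by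
    rw [hte]
    ring
  rw [hte']
  have c2 : |(1 / 2 : ℝ)| ≤ 1 / 2 := by norm_num
  refine f6_fin ht0 ht100 he0 hy ?_ ?_
  · have h := f6_add (f6_add hf2 (f6_mul (f6_mul c2 (hF1 0)) (huu i j))) (f6_mul hrTe (hdd i j))
    linarith
  · have h1 : (pd i (pd j f) x + 1 / 2 * ∑ l, W l * X l) - (pd i (pd j f) x
        + 1 / 2 * H31R.pd 0 F (pt (f x) x) * (x i / ‖x‖ * (x j / ‖x‖))
        + fderiv ℝ r (qq f x) (1, 0) / ‖x‖ * ((if i = j then 1 else 0) - x i / ‖x‖ * (x j / ‖x‖)))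
        = (1 / 2 * (∑ l, W l * X l) + 1 / 2 * Q i.succ j.succ 0)
          + (1 / 2 * H31R.pd 0 F (pt (f x) x) * (x i / ‖x‖ * (x j / ‖x‖)) * (k ‖x‖ ^ 2 - 1)
          + fderiv ℝ r (qq f x) (1, 0) / ‖x‖ * ((if i = j then 1 else 0) - x i / ‖x‖ * (x j / ‖x‖))
            * (r (qq f x) / ‖x‖ - 1)) := by
      rw [hQ0]
      ring
    rw [h1]
    have h2 := f6_add hS1 (f6_add (f6_mul (f6_mul (f6_mul c2 (hF1 0)) (huu i j)) k3) (f6_mul (f6_mul hrTe (hdd i j)) hw))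
    have hte0 : 0 ≤ t * e := mul_nonneg ht0 he0
    nlinarith

end H17V
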