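import Pool.Agent.Lib.H17V.F6
import Pool.Agent.Lib.H17T.F7

set_option autoImplicit false

/-!
# H17V: expansion of the momentum density (port of H17T/F7)
-/

open MeasureTheory Filter Topology Set
open scoped ContDiff

namespace H17V

open H17T
open Pool.Agent.Lib.PenroseSph (E3 Tens S2 sm pd momDensity)

variable {R₀ : ℝ}

theorem mom_exp {F : E4 → ℝ} {k : ℝ → ℝ} {r : ℝ × ℝ → ℝ} {f : E3 → ℝ} (hS : Slice R₀ F k r f) {C R : ℝ}
    (hB : BD R₀ F k r f C R) :
    ∃ C' R' : ℝ, R ≤ R' ∧ ∀ x : E3, R' ≤ ‖x‖ → ∀ i,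
      |momDensity (slice (stMetric F k r) f) (second (stMetric F k r) f) i x
        - ((∑ j, (pd j (pd i f) x * (x j / ‖x‖) - pd j (pd j f) x * (x i / ‖x‖)))
          - 2 * (fderiv ℝ r (qq f x) (1, 0) / ‖x‖) * (x i / ‖x‖))| ≤ C' / ‖x‖ ^ 3 := by
  obtain ⟨C1, R1, hR1, h1⟩ := second_exp hS hB
  have hC0 := hB.C_nonneg
  refine ⟨45 * (90 * C * (4 * C + |C1|)) + 6 * |C1|, max R1 (90 * C), hR1.trans (le_max_left _ _), fun x hx i => ?_⟩
  have hx1 : R1 ≤ ‖x‖ := (le_max_left _ _).trans hx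
  have hx2 : 90 * C ≤ ‖x‖ := (le_max_right _ _).trans hx
  have hxR : R ≤ ‖x‖ := hR1.trans hx1
  have hρ1 : 1 ≤ ‖x‖ := hB.R_pos.trans hxR
  have hρ : 0 < ‖x‖ := by linarith
  have hx0 : x ≠ 0 := norm_pos_iff.1 hρ
  obtain ⟨ρ, hρd⟩ : ∃ ρ, ρ = ‖x‖ := ⟨_, rfl⟩
  obtain ⟨t, ht⟩ : ∃ t, t = C / ρ := ⟨_, rfl⟩
  have hgt : R₀ < ‖x‖ := hB.R_gt.trans_le hxR
  have hq : qq f x ∈ QQ R₀ f := ⟨x, hgt, rfl⟩
  obtain ⟨n, hn⟩ : ∃ n : S2, ‖x‖ • (n : E3) = x := by
    refine ⟨⟨‖x‖⁻¹ • x, ?_⟩, ?_⟩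
    · rw [mem_sphere_zero_iff_norm, norm_smul, norm_inv, norm_norm, inv_mul_cancel₀ hρ.ne']
    · show ‖x‖ • (‖x‖⁻¹ • x) = x
      rw [smul_smul, mul_inv_cancel₀ hρ.ne', one_smul]
  have hev : ev (qq f x) n = pt (f x) x := by
    show pt (f x) (‖x‖ • (n : E3)) = pt (f x) x
    rw [hn]
  have e2 : (qq f x).2 = ‖x‖ := rfl
  have hF := hB.F0 (qq f x) hq hxR n
  have hF1 := hB.F1 (qq f x) hq hxR n 0
  have hk := hB.k0 ‖x‖ hxR
  have hr := hB.r0 (qq f x) hq hxR
  have hrT := hB.rT (qq f x) hq hxR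
  have hf1 := hB.f1 x hxR
  have hf2 := hB.f2 x hxR
  have hsec := h1 x hx1
  obtain ⟨hu1, hu2⟩ := f7_unit hx0
  rw [hev, e2] at hF hF1
  rw [e2] at hr hrT
  simp only [← hρd] at hF hF1 hk hr hrT hf1 hf2 hsec hu1 hu2 hρ hρ1 hx2 ⊢
  rw [← ht] at hF hk hf1 hrT
  have ht0 : 0 ≤ t := by rw [ht]; positivity
  have ht90 : 90 * t ≤ 1 := by
    rw [ht, ← mul_div_assoc, div_le_one hρ]
    exact hx2
  have hw : |r (qq f x) / ρ - 1| ≤ t := by
    have a1 : r (qq f x) / ρ - 1 = (r (qq f x) - ρ) / ρ := by field_simp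
    rw [a1, abs_div, abs_of_pos hρ, ht]
    exact div_le_div_of_nonneg_right hr hρ.le
  have hg : ∀ i j, |slice (stMetric F k r) f x i j - (if i = j then 1 else 0)| ≤ 15 * t := by
    intro i j
    rw [slice_eq, ← hρd]
    have b1 : |x i / ρ * (x j / ρ)| ≤ 1 := by
      rw [abs_mul]
      exact mul_le_one₀ (hu1 i) (abs_nonneg _) (hu1 j)
    have b2 : |(if i = j then (1 : ℝ) else 0) - x i / ρ * (x j / ρ)| ≤ 2 := by
      have b3 := abs_sub (if i = j then (1 : ℝ) else 0) (x i / ρ * (x j / ρ))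
      have b4 : |(if i = j then (1 : ℝ) else 0)| ≤ 1 := by split_ifs <;> simp
      linarith
    exact f7_entry ht0 (by linarith) hF hk hw (hf1 i) (hf1 j) b1 b2
  have hdet : (slice (stMetric F k r) f x).det ≠ 0 :=
    (plane_pos (g := slice (stMetric F k r) f x) (l := fun _ => 1) (fun i j => slice_symm F k r f x i j)
      (fun ξ hξ => hS.spacelike x hgt ξ hξ) (by
        intro h
        exact one_ne_zero (congrFun h 0))).1
  have hinv := f7_inv hdet (a := 15 * t) (by linarith) hg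
  obtain ⟨S, hSd⟩ : ∃ S : Matrix (Fin 3) (Fin 3) ℝ, S = Matrix.of fun i j => pd i (pd j f) x
        + 1 / 2 * H31R.pd 0 F (pt (f x) x) * (x i / ρ * (x j / ρ))
        + fderiv ℝ r (qq f x) (1, 0) / ρ * ((if i = j then 1 else 0) - x i / ρ * (x j / ρ)) := ⟨_, rfl⟩
  have hSa : ∀ i j, S i j = pd i (pd j f) x
        + 1 / 2 * H31R.pd 0 F (pt (f x) x) * (x i / ρ * (x j / ρ))
        + fderiv ℝ r (qq f x) (1, 0) / ρ * ((if i = j then 1 else 0) - x i / ρ * (x j / ρ)) := by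
    intro i j
    rw [hSd]
    rfl
  have hc : ∀ i j, |second (stMetric F k r) f x i j - S i j| ≤ |C1| / ρ ^ 3 := by
    intro i j
    rw [hSa]
    exact (hsec i j).trans (div_le_div_of_nonneg_right (le_abs_self C1) (by positivity))
  have hSb : ∀ i j, |S i j| ≤ 4 * C / ρ ^ 2 := by
    intro i j
    rw [hSa]
    have b1 : |x i / ρ * (x j / ρ)| ≤ 1 := by
      rw [abs_mul]
      exact mul_le_one₀ (hu1 i) (abs_nonneg _) (hu1 j)
    have b2 : |(if i = j then (1 : ℝ) else 0) - x i / ρ * (x j / ρ)| ≤ 2 := by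
      have b3 := abs_sub (if i = j then (1 : ℝ) else 0) (x i / ρ * (x j / ρ))
      have b4 : |(if i = j then (1 : ℝ) else 0)| ≤ 1 := by split_ifs <;> simp
      linarith
    have c1 : |1 / 2 * H31R.pd 0 F (pt (f x) x) * (x i / ρ * (x j / ρ))| ≤ C / ρ ^ 2 := by
      rw [abs_mul, abs_mul]
      have d1 : |(1 / 2 : ℝ)| ≤ 1 := by rw [abs_of_pos (by norm_num)]; norm_num
      calc |(1 / 2 : ℝ)| * |H31R.pd 0 F (pt (f x) x)| * |x i / ρ * (x j / ρ)|
          ≤ 1 * (C / ρ ^ 2) * 1 := mul_le_mul (mul_le_mul d1 hF1 (abs_nonneg _) zero_le_one) b1 (abs_nonneg _)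
            (by positivity)
        _ = C / ρ ^ 2 := by ring
    have c2 : |fderiv ℝ r (qq f x) (1, 0) / ρ * ((if i = j then 1 else 0) - x i / ρ * (x j / ρ))| ≤ 2 * (C / ρ ^ 2) := by
      rw [abs_mul, abs_div, abs_of_pos hρ]
      have d1 : |fderiv ℝ r (qq f x) (1, 0)| / ρ ≤ C / ρ ^ 2 := by
        rw [div_le_iff₀ hρ]
        refine hrT.trans (le_of_eq ?_)
        rw [ht]
        field_simp
      calc |fderiv ℝ r (qq f x) (1, 0)| / ρ * |(if i = j then (1 : ℝ) else 0) - x i / ρ * (x j / ρ)|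
          ≤ C / ρ ^ 2 * 2 := mul_le_mul d1 b2 (abs_nonneg _) (by positivity)
        _ = 2 * (C / ρ ^ 2) := by ring
    have c3 := abs_add_le (pd i (pd j f) x + 1 / 2 * H31R.pd 0 F (pt (f x) x) * (x i / ρ * (x j / ρ)))
      (fderiv ℝ r (qq f x) (1, 0) / ρ * ((if i = j then 1 else 0) - x i / ρ * (x j / ρ)))
    have c4 := abs_add_le (pd i (pd j f) x) (1 / 2 * H31R.pd 0 F (pt (f x) x) * (x i / ρ * (x j / ρ)))
    have c5 := hf2 i j
    have c6 : 4 * C / ρ ^ 2 = C / ρ ^ 2 + C / ρ ^ 2 + 2 * (C / ρ ^ 2) := by ring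
    linarith
  have hh : ∀ i j, |second (stMetric F k r) f x i j| ≤ (4 * C + |C1|) / ρ ^ 2 := by
    intro i j
    have b1 := abs_add_le (second (stMetric F k r) f x i j - S i j) (S i j)
    rw [sub_add_cancel] at b1
    have b2 : |C1| / ρ ^ 3 ≤ |C1| / ρ ^ 2 :=
      div_le_div_of_nonneg_left (abs_nonneg _) (by positivity) (pow_le_pow_right₀ hρ1 (by norm_num))
    have b3 : (4 * C + |C1|) / ρ ^ 2 = 4 * C / ρ ^ 2 + |C1| / ρ ^ 2 := by ring
    linarith [hc i j, hSb i j]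
  have halg := f7_alg (g := slice (stMetric F k r) f x) (H := (slice (stMetric F k r) f x)⁻¹)
    (h := second (stMetric F k r) f x) (S := S) (u := fun j => x j / ρ) (a := 90 * t) (b := (4 * C + |C1|) / ρ ^ 2)
    (c := |C1| / ρ ^ 3) ht90 (fun i j => (hg i j).trans (by linarith)) (fun i j => (hinv i j).trans (by linarith))
    hh hc hu1 i
  have e3 : momDensity (slice (stMetric F k r) f) (second (stMetric F k r) f) i x =
      ∑ j, (second (stMetric F k r) f x i j - (∑ p, ∑ q, (slice (stMetric F k r) f x)⁻¹ p q *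
        second (stMetric F k r) f x p q) * slice (stMetric F k r) f x i j) * (x j / ρ) := by
    rw [hρd]
    rfl
  have e4 : (∑ j, S i j * (x j / ρ)) - (∑ p, S p p) * (x i / ρ) =
      (∑ j, (pd j (pd i f) x * (x j / ρ) - pd j (pd j f) x * (x i / ρ)))
          - 2 * (fderiv ℝ r (qq f x) (1, 0) / ρ) * (x i / ρ) := by
    have hsy : ∀ i j, pd i (pd j f) x = pd j (pd i f) x := by
      have hfx := hS.f_smooth x hgt
      have hs : IsSymmSndFDerivAt ℝ f x := hfx.isSymmSndFDerivAt (by simp; norm_cast)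
      have hd : DifferentiableAt ℝ (fderiv ℝ f) x :=
        (hfx.fderiv_right (m := ∞) (by simp)).differentiableAt (by simp)
      have key : ∀ i j : Fin 3, pd i (pd j f) x =
          fderiv ℝ (fderiv ℝ f) x (EuclideanSpace.single i 1) (EuclideanSpace.single j 1) := by
        intro i j
        unfold pd
        rw [fderiv_clm_apply hd (differentiableAt_const _)]
        simp
      intro i j
      rw [key, key]
      exact hs _ _
    have s1 : ∑ j, S i j * (x j / ρ) = (∑ j, pd j (pd i f) x * (x j / ρ)) +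
        1 / 2 * H31R.pd 0 F (pt (f x) x) * (x i / ρ) * (∑ j, x j / ρ * (x j / ρ)) +
        fderiv ℝ r (qq f x) (1, 0) / ρ * (x i / ρ - x i / ρ * ∑ j, x j / ρ * (x j / ρ)) := by
      have s2 : ∑ j, (if i = j then 1 else 0) * (x j / ρ) = x i / ρ := by
        simp
      have s5 : ∀ j, S i j * (x j / ρ) = pd j (pd i f) x * (x j / ρ) +
          1 / 2 * H31R.pd 0 F (pt (f x) x) * (x i / ρ) * (x j / ρ * (x j / ρ)) +
          fderiv ℝ r (qq f x) (1, 0) / ρ * ((if i = j then 1 else 0) * (x j / ρ) - x i / ρ * (x j / ρ * (x j / ρ))) := by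
        intro j
        rw [hSa, hsy i j]
        ring
      rw [Finset.sum_congr rfl fun j _ => s5 j, Finset.sum_add_distrib, Finset.sum_add_distrib, ← Finset.mul_sum,
        ← Finset.mul_sum, Finset.sum_sub_distrib, ← Finset.mul_sum, s2]
    have s3 : ∑ p, S p p = (∑ j, pd j (pd j f) x) +
        1 / 2 * H31R.pd 0 F (pt (f x) x) * (∑ j, x j / ρ * (x j / ρ)) +
        fderiv ℝ r (qq f x) (1, 0) / ρ * (3 - ∑ j, x j / ρ * (x j / ρ)) := by
      have s4 : ∑ _j : Fin 3, (1 : ℝ) = 3 := by simp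
      have s5 : ∀ j, S j j = pd j (pd j f) x + 1 / 2 * H31R.pd 0 F (pt (f x) x) * (x j / ρ * (x j / ρ)) +
          fderiv ℝ r (qq f x) (1, 0) / ρ * (1 - x j / ρ * (x j / ρ)) := by
        intro j
        rw [hSa, if_pos rfl]
      rw [Finset.sum_congr rfl fun j _ => s5 j, Finset.sum_add_distrib, Finset.sum_add_distrib, ← Finset.mul_sum,
        ← Finset.mul_sum, Finset.sum_sub_distrib, s4]
    rw [s1, s3, hu2, Finset.sum_sub_distrib, ← Finset.sum_mul]
    ring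
  rw [e3, ← e4]
  refine halg.trans (le_of_eq ?_)
  rw [ht]
  field_simp

end H17V
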