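import Pool.Agent.Lib.H17V.T0
import Pool.Agent.Lib.H17T.N3

set_option autoImplicit false

/-!
# H17V: the dominant energy condition in stereographic coordinates (port of H17T/N3)
-/

open MeasureTheory Filter Topology Set
open scoped ContDiff

namespace H17V

open H17T
open Pool.Agent.Lib.PenroseSph (E3 Tens S2 sm)

variable {R₀ : ℝ}

theorem dec_pull {F : E4 → ℝ} {k : ℝ → ℝ} {r : ℝ × ℝ → ℝ} {f : E3 → ℝ} (hS : Slice R₀ F k r f) {q : ℝ × ℝ}
    (hq : q ∈ QQ R₀ f) (n : S2) {e1 e2 : E3} (h : Frame n e1 e2) : DEC (dm F k r n e1 e2) (bp q) := by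
  obtain ⟨hnear, hpos, hposn, hev0⟩ := ev_near hS.nonneg hq n
  have hq2 : 0 < q.2 := by
    exact lt_of_le_of_lt hS.nonneg (QQ_lt hq)
  have hp0 : pos (ev q n) ≠ 0 := ne_of_R hS.nonneg hnear.1
  obtain ⟨ψ, hψd⟩ : ∃ ψ : E4 → E4, ψ = SM n e1 e2 := ⟨_, rfl⟩
  have hψ : ContDiff ℝ ∞ ψ := by rw [hψd]; exact SM_smooth _ _ _
  obtain ⟨x, hx⟩ : ∃ x : E4, x = bp q := ⟨_, rfl⟩
  have hψx : ψ x = ev q n := by rw [hψd, hx]; exact SM_bp _ _ _ _
  obtain ⟨G, hG⟩ : ∃ G : E4 → Matrix (Fin 4) (Fin 4) ℝ, G = stMetric F k r := ⟨_, rfl⟩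
  obtain ⟨G', hG'⟩ : ∃ G' : E4 → Matrix (Fin 4) (Fin 4) ℝ, G' = dm F k r n e1 e2 := ⟨_, rfl⟩
  have hk0 : 0 < k ‖pos (ev q n)‖ := hS.k_pos _ hnear.1
  have hr0 := hS.r_pos _ hnear
  have hF0 := hS.F_pos _ hnear
  have hsm : ∀ a b, ContDiffAt ℝ ∞ (fun p => G p a b) (ψ x) := by
    intro a b
    rw [hψx, hG]
    exact stMetric_smooth hp0 (hS.F_smooth _ hnear) (hS.k_smooth _ hnear.1) (hS.r_smooth _ hnear) a b
  have hdetG : (G (ψ x)).det ≠ 0 := by
    rw [hψx, hG]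
    exact (stMetric_inv hp0 hF0 hk0 hr0).2
  have hdetG' : (G' x).det ≠ 0 := by
    rw [hG', hx]
    unfold dm
    rw [Matrix.det_diagonal, Finset.prod_ne_zero_iff]
    obtain ⟨b0, b1, b2, b3⟩ := n3_bp0 q
    have hSM : SM n e1 e2 (bp q) = ev q n := SM_bp _ _ _ _
    have hkq : k q.2 ≠ 0 := by
      have h1 := hk0.ne'
      rwa [hposn] at h1
    have hrq : r (q.1, q.2) ≠ 0 := by
      have h1 := hr0.ne'
      rwa [hposn, hev0] at h1
    intro i _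
    unfold dd
    fin_cases i
    · show -F (SM n e1 e2 (bp q)) ≠ 0
      rw [hSM]
      exact neg_ne_zero.2 hF0.ne'
    · show F (SM n e1 e2 (bp q)) * k (bp q 1) ^ 2 ≠ 0
      rw [hSM, b1]
      exact mul_ne_zero hF0.ne' (pow_ne_zero 2 hkq)
    · show r (bp q 0, bp q 1) ^ 2 * (4 * (1 + bp q 2 ^ 2 + bp q 3 ^ 2)⁻¹ ^ 2) ≠ 0
      rw [b0, b1, b2, b3]
      exact mul_ne_zero (pow_ne_zero 2 hrq) (by norm_num)
    · show r (bp q 0, bp q 1) ^ 2 * (4 * (1 + bp q 2 ^ 2 + bp q 3 ^ 2)⁻¹ ^ 2) ≠ 0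
      rw [b0, b1, b2, b3]
      exact mul_ne_zero (pow_ne_zero 2 hrq) (by norm_num)
  have hx1 : 0 < x 1 := by
    rw [hx]
    exact hq2
  have hmat : ∀ᶠ y in 𝓝 x, G' y = (H31R.jac ψ y).transpose * G (ψ y) * H31R.jac ψ y := by
    have hc : ContinuousAt (fun y : E4 => y 1) x := by fun_prop
    filter_upwards [hc.eventually (lt_mem_nhds hx1)] with y hy
    rw [hG', hG, hψd]
    exact pull_metric h hy
  have hxm := hmat.self_of_nhds
  have hdetG2 := hdetG'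
  rw [hxm, Matrix.det_mul, Matrix.det_mul, Matrix.det_transpose] at hdetG2
  have hJ0 : (H31R.jac ψ x).det ≠ 0 := right_ne_zero_of_mul hdetG2
  have hg2 : ∀ᶠ q in 𝓝 (ψ x), ∀ i j, ContDiffAt ℝ 2 (fun q => G q i j) q := by
    rw [Filter.eventually_all]
    intro i
    rw [Filter.eventually_all]
    intro j
    have h1 : ContDiffAt ℝ 2 (fun q => G q i j) (ψ x) := (hsm i j).of_le (by norm_cast)
    exact h1.eventually (by norm_cast)
  have hgdet : ∀ᶠ q in 𝓝 (ψ x), (G q).det ≠ 0 :=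
    (H31R.N_det_at (A := fun q => G q) hsm).continuousAt.eventually_ne hdetG
  obtain ⟨U, hU, hUo, hUx⟩ := eventually_nhds_iff.1 (hg2.and hgdet)
  have hψ3 : ContDiff ℝ 3 ψ := hψ.of_le (by norm_cast)
  have hjc : ∀ i j, ContDiffAt ℝ 1 (fun y => H31R.jac ψ y i j) x := by
    intro a i
    exact (H31R.N_leM (H31R.N_jac_sm isOpen_univ hψ3.contDiffOn) (show 1 ≤ 2 by norm_num) a i).contDiffAt
      Filter.univ_mem
  have hjdet : ∀ᶠ y in 𝓝 x, (H31R.jac ψ y).det ≠ 0 :=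
    (H31R.N_det_at (A := fun y => H31R.jac ψ y) hjc).continuousAt.eventually_ne hJ0
  have hmem : ∀ᶠ y in 𝓝 x, ψ y ∈ U := hψ.continuous.continuousAt.eventually (hUo.mem_nhds hUx)
  obtain ⟨V, hV, hVo, hVx⟩ := eventually_nhds_iff.1 (hmat.and (hjdet.and hmem))
  have hP : H31R.Pull U V ψ G' G :=
    { hU := hUo
      hV := hVo
      hΦ := hψ3.contDiffOn
      hm := fun y hy => (hV y hy).2.2
      hJ := fun y hy => (hV y hy).2.1
      hH := fun i j q hq => ((hU q hq).1 i j).contDiffWithinAt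
      hs := fun q hq i j => by rw [hG]; exact stMetric_symm F k r q i j
      hd := fun q hq => (hU q hq).2
      hG := fun y hy => (hV y hy).1 }
  have hric := hP.ricM_eq hVx
  obtain ⟨J, hJ⟩ : ∃ J, J = H31R.jac ψ x := ⟨_, rfl⟩
  rw [← hJ] at hxm hric hJ0
  have hscal : ∑ c, ∑ d, (G' x)⁻¹ c d * H31R.ric G' c d x = ∑ c, ∑ d, (G (ψ x))⁻¹ c d * H31R.ric G c d (ψ x) := by
    have h1 := n3_trace (G (ψ x)) J (H31R.ricM G (ψ x)) hJ0
    rw [← hxm, ← hric] at h1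
    exact h1
  have hein : ∀ a b, ein G' a b x = (J.transpose * (Matrix.of fun a b => ein G a b (ψ x)) * J) a b := by
    intro a b
    have h1 : (Matrix.of fun a b => ein G a b (ψ x)) = H31R.ricM G (ψ x) -
        (1 / 2 * ∑ c, ∑ d, (G (ψ x))⁻¹ c d * H31R.ric G c d (ψ x)) • G (ψ x) := by
      refine Matrix.ext fun a b => ?_
      rfl
    rw [h1, Matrix.mul_sub, Matrix.sub_mul, Matrix.mul_smul, Matrix.smul_mul, ← hxm, ← hric, ← hscal]
    rfl
  have hJv : ∀ ξ : Fin 4 → ℝ, (J.mulVec ξ) 0 = ξ 0 := by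
    intro ξ
    have h1 : ∀ i, J 0 i = if i = 0 then 1 else 0 := by
      intro i
      rw [hJ]
      unfold H31R.jac H31R.pd
      have h2 : (fun z : E4 => ψ z 0) = fun z => z 0 := by
        funext z
        rw [hψd]
        exact pt_zero _ _
      rw [h2]
      have h3 : HasFDerivAt (fun z : E4 => z 0) (EuclideanSpace.proj 0 : E4 →L[ℝ] ℝ) x :=
        (EuclideanSpace.proj 0 : E4 →L[ℝ] ℝ).hasFDerivAt
      rw [h3.fderiv]
      fin_cases i <;> simp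
    simp only [Matrix.mulVec, dotProduct, h1, ite_mul, one_mul, zero_mul, Finset.sum_ite_eq', Finset.mem_univ, if_true]
  have hcaus : ∀ ξ : Fin 4 → ℝ, Causal G' x ξ → Causal G (ψ x) (J.mulVec ξ) := by
    intro ξ hξ
    refine ⟨by rw [hJv]; exact hξ.1, ?_⟩
    have h1 := n3_bil (G (ψ x)) J ξ ξ
    rw [← hxm] at h1
    rw [← h1]
    exact hξ.2
  have hdec : DEC G (ψ x) := by
    rw [hG, hψx]
    exact hS.dec _ hnear
  rw [← hG', ← hx]
  intro ξ η hξ hη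
  have h1 := hdec _ _ (hcaus ξ hξ) (hcaus η hη)
  have h2 := n3_bil (Matrix.of fun a b => ein G a b (ψ x)) J ξ η
  have h3 : ∑ a, ∑ b, ein G' a b x * ξ a * η b =
      ∑ i, ∑ j, (J.transpose * (Matrix.of fun a b => ein G a b (ψ x)) * J) i j * ξ i * η j :=
    Finset.sum_congr rfl fun a _ => Finset.sum_congr rfl fun b _ => by rw [hein]
  rw [h3, h2]
  exact h1

end H17V
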