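import Pool.Agent.Lib.H17V.T0
import Pool.Agent.Lib.H17T.N5

set_option autoImplicit false

/-!
# H17V: the Einstein tensor on the null vectors (port of H17T/N5)
-/

open MeasureTheory Filter Topology Set
open scoped ContDiff

namespace H17V

open H17T
open Pool.Agent.Lib.PenroseSph (E3 Tens S2 sm)

variable {R₀ : ℝ}

theorem n5_Fh {F : E4 → ℝ} {k : ℝ → ℝ} {r : ℝ × ℝ → ℝ} {f : E3 → ℝ} (hS : Slice R₀ F k r f) {q : ℝ × ℝ}
    (hq : q ∈ QQ R₀ f) (n : S2) (e1 e2 : E3) : ContDiffAt ℝ ∞ (fun q' => F (SM n e1 e2 q')) (bp q) := by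
  have h1 : ContDiffAt ℝ ∞ F (SM n e1 e2 (bp q)) := by
    rw [SM_bp]
    exact hS.F_smooth _ (ev_near hS.nonneg hq n).1
  exact h1.comp (bp q) (SM_smooth n e1 e2).contDiffAt

/-- chunk N5A: partial derivatives of the diagonal entries at the base point -/
theorem dd_jet {F : E4 → ℝ} {k : ℝ → ℝ} {r : ℝ × ℝ → ℝ} {f : E3 → ℝ} (hS : Slice R₀ F k r f) {q : ℝ × ℝ}
    (hq : q ∈ QQ R₀ f) (n : S2) {e1 e2 : E3} (h : Frame n e1 e2) :
    (∀ i, ContDiffAt ℝ 2 (fun q' => dd F k r n e1 e2 q' i) (bp q)) ∧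
    (∀ a, H31R.pd a (fun q' => dd F k r n e1 e2 q' 1) (bp q)
      = H31R.pd a (fun q' => F (SM n e1 e2 q')) (bp q) * k q.2 ^ 2
        + (if a = 1 then F (ev q n) * (2 * k q.2 * deriv k q.2) else 0)) ∧
    (∀ a, H31R.pd a (fun q' => dd F k r n e1 e2 q' 2) (bp q)
      = if a = 0 then 8 * r q * fderiv ℝ r q (1, 0) else if a = 1 then 8 * r q * fderiv ℝ r q (0, 1) else 0) ∧
    H31R.pd 0 (H31R.pd 0 fun q' => dd F k r n e1 e2 q' 1) (bp q)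
      = H31R.pd 0 (H31R.pd 0 fun q' => F (SM n e1 e2 q')) (bp q) * k q.2 ^ 2 ∧
    H31R.pd 2 (H31R.pd 2 fun q' => dd F k r n e1 e2 q' 1) (bp q)
      = H31R.pd 2 (H31R.pd 2 fun q' => F (SM n e1 e2 q')) (bp q) * k q.2 ^ 2 ∧
    H31R.pd 3 (H31R.pd 3 fun q' => dd F k r n e1 e2 q' 1) (bp q)
      = H31R.pd 3 (H31R.pd 3 fun q' => F (SM n e1 e2 q')) (bp q) * k q.2 ^ 2 ∧
    H31R.pd 0 (H31R.pd 0 fun q' => dd F k r n e1 e2 q' 2) (bp q)
      = 8 * (fderiv ℝ r q (1, 0) ^ 2 + r q * fderiv ℝ (fun q => fderiv ℝ r q (1, 0)) q (1, 0)) ∧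
    H31R.pd 0 (H31R.pd 1 fun q' => dd F k r n e1 e2 q' 2) (bp q)
      = 8 * (fderiv ℝ r q (1, 0) * fderiv ℝ r q (0, 1)
          + r q * fderiv ℝ (fun q => fderiv ℝ r q (1, 0)) q (0, 1)) ∧
    H31R.pd 1 (H31R.pd 1 fun q' => dd F k r n e1 e2 q' 2) (bp q)
      = 8 * (fderiv ℝ r q (0, 1) ^ 2 + r q * fderiv ℝ (fun q => fderiv ℝ r q (0, 1)) q (0, 1)) ∧
    H31R.pd 2 (H31R.pd 2 fun q' => dd F k r n e1 e2 q' 2) (bp q) = -(16 * r q ^ 2) ∧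
    H31R.pd 3 (H31R.pd 3 fun q' => dd F k r n e1 e2 q' 2) (bp q) = -(16 * r q ^ 2) ∧
    H31R.pd 3 (H31R.pd 3 fun q' => dd F k r n e1 e2 q' 3) (bp q) = -(16 * r q ^ 2) := by
  have hF := n5_Fh hS hq n e1 e2
  have hF2 : ContDiffAt ℝ 2 (fun q' => F (SM n e1 e2 q')) (bp q) := hF.of_le (WithTop.coe_le_coe.2 le_top)
  have dF := hF2.differentiableAt (by simp : (2 : WithTop ℕ∞) ≠ 0)
  have hk := hS.k_smooth q.2 (QQ_lt hq)
  obtain ⟨K1, K2, K3⟩ := n5_K hk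
  have dK := K1.differentiableAt (by simp : (2 : WithTop ℕ∞) ≠ 0)
  obtain ⟨W1, W2, W3, W4, W5, W6, W7⟩ := n5_W (slice_r hS hq).1
  have hb : (fun y : E4 => k (y 1) ^ 2) (bp q) = k q.2 ^ 2 := rfl
  have hFb : (fun q' => F (SM n e1 e2 q')) (bp q) = F (ev q n) := by
    show F (SM n e1 e2 (bp q)) = _
    rw [SM_bp]
  have E1 : (fun q' => dd F k r n e1 e2 q' 1) = fun y => (fun q' => F (SM n e1 e2 q')) y * (fun y : E4 => k (y 1) ^ 2) y := rfl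
  have E2 : (fun q' => dd F k r n e1 e2 q' 2) = fun y : E4 => r (y 0, y 1) ^ 2 * n5_s y := rfl
  have E3' : (fun q' => dd F k r n e1 e2 q' 3) = fun y : E4 => r (y 0, y 1) ^ 2 * n5_s y := rfl
  have hdd : ∀ a : Fin 4, a ≠ 1 → H31R.pd a (H31R.pd a fun q' => dd F k r n e1 e2 q' 1) (bp q)
      = H31R.pd a (H31R.pd a fun q' => F (SM n e1 e2 q')) (bp q) * k q.2 ^ 2 := by
    intro a ha
    rw [E1, n5_mul2 hF2 K1, K3 a ha, K2 a, if_neg ha]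
    have hb' : k ((bp q) 1) = k q.2 := rfl
    simp only [hb']
    ring
  refine ⟨?_, ?_, ?_, hdd 0 (by decide), hdd 2 (by decide), hdd 3 (by decide), ?_, ?_, ?_, ?_, ?_, ?_⟩
  · intro i
    fin_cases i
    · exact hF2.neg
    · exact hF2.mul K1
    · exact W1
    · exact W1
  · intro a
    rw [E1, H31R.N_pd_mul dF dK a, K2 a]
    have hb' : k ((bp q) 1) = k q.2 := rfl
    simp only [hb', SM_bp]
    split_ifs <;> ring
  · intro a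
    rw [E2]
    exact W2 a
  · rw [E2]
    exact W3
  · rw [E2]
    exact W4
  · rw [E2]
    exact W5
  · rw [E2]
    exact W6
  · rw [E2]
    exact W7
  · rw [E3']
    exact W7

/-- chunk N5B: the Einstein tensor on the null vectors -/
theorem ein_null {F : E4 → ℝ} {k : ℝ → ℝ} {r : ℝ × ℝ → ℝ} {f : E3 → ℝ} (hS : Slice R₀ F k r f) {q : ℝ × ℝ}
    (hq : q ∈ QQ R₀ f) (n : S2) {e1 e2 : E3} (h : Frame n e1 e2) :
    ∑ a, ∑ b, ein (dm F k r n e1 e2) a b (bp q) * ![1 / 2, 1 / (2 * k q.2), 0, 0] a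
        * ![1 / 2, 1 / (2 * k q.2), 0, 0] b
      = -(2 / r q) * (Da k (Da k r) q
        - (H31R.pd 0 (fun q' => F (SM n e1 e2 q')) (bp q) + H31R.pd 1 (fun q' => F (SM n e1 e2 q')) (bp q) / k q.2)
          / 2 / F (ev q n) * Da k r q) ∧
    ∑ a, ∑ b, ein (dm F k r n e1 e2) a b (bp q) * ![1 / 2, -(1 / (2 * k q.2)), 0, 0] a
        * ![1 / 2, -(1 / (2 * k q.2)), 0, 0] b
      = -(2 / r q) * (Db k (Db k r) q
        - (-(H31R.pd 0 (fun q' => F (SM n e1 e2 q')) (bp q)) + H31R.pd 1 (fun q' => F (SM n e1 e2 q')) (bp q) / k q.2)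
          / 2 / F (ev q n) * Db k r q) ∧
    2 * r q ^ 2 / F (ev q n) * ∑ a, ∑ b, ein (dm F k r n e1 e2) a b (bp q) * ![1 / 2, 1 / (2 * k q.2), 0, 0] a
        * ![1 / 2, -(1 / (2 * k q.2)), 0, 0] b
      = 1 - 4 / F (ev q n) * (r q * Da k (Db k r) q + Da k r q * Db k r q)
        - 1 / 8 * (H31R.pd 2 (H31R.pd 2 fun q' => F (SM n e1 e2 q')) (bp q) / F (ev q n)
            - (H31R.pd 2 (fun q' => F (SM n e1 e2 q')) (bp q) / F (ev q n)) ^ 2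
          + H31R.pd 3 (H31R.pd 3 fun q' => F (SM n e1 e2 q')) (bp q) / F (ev q n)
            - (H31R.pd 3 (fun q' => F (SM n e1 e2 q')) (bp q) / F (ev q n)) ^ 2)
        - 1 / 16 * ((H31R.pd 2 (fun q' => F (SM n e1 e2 q')) (bp q) / F (ev q n)) ^ 2
          + (H31R.pd 3 (fun q' => F (SM n e1 e2 q')) (bp q) / F (ev q n)) ^ 2) := by
  obtain ⟨J1, J2, J3, J4, J5, J6, J7, J8, J9, J10, J11, J12⟩ := dd_jet hS hq n h
  have hk0 := hS.k_pos q.2 (QQ_lt hq)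
  obtain ⟨hr, hr0⟩ := slice_r hS hq
  obtain ⟨D1, D2, D3⟩ := DD_jet (hS.k_smooth q.2 (QQ_lt hq)) hk0 hr
  have hf0 : 0 < F (ev q n) := hS.F_pos _ (ev_near hS.nonneg hq n).1
  have hu0 : ∀ i, H31R.pd i (fun q' => dd F k r n e1 e2 q' 0) (bp q) = -H31R.pd i (fun q' => F (SM n e1 e2 q')) (bp q) :=
    fun i => H31R.N_pd_neg i
  have hs0 : ∀ i, H31R.pd i (H31R.pd i fun q' => dd F k r n e1 e2 q' 0) (bp q) =
      -H31R.pd i (H31R.pd i fun q' => F (SM n e1 e2 q')) (bp q) := by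
    intro i
    have e : (H31R.pd i fun q' => dd F k r n e1 e2 q' 0) = fun y => -H31R.pd i (fun q' => F (SM n e1 e2 q')) y :=
      funext fun y => H31R.N_pd_neg i
    rw [e]
    exact H31R.N_pd_neg i
  have hdd : dd F k r n e1 e2 (bp q) 0 = -F (ev q n) := by
    show -F (SM n e1 e2 (bp q)) = _
    rw [SM_bp]
  have hd1 : dd F k r n e1 e2 (bp q) 1 = F (ev q n) * k q.2 ^ 2 := by
    show F (SM n e1 e2 (bp q)) * k q.2 ^ 2 = _
    rw [SM_bp]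
  have hd2 : dd F k r n e1 e2 (bp q) 2 = 4 * r q ^ 2 := by
    show r (q.1, q.2) ^ 2 * (4 * (1 + (0:ℝ) ^ 2 + (0:ℝ) ^ 2)⁻¹ ^ 2) = _
    norm_num
    ring
  have hs := n4_symm (J1 2) 1 0
  obtain ⟨K0, K1, K2, K3, K4⟩ := n5_ric J1 (fun i => H31R.pd i (fun q' => F (SM n e1 e2 q')) (bp q))
    (fun i => H31R.pd i (H31R.pd i fun q' => F (SM n e1 e2 q')) (bp q)) (F (ev q n)) (k q.2) (deriv k q.2) (r q)
    (fderiv ℝ r q (1, 0)) (fderiv ℝ r q (0, 1)) (fderiv ℝ (fun q => fderiv ℝ r q (1, 0)) q (1, 0))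
    (fderiv ℝ (fun q => fderiv ℝ r q (1, 0)) q (0, 1)) (fderiv ℝ (fun q => fderiv ℝ r q (0, 1)) q (0, 1))
    hf0.ne' hk0.ne' hr0.ne' hdd hd1 hd2 hd2 hu0 J2 J3 J3 hs0 J4 J5 J6 J7 J8 (hs.trans J8) J9 J11 J7 J8 (hs.trans J8) J9 J10
  have hDa : Da k r q = fderiv ℝ r q (1, 0) / 2 + fderiv ℝ r q (0, 1) / (2 * k q.2) := by
    show fderiv ℝ r q (1 / 2, 1 / (2 * k q.2)) = _
    rw [n5_split (1 / 2)]
    ring
  have hDb : Db k r q = -(fderiv ℝ r q (1, 0) / 2) + fderiv ℝ r q (0, 1) / (2 * k q.2) := by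
    show fderiv ℝ r q (-(1 / 2), 1 / (2 * k q.2)) = _
    rw [n5_split (-(1 / 2))]
    ring
  have hk2 := hk0.ne'
  have hf2 := hf0.ne'
  have hr2 := hr0.ne'
  have hE := n5_ein (d := dd F k r n e1 e2) (x := bp q) K0
  have hdm : dm F k r n e1 e2 = fun q => Matrix.diagonal (dd F k r n e1 e2 q) := rfl
  rw [hdm, hE, hE, hE, D1, D2, D3, hDa, hDb, hdd, hd1, hd2, show dd F k r n e1 e2 (bp q) 3 = 4 * r q ^ 2 from hd2]
  refine ⟨?_, ?_, ?_⟩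
  · rw [← K2, ← K1]
    field_simp
    ring
  · rw [← K3, ← K1]
    field_simp
    ring
  · rw [← K4, ← K1]
    field_simp
    ring

end H17V
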