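import Pool.Agent.Lib.H17V.N3
import Pool.Agent.Lib.H17V.N5
import Pool.Agent.Lib.H17T.N8

set_option autoImplicit false

/-!
# H17V: the reduced inequalities (port of H17T/N8)
-/

open MeasureTheory Filter Topology Set
open scoped ContDiff

namespace H17V

open H17T
open Pool.Agent.Lib.PenroseSph (E3 Tens S2 sm)

variable {R₀ : ℝ}

theorem n8_pos {F : E4 → ℝ} {k : ℝ → ℝ} {r : ℝ × ℝ → ℝ} {f : E3 → ℝ} (hS : Slice R₀ F k r f) {q : ℝ × ℝ}
    (hq : q ∈ QQ R₀ f) (n : S2) : 0 < q.2 ∧ 0 < k q.2 ∧ 0 < F (ev q n) ∧ 0 < r q ∧ ContDiffAt ℝ ∞ F (ev q n) := by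
  obtain ⟨h1, h2, h3, h4⟩ := ev_near hS.nonneg hq n
  have hq2 : 0 < q.2 := lt_of_le_of_lt hS.nonneg (QQ_lt hq)
  refine ⟨hq2, hS.k_pos _ (QQ_lt hq), hS.F_pos _ h1, ?_, hS.F_smooth _ h1⟩
  have := hS.r_pos _ h1
  rwa [h3, h4] at this

theorem red_ra {F : E4 → ℝ} {k : ℝ → ℝ} {r : ℝ × ℝ → ℝ} {f : E3 → ℝ} (hS : Slice R₀ F k r f) {q : ℝ × ℝ}
    (hq : q ∈ QQ R₀ f) (n : S2) :
    Da k (Da k r) q * F (ev q n) ≤ Da k (fun q => F (ev q n)) q * Da k r q ∧
      Db k (Db k r) q * F (ev q n) ≤ Db k (fun q => F (ev q n)) q * Db k r q := by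
  obtain ⟨hq2, hk, hF, hr, hFs⟩ := n8_pos hS hq n
  obtain ⟨e1, e2, h⟩ := exists_frame n
  have hdec := dec_pull hS hq n h
  have hc1 := n8_quad F k r n e1 e2 q hk.ne' (Or.inl rfl)
  have hc2 := n8_quad F k r n e1 e2 q hk.ne' (Or.inr rfl)
  obtain ⟨he1, he2, -⟩ := ein_null hS hq n h
  obtain ⟨hr1, hr2⟩ := fh_rad (e1 := e1) (e2 := e2) hFs k
  have hp1 := hdec _ _ hc1 hc1
  have hp2 := hdec _ _ hc2 hc2
  rw [he1, hr1] at hp1
  rw [he2, hr2] at hp2
  have key : ∀ A B D : ℝ, 0 ≤ -(2 / r q) * (A - B / F (ev q n) * D) → A * F (ev q n) ≤ B * D := by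
    intro A B D h
    have h1 : 0 < 2 / r q := by positivity
    have h2 : A - B / F (ev q n) * D ≤ 0 := by
      by_contra hcon
      push Not at hcon
      have := mul_pos h1 hcon
      linarith
    have h3 : A ≤ B * D / F (ev q n) := by
      have : B / F (ev q n) * D = B * D / F (ev q n) := by ring
      linarith
    exact (le_div_iff₀ hF).1 h3
  exact ⟨key _ _ _ hp1, key _ _ _ hp2⟩

theorem red_rc {F : E4 → ℝ} {k : ℝ → ℝ} {r : ℝ × ℝ → ℝ} {f : E3 → ℝ} (hS : Slice R₀ F k r f) {q : ℝ × ℝ}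
    (hq : q ∈ QQ R₀ f) : 4 * mF F q * (r q * Da k (Db k r) q + Da k r q * Db k r q) ≤ 1 := by
  have hpos := n8_pos hS hq
  have hn : Nonempty S2 := by
    refine ⟨⟨EuclideanSpace.single 0 1, ?_⟩⟩
    simp
  obtain ⟨n0⟩ := hn
  have hq2 := (hpos n0).1
  set c : ℝ := r q * Da k (Db k r) q + Da k r q * Db k r q with hc
  set L : E3 → ℝ := fun x => Real.log (F (pt q.1 x)) with hL
  have hLs : ∀ n : S2, ContDiffAt ℝ ∞ L (q.2 • (n : E3)) := by
    intro n
    have h1 : ContDiffAt ℝ ∞ (fun x : E3 => ((q.1, x) : ℝ × E3)) (q.2 • (n : E3)) :=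
      contDiffAt_const.prodMk contDiffAt_id
    have h2 : ContDiffAt ℝ ∞ (fun x : E3 => pt q.1 x) (q.2 • (n : E3)) :=
      ContDiffAt.comp (g := fun q : ℝ × E3 => pt q.1 q.2) (q.2 • (n : E3)) pt_smooth.contDiffAt h1
    have h3 : ContDiffAt ℝ ∞ (fun x : E3 => F (pt q.1 x)) (q.2 • (n : E3)) :=
      ContDiffAt.comp (g := F) (q.2 • (n : E3)) (hpos n).2.2.2.2 h2
    exact h3.log (hpos n).2.2.1.ne'
  have hR1 : ∀ (i : Fin 3) (n : S2), ContDiffAt ℝ ∞ (rotd i L) (q.2 • (n : E3)) := fun i n => rotd_smooth (hLs n) i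
  have hR2 : ∀ (i : Fin 3) (n : S2), ContDiffAt ℝ ∞ (rotd i (rotd i L)) (q.2 • (n : E3)) := fun i n =>
    rotd_smooth (hR1 i n) i
  have hint0 : ∀ i : Fin 3, ∫ n : S2, rotd i (rotd i L) (q.2 • (n : E3)) ∂sm = 0 := fun i =>
    int_rotd hq2 (fun n => (hR1 i n).of_le (by norm_cast)) i
  have hcont : ∀ i : Fin 3, Continuous fun n : S2 => rotd i (rotd i L) (q.2 • (n : E3)) := by
    intro i
    rw [continuous_iff_continuousAt]
    intro n
    have h0 : Continuous (fun n : S2 => q.2 • (n : E3)) := by fun_prop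
    have h1 : ContinuousAt (fun n : S2 => q.2 • (n : E3)) n := h0.continuousAt
    exact ContinuousAt.comp (g := rotd i (rotd i L)) (hR2 i n).continuousAt h1
  have hcF : Continuous fun n : S2 => (F (ev q n))⁻¹ :=
    (mF_cont (fun n => (hpos n).2.2.2.2) (fun n => (hpos n).2.2.1) 0).2
  have hpt : ∀ n : S2, 4 * c * (F (ev q n))⁻¹ ≤ 1 - 1 / 2 * ∑ i, rotd i (rotd i L) (q.2 • (n : E3)) := by
    intro n
    obtain ⟨_, hk, hF, hr, hFs⟩ := hpos n
    obtain ⟨e1, e2, h⟩ := exists_frame n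
    have hdec := dec_pull hS hq n h
    have hc1 := n8_quad F k r n e1 e2 q hk.ne' (Or.inl rfl)
    have hc2 := n8_quad F k r n e1 e2 q hk.ne' (Or.inr rfl)
    obtain ⟨-, -, he3⟩ := ein_null hS hq n h
    have hrot := fh_rot h hq2 hFs hF
    have hp := hdec _ _ hc1 hc2
    have hp2 : 0 ≤ 2 * r q ^ 2 / F (ev q n) * ∑ a, ∑ b, ein (dm F k r n e1 e2) a b (bp q)
        * ![1 / 2, 1 / (2 * k q.2), 0, 0] a * ![1 / 2, -(1 / (2 * k q.2)), 0, 0] b :=
      mul_nonneg (by positivity) hp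
    rw [he3] at hp2
    rw [hL, hrot, ← sub_nonneg]
    have h1 := sq_nonneg (H31R.pd 2 (fun q' => F (SM n e1 e2 q')) (bp q) / F (ev q n))
    have h2 := sq_nonneg (H31R.pd 3 (fun q' => F (SM n e1 e2 q')) (bp q) / F (ev q n))
    have h3 : 4 / F (ev q n) * (r q * Da k (Db k r) q + Da k r q * Db k r q) = 4 * c * (F (ev q n))⁻¹ := by
      rw [hc]
      ring
    rw [h3] at hp2
    linarith
  have hI1 : Integrable (fun n : S2 => 4 * c * (F (ev q n))⁻¹) sm :=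
    Pool.Agent.Lib.PenroseSph.integrable_S2 (continuous_const.mul hcF)
  have hcs : Continuous fun n : S2 => ∑ i, rotd i (rotd i L) (q.2 • (n : E3)) :=
    continuous_finsetSum _ fun i _ => hcont i
  have hI2 : Integrable (fun n : S2 => 1 - 1 / 2 * ∑ i, rotd i (rotd i L) (q.2 • (n : E3))) sm :=
    Pool.Agent.Lib.PenroseSph.integrable_S2 (continuous_const.sub (continuous_const.mul hcs))
  have hmono := integral_mono hI1 hI2 hpt
  have hI3 : Integrable (fun n : S2 => 1 / 2 * ∑ i, rotd i (rotd i L) (q.2 • (n : E3))) sm :=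
    Pool.Agent.Lib.PenroseSph.integrable_S2 (continuous_const.mul hcs)
  have hI4 : Integrable (fun _ : S2 => (1 : ℝ)) sm := Pool.Agent.Lib.PenroseSph.integrable_S2 continuous_const
  rw [integral_const_mul, integral_sub hI4 hI3, integral_const_mul,
    integral_finsetSum _ (fun i _ => Pool.Agent.Lib.PenroseSph.integrable_S2 (hcont i)), integral_const,
    Pool.Agent.Lib.PenroseSph.sm_univ] at hmono
  simp only [hint0, Finset.sum_const_zero, mul_zero, sub_zero, smul_eq_mul, mul_one] at hmono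
  have hpi : 0 < 4 * Real.pi := by positivity
  unfold mF
  have h4 : 4 * ((4 * Real.pi)⁻¹ * ∫ n : S2, (F (ev q n))⁻¹ ∂sm) * c
      = (4 * Real.pi)⁻¹ * (4 * c * ∫ n : S2, (F (ev q n))⁻¹ ∂sm) := by ring
  rw [h4]
  calc (4 * Real.pi)⁻¹ * (4 * c * ∫ n : S2, (F (ev q n))⁻¹ ∂sm) ≤ (4 * Real.pi)⁻¹ * (4 * Real.pi) :=
        mul_le_mul_of_nonneg_left hmono (by positivity)
    _ = 1 := inv_mul_cancel₀ hpi.ne'

/-- Assembly. -/
theorem red_of_slice {F : E4 → ℝ} {k : ℝ → ℝ} {r : ℝ × ℝ → ℝ} {f : E3 → ℝ} (hS : Slice R₀ F k r f) :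
    Red R₀ F k r f := by
  have hev : ∀ q ∈ QQ R₀ f, ∀ n : S2, (q.1, q.2) = ((ev q n) 0, ‖pos (ev q n)‖) := by
    intro q hq n
    obtain ⟨-, -, h3, h4⟩ := ev_near hS.nonneg hq n
    rw [h3, h4]
  have hn : Nonempty S2 := by
    refine ⟨⟨EuclideanSpace.single 0 1, ?_⟩⟩
    simp
  exact
    { nonneg := hS.nonneg
      F_smooth := fun q hq n => hS.F_smooth _ (ev_near hS.nonneg hq n).1
      F_pos := fun q hq n => hS.F_pos _ (ev_near hS.nonneg hq n).1
      k_smooth := hS.k_smooth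
      k_pos := hS.k_pos
      r_smooth := fun q hq => by
        obtain ⟨n⟩ := hn
        have h := hS.r_smooth _ (ev_near hS.nonneg hq n).1
        rwa [← hev q hq n] at h
      r_pos := fun q hq => by
        obtain ⟨n⟩ := hn
        have h := hS.r_pos _ (ev_near hS.nonneg hq n).1
        rwa [← hev q hq n] at h
      f_smooth := hS.f_smooth
      slope := fun x hx => slope_of_spacelike hS hx
      ra := fun q hq n => (red_ra hS hq n).1
      rb := fun q hq n => (red_ra hS hq n).2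
      rc := fun q hq => red_rc hS hq }

end H17V
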