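import Pool.Agent.Lib.H17V.Defs
import Pool.Agent.Lib.H17T.Red

set_option autoImplicit false

/-!
# H17V: the reduced problem

As `H17T/Red.lean`, for radii `> R₀`. The functions `qq`, `ev`, `Da`, `Db`, `mF`, `mass` are those of `H17T/Red.lean`.
-/

open MeasureTheory Filter Topology Set
open scoped ContDiff

namespace H17V

open H17T
open Pool.Agent.Lib.PenroseSph (E3 Tens S2 sm pd)

/-- The points of the `(T, ρ)` plane, `ρ > R₀`, which are met by the slice. -/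
def QQ (R₀ : ℝ) (f : E3 → ℝ) : Set (ℝ × ℝ) := {q | ∃ y : E3, R₀ < ‖y‖ ∧ qq f y = q}

/-- The function `X`, a primitive of `k` on `(R₀, ∞)`. -/
noncomputable def XX (R₀ : ℝ) (k : ℝ → ℝ) (ρ : ℝ) : ℝ := ∫ t in (R₀ + 1)..ρ, k t

/-- `NN R₀ 1 = a = T + X` and `NN R₀ (-1) = b = X - T` on the slice. -/
noncomputable def NN (R₀ ε : ℝ) (k : ℝ → ℝ) (f : E3 → ℝ) (x : E3) : ℝ := ε * f x + XX R₀ k ‖x‖

/-- The reduced inequalities. -/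
structure Red (R₀ : ℝ) (F : E4 → ℝ) (k : ℝ → ℝ) (r : ℝ × ℝ → ℝ) (f : E3 → ℝ) : Prop where
  nonneg : 0 ≤ R₀
  F_smooth : ∀ q ∈ QQ R₀ f, ∀ n : S2, ContDiffAt ℝ ∞ F (ev q n)
  F_pos : ∀ q ∈ QQ R₀ f, ∀ n : S2, 0 < F (ev q n)
  k_smooth : ∀ t : ℝ, R₀ < t → ContDiffAt ℝ ∞ k t
  k_pos : ∀ t : ℝ, R₀ < t → 0 < k t
  r_smooth : ∀ q ∈ QQ R₀ f, ContDiffAt ℝ ∞ r q
  r_pos : ∀ q ∈ QQ R₀ f, 0 < r q
  f_smooth : ∀ x : E3, R₀ < ‖x‖ → ContDiffAt ℝ ∞ f x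
  slope : ∀ x : E3, R₀ < ‖x‖ → |fderiv ℝ f x x| < k ‖x‖ * ‖x‖
  ra : ∀ q ∈ QQ R₀ f, ∀ n : S2, Da k (Da k r) q * F (ev q n) ≤ Da k (fun q => F (ev q n)) q * Da k r q
  rb : ∀ q ∈ QQ R₀ f, ∀ n : S2, Db k (Db k r) q * F (ev q n) ≤ Db k (fun q => F (ev q n)) q * Db k r q
  rc : ∀ q ∈ QQ R₀ f, 4 * mF F q * (r q * Da k (Db k r) q + Da k r q * Db k r q) ≤ 1

/-- Behaviour at infinity. -/
structure Ends (R₀ : ℝ) (F : E4 → ℝ) (k : ℝ → ℝ) (r : ℝ × ℝ → ℝ) (f : E3 → ℝ) (E : ℝ) : Prop where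
  pos : ∃ R : ℝ, ∀ x : E3, R ≤ ‖x‖ → 0 < Da k r (qq f x) ∧ 0 < Db k r (qq f x)
  grow : ∀ M : ℝ, ∃ R : ℝ, ∀ x : E3, R ≤ ‖x‖ → M ≤ NN R₀ 1 k f x ∧ M ≤ NN R₀ (-1) k f x
  lim : ∀ n : S2, Tendsto (fun s : ℝ => mass F k r (qq f (s • (n : E3)))) atTop (𝓝 E)

/-- There is a smooth radial graph which encloses `Ω`, with `r ≤ 2 E + δ` and with induced metric at most `r² σ`. -/
def Env (R₀ : ℝ) (k : ℝ → ℝ) (r : ℝ × ℝ → ℝ) (f : E3 → ℝ) (Ω : Set E3) (E δ : ℝ) : Prop :=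
  ∃ s : E3 → ℝ, RadialGraph s ∧ (∀ x ∈ Ω, R₀ < ‖x‖ → ‖x‖ < s x) ∧ (∀ x : E3, x ≠ 0 → R₀ < s x) ∧
    ∀ n : S2, r (qq f (s n • (n : E3))) ≤ 2 * E + δ ∧
    ∃ l m : ℝ, 0 ≤ l ∧ 0 ≤ m ∧ 0 < l + m ∧ ∀ i,
      l * fderiv ℝ (NN R₀ 1 k f) (s n • (n : E3)) (gtan s n i)
        + m * fderiv ℝ (NN R₀ (-1) k f) (s n • (n : E3)) (gtan s n i) = 0

end H17V
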