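import Pool.Agent.Lib.H17V.Red
import Pool.Agent.Lib.H17T.T0

set_option autoImplicit false

/-!
# H17V: elementary facts on the slice
-/

open MeasureTheory Filter Topology Set
open scoped ContDiff

namespace H17V

open H17T
open Pool.Agent.Lib.PenroseSph (E3 Tens S2 sm)

/-- The slice passes through its own events. -/
theorem mem_near {R₀ : ℝ} {f : E3 → ℝ} {x : E3} (hx : R₀ < ‖x‖) : pt (f x) x ∈ Near R₀ f := by
  refine ⟨?_, x, ?_, ?_⟩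
  · rw [pos_pt]
    exact hx
  · rw [pos_pt]
  · rw [pt_zero]

theorem mem_QQ {R₀ : ℝ} {f : E3 → ℝ} {x : E3} (hx : R₀ < ‖x‖) : qq f x ∈ QQ R₀ f := ⟨x, hx, rfl⟩

theorem QQ_lt {R₀ : ℝ} {f : E3 → ℝ} {q : ℝ × ℝ} (hq : q ∈ QQ R₀ f) : R₀ < q.2 := by
  obtain ⟨y, hy, rfl⟩ := hq
  exact hy

theorem ne_of_R {R₀ : ℝ} (h0 : 0 ≤ R₀) {x : E3} (hx : R₀ < ‖x‖) : x ≠ 0 := norm_pos_iff.1 (lt_of_le_of_lt h0 hx)

theorem ev_near {R₀ : ℝ} (h0 : 0 ≤ R₀) {f : E3 → ℝ} {q : ℝ × ℝ} (hq : q ∈ QQ R₀ f) (n : S2) :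
    ev q n ∈ Near R₀ f ∧ pos (ev q n) = q.2 • (n : E3) ∧ ‖pos (ev q n)‖ = q.2 ∧ ev q n 0 = q.1 := by
  have hlt := QQ_lt hq
  obtain ⟨y, hy, hq⟩ := hq
  have hn : ‖(n : E3)‖ = 1 := by
    have := n.2
    rwa [mem_sphere_zero_iff_norm] at this
  have h1 : pos (ev q n) = q.2 • (n : E3) := pos_pt _ _
  have h2 : q.2 = ‖y‖ := by rw [← hq]; rfl
  have h2' : 0 < q.2 := lt_of_le_of_lt h0 hlt
  have h3 : ‖pos (ev q n)‖ = q.2 := by
    rw [h1, norm_smul, hn, mul_one, Real.norm_of_nonneg h2'.le]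
  have h4 : ev q n 0 = q.1 := pt_zero _ _
  refine ⟨⟨?_, y, ?_, ?_⟩, h1, h3, h4⟩
  · rw [h3]
    exact hlt
  · rw [h3, h2]
  · rw [h4, ← hq]
    rfl

theorem slice_r {R₀ : ℝ} {F : E4 → ℝ} {k : ℝ → ℝ} {r : ℝ × ℝ → ℝ} {f : E3 → ℝ} (hS : Slice R₀ F k r f) {q : ℝ × ℝ}
    (hq : q ∈ QQ R₀ f) : ContDiffAt ℝ ∞ r q ∧ 0 < r q := by
  obtain ⟨y, hy, rfl⟩ := hq
  have h1 := mem_near (f := f) hy
  have h2 := hS.r_smooth _ h1
  have h3 := hS.r_pos _ h1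
  rw [pos_pt, pt_zero] at h2 h3
  exact ⟨h2, h3⟩

/-- The slope condition follows from spacelikeness, by the vector `ξ = x`. -/
theorem slope_of_spacelike {R₀ : ℝ} {F : E4 → ℝ} {k : ℝ → ℝ} {r : ℝ × ℝ → ℝ} {f : E3 → ℝ} (hS : Slice R₀ F k r f)
    {x : E3} (hx : R₀ < ‖x‖) : |fderiv ℝ f x x| < k ‖x‖ * ‖x‖ := by
  have hn : 0 < ‖x‖ := lt_of_le_of_lt hS.nonneg hx
  have hξ : (fun i : Fin 3 => x i) ≠ 0 := by
    intro h
    apply norm_pos_iff.1 hn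
    ext i
    exact congrFun h i
  have h := hS.spacelike x hx (fun i => x i) hξ
  have hlin : fderiv ℝ f x x = x 0 * Pool.Agent.Lib.PenroseSph.pd 0 f x + x 1 * Pool.Agent.Lib.PenroseSph.pd 1 f x
      + x 2 * Pool.Agent.Lib.PenroseSph.pd 2 f x := by
    have e : x = x 0 • EuclideanSpace.single (0 : Fin 3) (1 : ℝ) + x 1 • EuclideanSpace.single (1 : Fin 3) (1 : ℝ)
        + x 2 • EuclideanSpace.single (2 : Fin 3) (1 : ℝ) := by
      ext i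
      fin_cases i <;> simp
    have h2 : ∀ v : E3, v = x → fderiv ℝ f x v = x 0 * Pool.Agent.Lib.PenroseSph.pd 0 f x + x 1 * Pool.Agent.Lib.PenroseSph.pd 1 f x
      + x 2 * Pool.Agent.Lib.PenroseSph.pd 2 f x := by
      intro v hv
      rw [← hv] at e
      rw [e, map_add, map_add, map_smul, map_smul, map_smul]
      rw [hv]
      rfl
    exact h2 x rfl
  have key : ∑ i, ∑ j, slice (stMetric F k r) f x i j * x i * x j
      = ∑ a, ∑ b, stMetric F k r (pt (f x) x) a b * (Fin.cons (fderiv ℝ f x x) (fun i => x i) : Fin 4 → ℝ) a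
        * (Fin.cons (fderiv ℝ f x x) (fun i => x i) : Fin 4 → ℝ) b := by
    rw [hlin]
    exact t0_sum (stMetric F k r (pt (f x) x)) (fun i => Pool.Agent.Lib.PenroseSph.pd i f x) (fun i => x i)
  rw [key, stMetric_quad, pos_pt, pt_zero] at h
  have hnear := mem_near (f := f) hx
  have hF := hS.F_pos _ hnear
  have hk := hS.k_pos ‖x‖ hx
  have hsq := t0_norm_sq x
  have h1 : ∑ i : Fin 3, x i / ‖x‖ * (Fin.cons (fderiv ℝ f x x) (fun i => x i) : Fin 4 → ℝ) i.succ = ‖x‖ := by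
    simp only [Fin.cons_succ, Fin.sum_univ_three]
    field_simp
    linarith
  have h2 : ∑ i : Fin 3, (Fin.cons (fderiv ℝ f x x) (fun i => x i) : Fin 4 → ℝ) i.succ ^ 2 = ‖x‖ ^ 2 := by
    simp only [Fin.cons_succ, Fin.sum_univ_three]
    linarith
  rw [h1, h2, sub_self, mul_zero, add_zero, Fin.cons_zero] at h
  have h3 : fderiv ℝ f x x ^ 2 < (k ‖x‖ * ‖x‖) ^ 2 := by
    have h4 : 0 < F (pt (f x) x) * ((k ‖x‖ * ‖x‖) ^ 2 - fderiv ℝ f x x ^ 2) := by nlinarith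
    have := (mul_pos_iff_of_pos_left hF).mp h4
    linarith
  exact abs_lt_of_sq_lt_sq h3 (by positivity)

end H17V
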