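import Pool.Agent.Lib.H17V.A4
import Pool.Agent.Lib.H17V.D4
import Pool.Agent.Lib.H17V.E3
import Pool.Agent.Lib.H17V.E4
import Pool.Agent.Lib.H17V.F1
import Pool.Agent.Lib.H17V.N8
import Pool.Agent.Lib.H17V.S1
import Pool.Agent.Lib.H17V.T8
import Pool.Agent.Lib.H17T.T9

set_option autoImplicit false

/-!
# H17V: assembly of the main theorem
-/

open MeasureTheory Filter Topology Set
open scoped ContDiff

namespace H17V

open H17T
open Pool.Agent.Lib.PenroseSph (E3 Tens S2 sm pd gradNorm normal meanCurv trLevel admFlux admMom fluxDensity momDensity trg DefFun)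

/-- The exterior region is open. -/
theorem ext_nhds {R₀ : ℝ} {x : E3} (hx : R₀ < ‖x‖) : ∀ᶠ y : E3 in 𝓝 x, R₀ < ‖y‖ :=
  continuous_norm.continuousAt.eventually (lt_mem_nhds hx)

/-- Local dependence of the Christoffel symbols. -/
theorem chr_congr {g g' : Tens} {x : E3} (h : ∀ᶠ y in 𝓝 x, g y = g' y) (a b c : Fin 3) :
    Pool.Agent.Lib.PenroseSph.chr g a b c x = Pool.Agent.Lib.PenroseSph.chr g' a b c x := by
  have h1 : ∀ i j k, pd k (fun y => g y i j) x = pd k (fun y => g' y i j) x := by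
    intro i j k
    unfold pd
    have h2 : (fun y => g y i j) =ᶠ[𝓝 x] fun y => g' y i j := by
      filter_upwards [h] with y hy
      rw [hy]
    rw [h2.fderiv_eq]
  unfold Pool.Agent.Lib.PenroseSph.chr
  rw [h.self_of_nhds]
  simp only [h1]

theorem meanCurv_congr {g g' : Tens} {x : E3} (h : ∀ᶠ y in 𝓝 x, g y = g' y) (w : E3 → ℝ) :
    meanCurv g w x = meanCurv g' w x := by
  unfold meanCurv normal gradNorm
  simp only [chr_congr h, h.self_of_nhds]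

theorem trLevel_congr {g g' h h' : Tens} {x : E3} (hg : g x = g' x) (hh : h x = h' x) (w : E3 → ℝ) :
    trLevel g h w x = trLevel g' h' w x := by
  unfold trLevel normal gradNorm
  simp only [hg, hh]

theorem flux_congr {g g' : Tens} {x : E3} (h : ∀ᶠ y in 𝓝 x, g y = g' y) : fluxDensity g x = fluxDensity g' x := by
  have h1 : ∀ i j k, pd k (fun y => g y i j) x = pd k (fun y => g' y i j) x := by
    intro i j k
    unfold pd
    have h2 : (fun y => g y i j) =ᶠ[𝓝 x] fun y => g' y i j := by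
      filter_upwards [h] with y hy
      rw [hy]
    rw [h2.fderiv_eq]
  unfold fluxDensity
  simp only [h1]

theorem mom_congr {g g' h h' : Tens} {x : E3} (hg : g x = g' x) (hh : h x = h' x) (i : Fin 3) :
    momDensity g h i x = momDensity g' h' i x := by
  unfold momDensity trg
  rw [hg, hh]

theorem norm_n (n : S2) {t : ℝ} (ht : 0 < t) : ‖t • (n : E3)‖ = t := Pool.Agent.Lib.PenroseSph.norm_ray ht n

theorem admFlux_congr {R₀ : ℝ} (h0 : 0 ≤ R₀) {g g' : Tens} (h : ∀ x : E3, R₀ < ‖x‖ → g x = g' x) {t : ℝ} (ht : R₀ < t) :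
    admFlux g t = admFlux g' t := by
  unfold admFlux
  congr 1
  refine integral_congr_ae (Eventually.of_forall fun n => ?_)
  have hn : R₀ < ‖t • (n : E3)‖ := by rw [norm_n n (lt_of_le_of_lt h0 ht)]; exact ht
  show t ^ 2 * fluxDensity g (t • (n : E3)) = t ^ 2 * fluxDensity g' (t • (n : E3))
  rw [flux_congr ((ext_nhds hn).mono fun y hy => h y hy)]

theorem admMom_congr {R₀ : ℝ} (h0 : 0 ≤ R₀) {g g' h h' : Tens} (hg : ∀ x : E3, R₀ < ‖x‖ → g x = g' x)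
    (hh : ∀ x : E3, R₀ < ‖x‖ → h x = h' x) (i : Fin 3) {t : ℝ} (ht : R₀ < t) : admMom g h i t = admMom g' h' i t := by
  unfold admMom
  congr 1
  refine integral_congr_ae (Eventually.of_forall fun n => ?_)
  have hn : R₀ < ‖t • (n : E3)‖ := by rw [norm_n n (lt_of_le_of_lt h0 ht)]; exact ht
  show t ^ 2 * momDensity g h i (t • (n : E3)) = t ^ 2 * momDensity g' h' i (t • (n : E3))
  rw [mom_congr (hg _ hn) (hh _ hn)]

theorem admMom_neg (g h : Tens) (i : Fin 3) : admMom g (fun x => -h x) i = fun t => -admMom g h i t := by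
  funext t
  unfold admMom
  rw [← mul_neg, ← integral_neg]
  congr 1
  refine integral_congr_ae (Eventually.of_forall fun n => ?_)
  show t ^ 2 * momDensity g (fun x => -h x) i (t • (n : E3)) = -(t ^ 2 * momDensity g h i (t • (n : E3)))
  rw [← mul_neg]
  congr 1
  unfold momDensity Pool.Agent.Lib.PenroseSph.trg
  rw [← Finset.sum_neg_distrib]
  refine Finset.sum_congr rfl fun j _ => ?_
  simp only [Matrix.neg_apply, mul_neg, Finset.sum_neg_distrib]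
  ring

/-- The touching point of the boundary. -/
theorem touch_main {R₀ : ℝ} {F : E4 → ℝ} {k : ℝ → ℝ} {r : ℝ × ℝ → ℝ} {f : E3 → ℝ} (hS : Slice R₀ F k r f) {g h : Tens}
    (hg : ∀ x : E3, R₀ < ‖x‖ → g x = slice (stMetric F k r) f x)
    (hh : (∀ x : E3, R₀ < ‖x‖ → h x = second (stMetric F k r) f x) ∨
      ∀ x : E3, R₀ < ‖x‖ → h x = -second (stMetric F k r) f x)
    {Om : Set E3} (hOo : IsOpen Om) (hOb : Bornology.IsBounded Om)
    (hin : (∃ δ : ℝ, 0 < δ ∧ ∀ x : E3, R₀ < ‖x‖ → ‖x‖ < R₀ + δ → x ∈ Om) ∨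
      (R₀ = 0 ∧ Om.Nonempty ∧ ContinuousAt f 0))
    (hor : ∀ x ∈ frontier Om, R₀ < ‖x‖ → ∃ w : E3 → ℝ, DefFun Om w x ∧ meanCurv g w x ≤ trLevel g h w x) :
    ∃ ε : ℝ, (ε = 1 ∨ ε = -1) ∧ ∃ (p : E3) (ρ0 : ℝ), R₀ < ‖p‖ ∧ R₀ < ρ0 ∧
      fderiv ℝ r (qq f p) (-ε, 1 / k ‖p‖) ≤ 0 ∧ (∀ x ∈ Om, R₀ < ‖x‖ → NN R₀ ε k f x ≤ NN R₀ ε k f p) ∧
      ∀ x : E3, R₀ < ‖x‖ → ‖x‖ < ρ0 → NN R₀ ε k f x < NN R₀ ε k f p := by
  set g' := slice (stMetric F k r) f with hg'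
  set K := second (stMetric F k r) f with hK
  have hR := red_of_slice hS
  obtain ⟨ε, hε, htr⟩ : ∃ ε : ℝ, (ε = 1 ∨ ε = -1) ∧ ∀ w x, R₀ < ‖x‖ → trLevel g' h w x = ε * trLevel g' K w x := by
    rcases hh with hh | hh
    · refine ⟨1, Or.inl rfl, fun w x hx => ?_⟩
      unfold trLevel
      rw [one_mul]
      simp only [hh x hx]
    · refine ⟨-1, Or.inr rfl, fun w x hx => ?_⟩
      unfold trLevel
      rw [Finset.mul_sum]
      refine Finset.sum_congr rfl fun i _ => ?_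
      rw [Finset.mul_sum]
      refine Finset.sum_congr rfl fun j _ => ?_
      rw [hh x hx]
      show _ * -(K x i j) = _
      ring
  obtain ⟨p, ρ0, hp, hpf, hρ0, hOm, hin0⟩ := exists_maxR hε hR hOo hOb hin
  refine ⟨ε, hε, p, ρ0, hp, hρ0, ?_, hOm, hin0⟩
  obtain ⟨w, hw, hhor⟩ := hor p hpf hp
  rw [meanCurv_congr ((ext_nhds hp).mono fun y hy => hg y hy), trLevel_congr (hg p hp) rfl, htr w p hp] at hhor
  have hNs : ContDiffAt ℝ ∞ (NN R₀ ε k f) p := NN_smooth hS.nonneg hS.k_smooth hS.f_smooth hp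
  have hrad := NN_radial hS.nonneg hε hS.k_smooth hS.f_smooth (fun x hx => slope_of_spacelike hS hx) hp
  have hdN : fderiv ℝ (NN R₀ ε k f) p ≠ 0 := by
    intro h0
    rw [h0] at hrad
    simp at hrad
  have hmax : ∀ᶠ x in 𝓝 p, x ∈ Om → NN R₀ ε k f x ≤ NN R₀ ε k f p := by
    filter_upwards [ext_nhds hp] with x hx hxO
    exact hOm x hxO hx
  obtain ⟨h1, h2⟩ := touch_compare (g := g') (h := K) (fun i j => slice_symm F k r f p i j)
    (hS.spacelike p hp) hw hpf (hNs.of_le (by norm_cast)) hdN hmax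
  have h3 := expansion hS hε hp
  rw [← hg', ← hK] at h3
  rw [h2] at hhor
  have hFp : 0 < F (pt (f p) p) := hS.F_pos _ (mem_near hp)
  have hrp : 0 < r (qq f p) := (slice_r hS ⟨p, hp, rfl⟩).2
  have hgn := (null_normal hS hε hp).2
  rw [← hg'] at hgn
  have h4 : 2 * fderiv ℝ r (qq f p) (-ε, 1 / k ‖p‖) / (F (pt (f p) p) * r (qq f p) * gradNorm g' (NN R₀ ε k f) p) ≤ 0 := by
    rw [← h3]
    linarith
  have hden : 0 < F (pt (f p) p) * r (qq f p) * gradNorm g' (NN R₀ ε k f) p := by positivity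
  by_contra hcon
  push Not at hcon
  have : 0 < 2 * fderiv ℝ r (qq f p) (-ε, 1 / k ‖p‖) / (F (pt (f p) p) * r (qq f p) * gradNorm g' (NN R₀ ε k f) p) :=
    div_pos (by linarith) hden
  linarith

/-- The area of the enclosing graphs. -/
theorem area_total {g : Tens} {ρ : S2 → ℝ} {s : E3 → ℝ} {M : ℝ} (hM : 0 ≤ M) (hr : ∀ n : S2, 0 < ρ n ∧ ρ n ≤ M)
    (h : ∀ n : S2, areaSq g s n ≤ ρ n ^ 4) : graphArea g s ≤ 4 * Real.pi * M ^ 2 := by
  unfold graphArea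
  have h1 : ∀ n : S2, Real.sqrt (areaSq g s n) ≤ M ^ 2 := by
    intro n
    obtain ⟨h2, h3⟩ := hr n
    refine Real.sqrt_le_iff.2 ⟨by positivity, ?_⟩
    calc areaSq g s n ≤ ρ n ^ 4 := h n
      _ ≤ M ^ 4 := pow_le_pow_left₀ h2.le h3 4
      _ = (M ^ 2) ^ 2 := by ring
  calc ∫ n : S2, Real.sqrt (areaSq g s n) ∂sm ≤ ∫ _ : S2, M ^ 2 ∂sm := by
        refine integral_mono_of_nonneg (Eventually.of_forall fun n => Real.sqrt_nonneg _) ?_
          (Eventually.of_forall h1)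
        exact integrable_const _
    _ = 4 * Real.pi * M ^ 2 := by
        rw [integral_const, Pool.Agent.Lib.PenroseSph.sm_univ, smul_eq_mul]

/-- From the reduced conclusion to areas. -/
theorem area_of_env {R₀ : ℝ} {F : E4 → ℝ} {k : ℝ → ℝ} {r : ℝ × ℝ → ℝ} {f : E3 → ℝ} (hS : Slice R₀ F k r f) {g : Tens}
    (hg : ∀ x : E3, R₀ < ‖x‖ → g x = slice (stMetric F k r) f x) {Om : Set E3} {E : ℝ}
    (hE : 0 < E) (hEnv : ∀ δ : ℝ, 0 < δ → Env R₀ k r f Om E δ) {δ : ℝ} (hδ : 0 < δ) :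
    ∃ s : E3 → ℝ, RadialGraph s ∧ (∀ x : E3, x ≠ 0 → R₀ < s x) ∧ (∀ x ∈ Om, R₀ < ‖x‖ → ‖x‖ < s x) ∧
      graphArea g s ≤ 16 * Real.pi * E ^ 2 + δ := by
  have hR := red_of_slice hS
  obtain ⟨η, hη, hη2⟩ : ∃ η : ℝ, 0 < η ∧ 4 * Real.pi * (2 * E + η) ^ 2 ≤ 16 * Real.pi * E ^ 2 + δ := by
    have hc : ContinuousAt (fun η : ℝ => 4 * Real.pi * (2 * E + η) ^ 2) 0 := by fun_prop
    have h1 : (fun η : ℝ => 4 * Real.pi * (2 * E + η) ^ 2) 0 < 16 * Real.pi * E ^ 2 + δ := by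
      simp only [add_zero]
      have : 4 * Real.pi * (2 * E) ^ 2 = 16 * Real.pi * E ^ 2 := by ring
      linarith
    have h2 := hc.eventually (gt_mem_nhds h1)
    obtain ⟨η, h3, h4⟩ := ((h2.filter_mono nhdsWithin_le_nhds).and
      (self_mem_nhdsWithin : Ioi (0 : ℝ) ∈ 𝓝[>] 0)).exists
    exact ⟨η, h4, h3.le⟩
  obtain ⟨s, hs, hsO, hsR, hsn⟩ := hEnv η hη
  refine ⟨s, hs, hsR, hsO, ?_⟩
  have hn0 : ∀ n : S2, (n : E3) ≠ 0 := by
    intro n h
    have := norm_eq_of_mem_sphere n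
    rw [h, norm_zero] at this
    exact zero_ne_one this
  have hsg : ∀ n : S2, R₀ < ‖s n • (n : E3)‖ := by
    intro n
    rw [norm_n n (hs.pos _ (hn0 n))]
    exact hsR _ (hn0 n)
  refine (area_total (ρ := fun n => r (qq f (s n • (n : E3)))) (M := 2 * E + η) (by linarith) ?_ ?_).trans hη2
  · intro n
    exact ⟨(slice_r hS ⟨_, hsg n, rfl⟩).2, (hsn n).1⟩
  · intro n
    obtain ⟨-, l, m, hl, hm, hlm, hi⟩ := hsn n
    have h1 := area_le hS hs n (hsR _ (hn0 n)) hl hm hlm hi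
    have h2 : areaSq g s n = areaSq (slice (stMetric F k r) f) s n := by
      unfold areaSq gprod
      rw [hg _ (hsg n)]
    rw [h2]
    exact h1

/-- The core: limits are an input. -/
theorem core {R₀ : ℝ} {F : E4 → ℝ} {k : ℝ → ℝ} {r : ℝ × ℝ → ℝ} {f : E3 → ℝ} (hS : Slice R₀ F k r f) {m : ℝ}
    (hEnds : Ends R₀ F k r f m) {g h : Tens}
    (hg : ∀ x : E3, R₀ < ‖x‖ → g x = slice (stMetric F k r) f x)
    (hh : (∀ x : E3, R₀ < ‖x‖ → h x = second (stMetric F k r) f x) ∨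
      ∀ x : E3, R₀ < ‖x‖ → h x = -second (stMetric F k r) f x)
    {Om : Set E3} (hOo : IsOpen Om) (hOb : Bornology.IsBounded Om)
    (hin : (∃ δ : ℝ, 0 < δ ∧ ∀ x : E3, R₀ < ‖x‖ → ‖x‖ < R₀ + δ → x ∈ Om) ∨
      (R₀ = 0 ∧ Om.Nonempty ∧ ContinuousAt f 0))
    (hor : ∀ x ∈ frontier Om, R₀ < ‖x‖ → ∃ w : E3 → ℝ, DefFun Om w x ∧ meanCurv g w x ≤ trLevel g h w x) :
    0 < m ∧ ∀ δ : ℝ, 0 < δ → ∃ s : E3 → ℝ, RadialGraph s ∧ (∀ x : E3, x ≠ 0 → R₀ < s x) ∧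
      (∀ x ∈ Om, R₀ < ‖x‖ → ‖x‖ < s x) ∧ graphArea g s ≤ 16 * Real.pi * m ^ 2 + δ := by
  obtain ⟨ε, hε, p, ρ0, hp, hρ0, hW, hOm, hin0⟩ := touch_main hS hg hh hOo hOb hin hor
  obtain ⟨hm, hEnv⟩ := env_bothR hε (red_of_slice hS) hEnds hp hW hOm hρ0 hin0
  exact ⟨hm, fun δ hδ => area_of_env hS hg hm hEnv hδ⟩

/-- Behaviour at infinity of asymptotically flat slices; the limits exist and the momentum vanishes. -/
theorem ends {R₀ : ℝ} {F : E4 → ℝ} {k : ℝ → ℝ} {r : ℝ × ℝ → ℝ} {f : E3 → ℝ} (hS : Slice R₀ F k r f)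
    (hA : AsympFlat R₀ F k r f) : ∃ E : ℝ, Ends R₀ F k r f E ∧
      Tendsto (admFlux (slice (stMetric F k r) f)) atTop (𝓝 E) ∧
      ∀ i, Tendsto (admMom (slice (stMetric F k r) f) (second (stMetric F k r) f) i) atTop (𝓝 0) := by
  obtain ⟨C, R, hB⟩ := bounds hS hA
  have hR := red_of_slice hS
  obtain ⟨E, hE⟩ := mass_unif hS hR hB
  refine ⟨E, ⟨ends_pos hS hB, ends_grow hS hB, fun n => ?_⟩, energy_lim hS hB hE,
    mom_lim hS hB fun ε hε => ww_osc hS hR hB hε⟩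
  rw [Metric.tendsto_atTop]
  intro ε hε
  obtain ⟨R', h⟩ := hE (ε / 2) (half_pos hε)
  refine ⟨max R' 1, fun s hs => ?_⟩
  have hs0 : 0 < s := lt_of_lt_of_le one_pos ((le_max_right _ _).trans hs)
  have h1 := h (s • (n : E3)) (by rw [norm_n n hs0]; exact (le_max_left _ _).trans hs)
  rw [Real.dist_eq]
  linarith

/-- The main theorem. -/
theorem main {R₀ : ℝ} {F : E4 → ℝ} {k : ℝ → ℝ} {r : ℝ × ℝ → ℝ} {f : E3 → ℝ} (hS : Slice R₀ F k r f)
    (hA : AsympFlat R₀ F k r f) {g h : Tens}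
    (hg : ∀ x : E3, R₀ < ‖x‖ → g x = slice (stMetric F k r) f x)
    (hh : (∀ x : E3, R₀ < ‖x‖ → h x = second (stMetric F k r) f x) ∨
      ∀ x : E3, R₀ < ‖x‖ → h x = -second (stMetric F k r) f x)
    {Om : Set E3} (hOo : IsOpen Om) (hOb : Bornology.IsBounded Om)
    (hin : (∃ δ : ℝ, 0 < δ ∧ ∀ x : E3, R₀ < ‖x‖ → ‖x‖ < R₀ + δ → x ∈ Om) ∨
      (R₀ = 0 ∧ Om.Nonempty ∧ ContinuousAt f 0))
    (hor : ∀ x ∈ frontier Om, R₀ < ‖x‖ → ∃ w : E3 → ℝ, DefFun Om w x ∧ meanCurv g w x ≤ trLevel g h w x) :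
    ∃ E : ℝ, Tendsto (admFlux g) atTop (𝓝 E) ∧ (∀ i, Tendsto (admMom g h i) atTop (𝓝 0)) ∧ 0 < E ∧
      ∀ δ : ℝ, 0 < δ → ∃ s : E3 → ℝ, RadialGraph s ∧ (∀ x : E3, x ≠ 0 → R₀ < s x) ∧
        (∀ x ∈ Om, R₀ < ‖x‖ → ‖x‖ < s x) ∧ graphArea g s ≤ 16 * Real.pi * E ^ 2 + δ := by
  obtain ⟨E, hEnds, hE, hP⟩ := ends hS hA
  obtain ⟨hEpos, hfin⟩ := core hS hEnds hg hh hOo hOb hin hor
  refine ⟨E, ?_, fun i => ?_, hEpos, hfin⟩
  · refine hE.congr' ?_
    filter_upwards [eventually_gt_atTop R₀] with t ht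
    exact (admFlux_congr hS.nonneg hg ht).symm
  · rcases hh with hh | hh
    · refine (hP i).congr' ?_
      filter_upwards [eventually_gt_atTop R₀] with t ht
      exact (admMom_congr hS.nonneg hg hh i ht).symm
    · have h1 : Tendsto (admMom (slice (stMetric F k r) f) (fun x => -second (stMetric F k r) f x) i) atTop (𝓝 0) := by
        rw [admMom_neg]
        simpa using (hP i).neg
      refine h1.congr' ?_
      filter_upwards [eventually_gt_atTop R₀] with t ht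
      exact (admMom_congr hS.nonneg hg hh i ht).symm

end H17V
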